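import Mathlib

/-!
# Elements of `ℤ[T]` all of whose character values have absolute value one
-/

set_option autoImplicit false
set_option linter.unusedSectionVars false

namespace Pool.Agent.Y72.Dt

open Finset

section par

variable {T : Type*} [CommGroup T]

/-- the multiplicative character -/
def chm (ψ : AddChar (Additive T) ℂ) : T →* ℂ where
  toFun t := ψ (Additive.ofMul t)
  map_one' := by rw [ofMul_one]; exact AddChar.map_zero_eq_one ψ
  map_mul' s t := by rw [ofMul_mul]; exact AddChar.map_add_eq_mul ψ _ _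

/-- the ring homomorphism attached to an additive character -/
noncomputable def chr (ψ : AddChar (Additive T) ℂ) : MonoidAlgebra ℤ T →+* ℂ :=
  (MonoidAlgebra.lift ℤ ℂ T (chm ψ)).toRingHom

lemma chr_apply [Fintype T] (ψ : AddChar (Additive T) ℂ) (u : MonoidAlgebra ℤ T) :
    chr ψ u = ∑ t, (u.coeff t : ℂ) * ψ (Additive.ofMul t) := by
  show MonoidAlgebra.lift ℤ ℂ T (chm ψ) u = _
  rw [MonoidAlgebra.lift_apply, Finsupp.sum_fintype]
  · apply Finset.sum_congr rfl
    intro t _
    rw [zsmul_eq_mul]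
    rfl
  · intro t
    rw [zero_smul]

lemma parseval [Fintype T] (u : MonoidAlgebra ℤ T) :
    ∑ ψ : AddChar (Additive T) ℂ, chr ψ u * (starRingEnd ℂ) (chr ψ u) =
      (Fintype.card T : ℂ) * ∑ t, (u.coeff t : ℂ) ^ 2 := by
  classical
  have h1 : ∀ ψ : AddChar (Additive T) ℂ, chr ψ u * (starRingEnd ℂ) (chr ψ u) =
      ∑ s, ∑ t, (u.coeff s : ℂ) * (u.coeff t : ℂ) * ψ (Additive.ofMul s - Additive.ofMul t) := by
    intro ψ
    rw [chr_apply, map_sum, Finset.sum_mul_sum]
    apply Finset.sum_congr rfl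
    intro s _
    apply Finset.sum_congr rfl
    intro t _
    rw [map_mul, ← AddChar.map_neg_eq_conj, sub_eq_add_neg, AddChar.map_add_eq_mul,
      map_intCast]
    ring
  rw [Finset.sum_congr rfl (fun ψ _ => h1 ψ), Finset.sum_comm, Finset.mul_sum]
  apply Finset.sum_congr rfl
  intro s _
  rw [Finset.sum_comm]
  rw [Finset.sum_eq_single s]
  · rw [← Finset.mul_sum, AddChar.sum_apply_eq_ite, if_pos (sub_self _)]
    have : Fintype.card (Additive T) = Fintype.card T := Fintype.card_congr Additive.toMul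
    rw [this]
    ring
  · intro t _ hts
    rw [← Finset.mul_sum, AddChar.sum_apply_eq_ite, if_neg, mul_zero]
    intro hc
    exact hts (Additive.ofMul.injective (sub_eq_zero.1 hc)).symm
  · intro h
    exact absurd (Finset.mem_univ s) h

/-- **elements of `ℤ[T]` with character values of absolute value one are trivial units** -/
theorem triv_unit [Finite T] (u : MonoidAlgebra ℤ T)
    (hu : ∀ ψ : AddChar (Additive T) ℂ, ‖chr ψ u‖ = 1) :
    ∃ t : T, u = MonoidAlgebra.single t 1 ∨ u = MonoidAlgebra.single t (-1) := by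
  classical
  cases nonempty_fintype T
  have h1 : ∀ ψ : AddChar (Additive T) ℂ, chr ψ u * (starRingEnd ℂ) (chr ψ u) = 1 := by
    intro ψ
    rw [Complex.mul_conj, Complex.normSq_eq_norm_sq, hu ψ]
    norm_num
  have h2 := parseval u
  rw [Finset.sum_congr rfl (fun ψ _ => h1 ψ)] at h2
  have h3 : (Fintype.card T : ℂ) ≠ 0 := Nat.cast_ne_zero.2 Fintype.card_ne_zero
  have h4 : ∑ ψ : AddChar (Additive T) ℂ, (1 : ℂ) = Fintype.card T := by
    rw [Finset.sum_const, Finset.card_univ, nsmul_eq_mul, mul_one, AddChar.card_eq]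
    exact congrArg _ (Fintype.card_congr Additive.toMul)
  rw [h4] at h2
  have h5 : ∑ t, (u.coeff t : ℂ) ^ 2 = 1 := by
    apply mul_left_cancel₀ h3
    rw [← h2, mul_one]
  have h6 : ∑ t, (u.coeff t) ^ 2 = 1 := by
    have : ((∑ t, (u.coeff t) ^ 2 : ℤ) : ℂ) = ((1 : ℤ) : ℂ) := by
      push_cast
      exact h5
    exact_mod_cast this
  obtain ⟨t0, ht0⟩ : ∃ t, u.coeff t ≠ 0 := by
    by_contra hc
    push Not at hc
    rw [Finset.sum_eq_zero (fun t _ => by rw [hc t]; norm_num)] at h6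
    exact zero_ne_one h6
  have h7 : (u.coeff t0) ^ 2 + ∑ t ∈ Finset.univ.erase t0, (u.coeff t) ^ 2 = 1 := by
    rw [← h6]
    exact Finset.add_sum_erase _ (fun t => (u.coeff t) ^ 2) (Finset.mem_univ _)
  have h8 : 1 ≤ (u.coeff t0) ^ 2 := by
    have : 0 < (u.coeff t0) ^ 2 := by positivity
    omega
  have h9 : 0 ≤ ∑ t ∈ Finset.univ.erase t0, (u.coeff t) ^ 2 :=
    Finset.sum_nonneg (fun t _ => sq_nonneg _)
  have h10 : ∑ t ∈ Finset.univ.erase t0, (u.coeff t) ^ 2 = 0 := by omega
  have h11 : ∀ t, t ≠ t0 → u.coeff t = 0 := by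
    intro t ht
    have := (Finset.sum_eq_zero_iff_of_nonneg (fun t _ => sq_nonneg (u.coeff t))).1 h10 t
      (Finset.mem_erase.2 ⟨ht, Finset.mem_univ _⟩)
    exact pow_eq_zero_iff (two_ne_zero) |>.1 this
  have h12 : u = MonoidAlgebra.single t0 (u.coeff t0) := by
    ext t
    rw [MonoidAlgebra.coeff_single, Finsupp.single_apply]
    by_cases ht : t0 = t
    · rw [if_pos ht, ht]
    · rw [if_neg ht, h11 t (Ne.symm ht)]
  have h13 : (u.coeff t0) ^ 2 = 1 := by omega
  refine ⟨t0, ?_⟩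
  rcases sq_eq_one_iff.1 h13 with h | h
  · exact Or.inl (h ▸ h12)
  · exact Or.inr (h ▸ h12)

end par

end Pool.Agent.Y72.Dt
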