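import Pool.Agent.Y72.Dt.Main
import Pool.Agent.Y72.Dt.Par
import Pool.Agent.Y72.Log.Fg
import Pool.Agent.H219.Wh.Det

/-!
# Representations over the integral group ring of a finite abelian group
-/

set_option autoImplicit false
set_option linter.unusedSectionVars false

namespace Pool.Agent.Y72.Dt

open Finset H219.Wh Pool.Agent.Y72.Log
open Pool.Agent.H23R2 (InvPair IsCoc DsumZ cf supp invPair_units)
open scoped Classical

section sep

variable {T : Type*} [CommGroup T] [Finite T]

/-- characters to `ℤ/p^N` separate the elements of a finite commutative group -/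
lemma exists_char (t : T) (ht : t ≠ 1) : ∃ (p N : ℕ) (_ : p.Prime)
    (μ : T →* Multiplicative (ZMod (p ^ N))), μ t ≠ 1 := by
  obtain ⟨ι, hι, p, hp, e, ⟨f⟩⟩ := AddCommGroup.equiv_directSum_zmod_of_finite (Additive T)
  have h1 : f (Additive.ofMul t) ≠ 0 := by
    intro hc
    apply ht
    have h2 : Additive.ofMul t = 0 := by
      apply f.injective
      rw [hc, map_zero]
    exact Additive.ofMul.injective h2
  obtain ⟨i, hi⟩ : ∃ i, f (Additive.ofMul t) i ≠ 0 := by
    by_contra hc
    push Not at hc
    apply h1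
    exact DFinsupp.ext hc
  let g : Additive T →+ ZMod (p i ^ e i) :=
    { toFun := fun a => f a i
      map_zero' := by rw [map_zero]; rfl
      map_add' := fun a b => by rw [map_add]; rfl }
  let μ : T →* Multiplicative (ZMod (p i ^ e i)) :=
    { toFun := fun a => Multiplicative.ofAdd (g (Additive.ofMul a))
      map_one' := by rw [ofMul_one, map_zero]; rfl
      map_mul' := fun a b => by rw [ofMul_mul, map_add]; rfl }
  refine ⟨p i, e i, hp i, μ, ?_⟩
  intro hc
  apply hi
  exact Multiplicative.ofAdd.injective hc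

end sep

section tors

variable {Γ : Type*} [Group Γ] {n d : ℕ}

lemma finite_order {Q : Type*} [Monoid Q] (ρ : Γ →* Q) (hρ : (Set.range ρ).Finite) (g : Γ) :
    ∃ m : ℕ, 0 < m ∧ ρ g ^ m = 1 := by
  have h1 : ¬ Function.Injective (fun m : ℕ => (⟨ρ (g ^ m), ⟨g ^ m, rfl⟩⟩ : Set.range ρ)) := by
    have := hρ.to_subtype
    intro hinj
    exact not_injective_infinite_finite _ hinj
  rw [Function.Injective] at h1
  push Not at h1
  obtain ⟨a, b, hab, hne⟩ := h1
  have hab' : ρ (g ^ a) = ρ (g ^ b) := congrArg Subtype.val hab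
  have key : ∀ a b : ℕ, a < b → ρ (g ^ a) = ρ (g ^ b) → ∃ m : ℕ, 0 < m ∧ ρ g ^ m = 1 := by
    intro a b hlt h
    refine ⟨b - a, by omega, ?_⟩
    have h2 : ρ (g ^ a) * ρ g ^ (b - a) = ρ (g ^ a) := by
      rw [← map_pow, ← map_mul, ← pow_add, Nat.add_sub_cancel' hlt.le, h]
    calc ρ g ^ (b - a) = ρ ((g ^ a)⁻¹) * (ρ (g ^ a) * ρ g ^ (b - a)) := by
          rw [← mul_assoc, ← map_mul, inv_mul_cancel, map_one, one_mul]
      _ = 1 := by rw [h2, ← map_mul, inv_mul_cancel, map_one]
  rcases Nat.lt_or_gt_of_ne hne with h | h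
  · exact key a b h hab'
  · exact key b a h hab'.symm

lemma block_eq_blkR {R : Type*} [CommRing R] (ρ : Γ →* Matrix (Fin d) (Fin d) R)
    (A : Matrix (Fin n) (Fin n) (MonoidAlgebra ℤ Γ)) : block ρ A = blkR (lrG ρ) A := by
  ext1 x y
  rfl

/-- change of coefficients -/
lemma block_map {R S : Type*} [CommRing R] [CommRing S] (f : R →+* S)
    (ρ : Γ →* Matrix (Fin d) (Fin d) R) (A : Matrix (Fin n) (Fin n) (MonoidAlgebra ℤ Γ)) :
    block ((f.mapMatrix.toMonoidHom).comp ρ) A = (block ρ A).map f := by
  ext1 x y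
  simp only [block, Matrix.of_apply, Matrix.map_apply]
  rw [lin_apply, lin_apply, map_finsuppSum]
  simp only [Finsupp.sum, map_mul, map_intCast]
  rfl

lemma det_map {R S : Type*} [CommRing R] [CommRing S] (f : R →+* S)
    (ρ : Γ →* Matrix (Fin d) (Fin d) R) (A : Matrix (Fin n) (Fin n) (MonoidAlgebra ℤ Γ)) (g : Γ) :
    (block ((f.mapMatrix.toMonoidHom).comp ρ) A).det *
      (((f.mapMatrix.toMonoidHom).comp ρ) g).det = f ((block ρ A).det * (ρ g).det) := by
  rw [block_map, map_mul]
  congr 1
  · exact (RingHom.map_det f _).symm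
  · exact (RingHom.map_det f _).symm

/-- **Determinants of representations over integral group rings of finite commutative groups** -/
theorem tors (A : (Matrix (Fin n) (Fin n) (MonoidAlgebra ℤ Γ))ˣ) (hb : Cen Γ) (hu : UR Γ)
    {T : Type*} [CommGroup T] [Finite T]
    (ρ : Γ →* Matrix (Fin d) (Fin d) (MonoidAlgebra ℤ T)) (hρ : (Set.range ρ).Finite) :
    (block ρ A.val).det * (ρ (gamA A)⁻¹).det = 1 ∨
      (block ρ A.val).det * (ρ (gamA A)⁻¹).det = -1 := by
  set u := (block ρ A.val).det * (ρ (gamA A)⁻¹).det with hudef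
  -- the character values
  have h1 : ∀ ψ : AddChar (Additive T) ℂ, ‖chr ψ u‖ = 1 := by
    intro ψ
    have hr : (Set.range (((chr ψ).mapMatrix.toMonoidHom).comp ρ :
        Γ →* Matrix (Fin d) (Fin d) ℂ)).Finite := by
      have : Set.range (((chr ψ).mapMatrix.toMonoidHom).comp ρ :
        Γ →* Matrix (Fin d) (Fin d) ℂ) = (chr ψ).mapMatrix '' Set.range ρ := by
        ext x
        simp only [Set.mem_range, Set.mem_image, exists_exists_eq_and]
        rfl
      rw [this]
      exact hρ.image _
    obtain ⟨N, hN, h2⟩ := det_cen hb A (((chr ψ).mapMatrix.toMonoidHom).comp ρ) hr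
    obtain ⟨m, hm, h3⟩ := finite_order (((chr ψ).mapMatrix.toMonoidHom).comp ρ) hr (gamA A)⁻¹
    have h4 : ((((chr ψ).mapMatrix.toMonoidHom).comp ρ) (gamA A)⁻¹).det ^ m = 1 := by
      rw [← Matrix.det_pow, h3, Matrix.det_one]
    have h5 : (chr ψ u) ^ (N * m) = 1 := by
      rw [hudef, ← det_map, mul_pow, pow_mul, mul_comm N m, pow_mul _ m N, h4, one_pow, mul_one]
      have h6 : (block (((chr ψ).mapMatrix.toMonoidHom).comp ρ) A.val).det ^ N = 1 := h2
      rw [h6, one_pow]
    exact Complex.norm_eq_one_of_pow_eq_one h5 (Nat.mul_pos hN hm).ne'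
  obtain ⟨t, ht⟩ := triv_unit u h1
  -- the logarithmic derivative
  have h2 : t = 1 := by
    by_contra hne
    obtain ⟨p, N, hp, μ, hμ⟩ := exists_char t hne
    let π : MonoidAlgebra ℤ T →+* MonoidAlgebra (ZMod (p ^ N)) T :=
      MonoidAlgebra.mapRingHom T (Int.castRingHom (ZMod (p ^ N)))
    obtain ⟨y, hy⟩ := dlog_det (p := 0) (I := 0) A (γ := gamA A) (Λ := Unit)
      (D := fun _ => DM μ) (by
        intro F hF
        refine ⟨0, AddSubgroup.zero_mem _, ?_⟩
        rw [zero_smul, add_zero]
        have := PD_main A hb hu hp (N := N) (Λ := T)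
          (M := Unit → MonoidAlgebra (ZMod (p ^ N)) T)
          (fun t => { toFun := fun f => (f ()).coeff t
                      map_zero' := rfl
                      map_add' := fun f g => rfl }) (by
            intro x hx
            funext z
            ext s
            exact hx s) hF
        exact this) ((π.mapMatrix.toMonoidHom).comp ρ)
    have h3 := hy ()
    rw [det_map, ← hudef] at h3
    simp only [Nat.cast_zero, zero_mul] at h3
    have h4 : (μ t).toAdd * (π u).coeff t = 0 := by
      have h40 := DM_coeff μ (π u) t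
      have h41 : (DM μ (π u)).coeff t = 0 := by
        have h42 : DM μ (π u) = 0 := h3
        rw [h42]
        rfl
      exact h40.symm.trans h41
    apply hμ
    have h5 : (π u).coeff t = 1 ∨ (π u).coeff t = -1 := by
      rcases ht with h | h
      · left
        rw [h]
        show (MonoidAlgebra.mapRingHom T (Int.castRingHom (ZMod (p ^ N)))
          (MonoidAlgebra.single t 1)).coeff t = 1
        rw [MonoidAlgebra.coeff_mapRingHom, MonoidAlgebra.coeff_single, Finsupp.single_eq_same,
          map_one]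
      · right
        rw [h]
        show (MonoidAlgebra.mapRingHom T (Int.castRingHom (ZMod (p ^ N)))
          (MonoidAlgebra.single t (-1))).coeff t = -1
        rw [MonoidAlgebra.coeff_mapRingHom, MonoidAlgebra.coeff_single, Finsupp.single_eq_same,
          map_neg, map_one]
    have h6 : (μ t).toAdd = 0 := by
      rcases h5 with h | h
      · rw [h, mul_one] at h4
        exact h4
      · rw [h, mul_neg, mul_one, neg_eq_zero] at h4
        exact h4
    exact toAdd_eq_zero.1 h6
  rw [h2] at ht
  rcases ht with h | h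
  · left
    rw [h]
    rfl
  · right
    rw [h, MonoidAlgebra.single_neg]
    rfl

end tors

end Pool.Agent.Y72.Dt
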