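import Pool.Agent.Y72.Dt.Fin
import Pool.Agent.Y72.Dt.Tor

/-!
# Representations with finite image
-/

set_option autoImplicit false
set_option linter.unusedSectionVars false

namespace Pool.Agent.Y72.Dt

open Pool.Agent.Y72.Log H219.Wh
open Pool.Agent.H23R2 (InvPair IsCoc DsumZ cf supp invPair_units)

section comb

variable {Γ : Type*} [Group Γ] {n : Type*} [Fintype n] [DecidableEq n] {R : Type*} [CommRing R]
  {ι : Type*} [Fintype ι] [DecidableEq ι]

lemma DD_mp {Γ' : Type*} [Group Γ'] (π : Γ →* Γ') (ρ : Γ' →* Matrix ι ι R)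
    (A : Matrix n n (MonoidAlgebra ℤ Γ)) : DD ρ (A.map (mp π)) = DD (ρ.comp π) A := by
  unfold DD
  congr 1
  ext1 x y
  rw [blkR_apply, blkR_apply, Matrix.map_apply, lrG_mp]

lemma DD_fromBlocks (ρ : Γ →* Matrix ι ι R) (A : Matrix n n (MonoidAlgebra ℤ Γ)) (g : Γ) :
    DD ρ (Matrix.fromBlocks A 0 0 (Matrix.of fun _ _ : Unit => MonoidAlgebra.single g 1)) =
      DD ρ A * (ρ g).det := by
  unfold DD
  let e : (n ⊕ Unit) × ι ≃ (n × ι) ⊕ ι :=
    { toFun := fun x => match x with
        | (Sum.inl a, i) => Sum.inl (a, i)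
        | (Sum.inr _, i) => Sum.inr i
      invFun := fun x => match x with
        | Sum.inl (a, i) => (Sum.inl a, i)
        | Sum.inr i => (Sum.inr (), i)
      left_inv := by rintro ⟨a | a, i⟩ <;> rfl
      right_inv := by rintro (⟨a, i⟩ | i) <;> rfl }
  rw [← Matrix.det_reindex_self e, ← Matrix.det_fromBlocks_zero₂₁ _ 0]
  congr 1
  ext x y
  rw [Matrix.reindex_apply, Matrix.submatrix_apply, blkR_apply]
  rcases x with ⟨a, i⟩ | i <;> rcases y with ⟨b, j⟩ | j
  · rfl
  · rw [Matrix.fromBlocks_apply₁₂, Matrix.zero_apply]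
    show lrG ρ 0 i j = 0
    rw [map_zero, Matrix.zero_apply]
  · rw [Matrix.fromBlocks_apply₂₁, Matrix.zero_apply]
    show lrG ρ 0 i j = 0
    rw [map_zero, Matrix.zero_apply]
  · rw [Matrix.fromBlocks_apply₂₂]
    show lrG ρ (MonoidAlgebra.single g 1) i j = _
    rw [lrG_single, one_smul]

end comb

section main

universe v

variable {Γ : Type*} [Group Γ] {n d : ℕ}

/-- **Representations with finite image over arbitrary fields** -/
theorem finite_image (A : (Matrix (Fin n) (Fin n) (MonoidAlgebra ℤ Γ))ˣ) (hb : Cen Γ) (hu : UR Γ)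
    {L : Type v} [Field L] (ρ : Γ →* Matrix (Fin d) (Fin d) L) (hρ : (Set.range ρ).Finite) :
    DD ρ A.val = (ρ (gamA A)).det ∨ DD ρ A.val = - (ρ (gamA A)).det := by
  let ρu : Γ →* (Matrix (Fin d) (Fin d) L)ˣ := ρ.toHomUnits
  let G := ρu.range
  have hfin : Finite G := by
    have h1 : (Set.range ρu).Finite := by
      apply Set.Finite.of_finite_image (f := Units.val) _ Units.val_injective.injOn
      apply hρ.subset
      rintro _ ⟨_, ⟨g, rfl⟩, rfl⟩
      exact ⟨g, rfl⟩
    exact h1.to_subtype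
  let π : Γ →* G := ρu.rangeRestrict
  let ρG : G →* Matrix (Fin d) (Fin d) L := (Units.coeHom _).comp G.subtype
  have hρG : ρG.comp π = ρ := by
    ext1 g
    rfl
  let B : Matrix (Fin n ⊕ Unit) (Fin n ⊕ Unit) (MonoidAlgebra ℤ Γ) :=
    Matrix.fromBlocks A.val 0 0 (Matrix.of fun _ _ : Unit => MonoidAlgebra.single (gamA A)⁻¹ 1)
  have hB : TorOK.{v, v} (B.map (mp π)) := by
    intro T _ _ d' ρ'
    rw [DD_mp, DD_fromBlocks]
    have h1 := tors A hb hu (ρ'.comp π) (by
      apply (Set.finite_range ρ').subset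
      rintro _ ⟨g, rfl⟩
      exact ⟨π g, rfl⟩)
    exact h1
  have h1 := fin_main hB (chg (algebraMap L (AlgebraicClosure L)) ρG)
  rw [DD_chg, DD_mp, hρG, DD_fromBlocks] at h1
  have hinj := (algebraMap L (AlgebraicClosure L)).injective
  have h2 : (ρ (gamA A)).det * (ρ (gamA A)⁻¹).det = 1 := by
    rw [← Matrix.det_mul, ← map_mul, mul_inv_cancel, map_one, Matrix.det_one]
  have h3 : ∀ c : L, DD ρ A.val * (ρ (gamA A)⁻¹).det = c → DD ρ A.val = c * (ρ (gamA A)).det := by
    intro c hc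
    rw [← hc, mul_assoc, mul_comm (ρ (gamA A)⁻¹).det, h2, mul_one]
  rcases h1 with h | h
  · left
    rw [h3 1 (hinj (by rw [h, map_one])), one_mul]
  · right
    rw [h3 (-1) (hinj (by rw [h, map_neg, map_one])), neg_one_mul]

end main

end Pool.Agent.Y72.Dt
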