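import Pool.Agent.H23R2.Lin
import Pool.Agent.Y72.Dt.Comb
import Pool.Agent.Y72.Log.CenLin2

/-!
# Finitely generated linear groups and representations over arbitrary fields
-/

set_option autoImplicit false
set_option linter.unusedSectionVars false

namespace Pool.Agent.Y72.Dt

open Pool.Agent.Y72.Log Pool.Agent.H23R2 H219.Wh

section ring

universe u v

variable {K : Type u} [Field K] {N : ℕ} {H : Type v} [Group H]

/-- the entries of a finitely generated matrix group lie in a finitely generated ring -/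
theorem exists_ring [Group.FG H] (φ : H →* Matrix (Fin N) (Fin N) K) :
    ∃ (R : Subalgebra ℤ K) (_ : Algebra.FiniteType ℤ R) (ψ : H →* Matrix (Fin N) (Fin N) R),
      ∀ h i j, (ψ h i j : K) = φ h i j := by
  classical
  obtain ⟨T, hT⟩ := Group.fg_def.1 (inferInstance : Group.FG H)
  let s : Finset K := T.biUnion fun t => Finset.univ.biUnion fun i : Fin N =>
    Finset.univ.biUnion fun j : Fin N => {φ t i j, φ t⁻¹ i j}
  let R : Subalgebra ℤ K := Algebra.adjoin ℤ (s : Set K)
  have hR : Algebra.FiniteType ℤ R := by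
    rw [← Subalgebra.fg_iff_finiteType]
    exact ⟨s, rfl⟩
  have h1 : ∀ t ∈ T, ∀ i j, φ t i j ∈ R := by
    intro t ht i j
    apply Algebra.subset_adjoin
    simp only [s, Finset.coe_biUnion, Set.mem_iUnion]
    exact ⟨t, ht, i, by simp, j, by simp, by simp⟩
  have h2 : ∀ t ∈ T, ∀ i j, φ t⁻¹ i j ∈ R := by
    intro t ht i j
    apply Algebra.subset_adjoin
    simp only [s, Finset.coe_biUnion, Set.mem_iUnion]
    exact ⟨t, ht, i, by simp, j, by simp, by simp⟩
  have hent : ∀ h : H, ∀ i j, φ h i j ∈ R := by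
    intro h
    have hmem : h ∈ Subgroup.closure (T : Set H) := by rw [hT]; trivial
    have hmul : ∀ x y : H, (∀ i j, φ x i j ∈ R) → (∀ i j, φ y i j ∈ R) →
        ∀ i j, φ (x * y) i j ∈ R := by
      intro x y hx hy i j
      rw [map_mul, Matrix.mul_apply]
      exact R.sum_mem (fun k _ => R.mul_mem (hx i k) (hy k j))
    induction hmem using Subgroup.closure_induction_left with
    | one =>
      intro i j
      rw [map_one, Matrix.one_apply]
      split_ifs
      · exact R.one_mem
      · exact R.zero_mem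
    | mul_left x hx y _ ih => exact hmul x y (h1 x hx) ih
    | inv_mul_cancel x hx y _ ih => exact hmul x⁻¹ y (h2 x hx) ih
  refine ⟨R, hR, { toFun := fun h => Matrix.of fun i j => ⟨φ h i j, hent h i j⟩
                   map_one' := ?_
                   map_mul' := ?_ }, fun h i j => rfl⟩
  · ext i j
    simp only [Matrix.of_apply, map_one, Matrix.one_apply]
    split_ifs <;> rfl
  · intro x y
    ext i j
    simp only [Matrix.of_apply, map_mul, Matrix.mul_apply]
    rw [AddSubmonoidClass.coe_finsetSum]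
    rfl

/-- finitely generated linear groups have unique roots for infinitely many primes -/
theorem ur_linear [Group.FG H] (φ : H →* GL (Fin N) K) (hφ : Function.Injective φ) : UR H := by
  obtain ⟨R, hR, ψ0, hψ0⟩ := exists_ring ((Units.coeHom _).comp φ)
  have hN : IsNoetherianRing R := Algebra.FiniteType.isNoetherianRing ℤ R
  let ψ : H →* (Matrix (Fin N) (Fin N) R)ˣ := ψ0.toHomUnits
  have hψ : Function.Injective ψ := by
    intro x y hxy
    apply hφ
    apply Units.ext
    ext i j
    have h1 : ψ0 x = ψ0 y := congrArg Units.val hxy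
    have h2 := congrArg (fun z => (z i j : K)) h1
    simp only [hψ0] at h2
    exact h2
  obtain ⟨m, hm⟩ := Ideal.exists_maximal R
  obtain ⟨q, hq, hqm, hfin⟩ := residue_finite R m
  obtain ⟨E, hE0, hE⟩ := exists_exponent (n := Fin N) m q hqm hfin
  have hne : E * q ≠ 0 := (Nat.mul_pos hE0 hq.pos).ne'
  have h1 : ({l : ℕ | l.Prime} \ ((E * q).primeFactors : Set ℕ)).Infinite :=
    Nat.infinite_setOfPred_prime.sdiff (Finset.finite_toSet _)
  apply h1.mono
  rintro l ⟨hl, hl2⟩
  refine ⟨hl, fun x y hxy => roots_unique ψ hψ m hm.ne_top q E hE l ?_ x y hxy⟩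
  rw [Nat.Prime.coprime_iff_not_dvd hl]
  intro hd
  exact hl2 (Finset.mem_coe.2 (Nat.mem_primeFactors.2 ⟨hl, hd, hne⟩))

end ring

section fields

universe u v

variable {H : Type v} [Group H] {n d : ℕ}

/-- **Representations of finitely generated groups over arbitrary fields** -/
theorem all_reps [Group.FG H] (hb : Cen H) (hu : UR H)
    (A : (Matrix (Fin n) (Fin n) (MonoidAlgebra ℤ H))ˣ)
    {L : Type u} [Field L] (ρ : H →* Matrix (Fin d) (Fin d) L) :
    DD ρ A.val = (ρ (gamA A)).det ∨ DD ρ A.val = - (ρ (gamA A)).det := by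
  obtain ⟨R, hR, ψ, hψ⟩ := exists_ring ρ
  have hval : chg (R.val.toRingHom) ψ = ρ := by
    ext g i j
    exact hψ g i j
  have h1 : ∀ m : Ideal R, m.IsMaximal → (DD ψ A.val) ^ 2 - ((ψ (gamA A)).det) ^ 2 ∈ m := by
    intro m hm
    obtain ⟨q, hq, hqm, hfin⟩ := residue_finite R m
    let i1 : Field (R ⧸ m) := Ideal.Quotient.field m
    have h2 := finite_image A hb hu (chg (Ideal.Quotient.mk m) ψ) (Set.toFinite _)
    rw [DD_chg] at h2
    have h3 : (chg (Ideal.Quotient.mk m) ψ (gamA A)).det =
        Ideal.Quotient.mk m (ψ (gamA A)).det := (RingHom.map_det _ _).symm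
    rw [h3] at h2
    rw [← Ideal.Quotient.eq_zero_iff_mem, map_sub, map_pow, map_pow]
    rcases h2 with h | h
    · rw [h, sub_self]
    · rw [h, neg_sq, sub_self]
  have h2 : (DD ψ A.val) ^ 2 - ((ψ (gamA A)).det) ^ 2 = 0 := by
    have hJ : IsJacobsonRing R := isJacobsonRing_of_finiteType (A := ℤ)
    have h3 : (⊥ : Ideal R).jacobson = ⊥ := hJ.out (Ideal.isPrime_bot (α := R)).isRadical
    have h4 : (DD ψ A.val) ^ 2 - ((ψ (gamA A)).det) ^ 2 ∈ (⊥ : Ideal R).jacobson := by
      rw [Ideal.jacobson, Ideal.mem_sInf]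
      rintro m ⟨_, hm⟩
      exact h1 m hm
    rw [h3, Ideal.mem_bot] at h4
    exact h4
  have h3 : (DD ρ A.val) ^ 2 = ((ρ (gamA A)).det) ^ 2 := by
    have h4 := congrArg (R.val.toRingHom) h2
    rw [map_sub, map_pow, map_pow, map_zero, ← DD_chg, hval, RingHom.map_det, sub_eq_zero] at h4
    rw [h4, ← hval]
    rfl
  exact sq_eq_sq_iff_eq_or_eq_neg.1 h3

end fields

end Pool.Agent.Y72.Dt
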