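import Mathlib

/-!
# Representations which are triangular with monomial diagonal blocks
-/

set_option autoImplicit false
set_option linter.unusedSectionVars false

namespace Pool.Agent.Y72.Dt

open Module

section defs

variable {L : Type*} [Field L] {K : Type*} [Group K] {V : Type*} [AddCommGroup V] [Module L V]

/-- the group acts triangularly, with monomial diagonal blocks whose entries are `M`-th roots of
unity -/
def Mt (M : ℕ) (ρ : K →* End L V) : Prop :=
  ∃ (m : ℕ) (b : Basis (Fin m) L V) (β : Fin m → ℕ), ∀ g j, ∃ i, β i = β j ∧ ∃ c : L, c ^ M = 1 ∧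
    ρ g (b j) - c • b i ∈ Submodule.span L (b '' {k | β k < β j})

lemma Mt.of_basis {M : ℕ} {ρ : K →* End L V} {ι : Type*} [Finite ι] (b : Basis ι L V) (β : ι → ℕ)
    (h : ∀ g j, ∃ i, β i = β j ∧ ∃ c : L, c ^ M = 1 ∧
      ρ g (b j) - c • b i ∈ Submodule.span L (b '' {k | β k < β j})) : Mt M ρ := by
  let e := Finite.equivFin ι
  refine ⟨Nat.card ι, b.reindex e, β ∘ e.symm, fun g j => ?_⟩
  obtain ⟨i, hi, c, hc, h1⟩ := h g (e.symm j)
  refine ⟨e i, ?_, c, hc, ?_⟩
  · rw [Function.comp_apply, Equiv.symm_apply_apply, hi, Function.comp_apply]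
  · rw [Basis.reindex_apply, Basis.reindex_apply, Equiv.symm_apply_apply]
    refine Submodule.span_mono ?_ h1
    rintro _ ⟨k, hk, rfl⟩
    refine ⟨e k, ?_, ?_⟩
    · show β (e.symm (e k)) < β (e.symm j)
      rw [Equiv.symm_apply_apply]
      exact hk
    · rw [Basis.reindex_apply, Equiv.symm_apply_apply]

/-- restriction of a representation to a subgroup and an invariant subspace -/
def resr (ρ : K →* End L V) (H : Subgroup K) (W : Submodule L V)
    (h : ∀ g ∈ H, ∀ v ∈ W, ρ g v ∈ W) : H →* End L W where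
  toFun g := (ρ g.1).restrict (h g.1 g.2)
  map_one' := by
    ext v
    simp
  map_mul' g g' := by
    ext v
    simp

lemma resr_apply (ρ : K →* End L V) (H : Subgroup K) (W : Submodule L V)
    (h : ∀ g ∈ H, ∀ v ∈ W, ρ g v ∈ W) (g : H) (v : W) :
    ((resr ρ H W h g v : W) : V) = ρ g.1 v := rfl

/-- restriction of a representation to an invariant subspace -/
def subr (ρ : K →* End L V) (W : Submodule L V)
    (h : ∀ g, ∀ v ∈ W, ρ g v ∈ W) : K →* End L W where
  toFun g := (ρ g).restrict (h g)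
  map_one' := by
    ext v
    simp
  map_mul' g g' := by
    ext v
    simp

/-- the quotient representation -/
def quor (ρ : K →* End L V) (W : Submodule L V)
    (h : ∀ g, ∀ v ∈ W, ρ g v ∈ W) : K →* End L (V ⧸ W) where
  toFun g := W.mapQ W (ρ g) (h g)
  map_one' := by
    ext v
    simp
  map_mul' g g' := by
    ext v
    simp

lemma quor_mk (ρ : K →* End L V) (W : Submodule L V)
    (h : ∀ g, ∀ v ∈ W, ρ g v ∈ W) (g : K) (v : V) :
    quor ρ W h g (W.mkQ v) = W.mkQ (ρ g v) := rfl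

/-- extensions -/
lemma Mt.ext {M : ℕ} (ρ : K →* End L V) (W : Submodule L V)
    (h : ∀ g, ∀ v ∈ W, ρ g v ∈ W) (h1 : Mt M (subr ρ W h)) (h2 : Mt M (quor ρ W h)) : Mt M ρ := by
  obtain ⟨m, bW, βW, h1⟩ := h1
  obtain ⟨n, bQ, βQ, h2⟩ := h2
  let b := Basis.sumQuot bW bQ
  let B := ∑ i, βW i + 1
  have hB : ∀ i, βW i < B := fun i =>
    Nat.lt_succ_of_le (Finset.single_le_sum (fun i _ => Nat.zero_le _) (Finset.mem_univ i))
  let β : Fin m ⊕ Fin n → ℕ := Sum.elim βW (fun j => B + βQ j)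
  have hbr : ∀ j, W.mkQ (b (Sum.inr j)) = bQ j := fun j => Basis.sumQuot_inr bW bQ j
  have hbl : ∀ j, b (Sum.inl j) = bW j := fun j => Basis.sumQuot_inl bW bQ j
  apply Mt.of_basis b β
  intro g j
  rcases j with j | j
  · obtain ⟨i, hi, c, hc, h3⟩ := h1 g j
    refine ⟨Sum.inl i, hi, c, hc, ?_⟩
    rw [hbl, hbl]
    have h4 := Submodule.mem_map_of_mem (f := W.subtype) h3
    rw [Submodule.map_span, map_sub, map_smul] at h4
    refine Submodule.span_mono ?_ h4
    rintro _ ⟨_, ⟨k, hk, rfl⟩, rfl⟩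
    exact ⟨Sum.inl k, hk, hbl k⟩
  · obtain ⟨i, hi, c, hc, h3⟩ := h2 g j
    refine ⟨Sum.inr i, congrArg (B + ·) hi, c, hc, ?_⟩
    rw [← hbr, ← hbr, quor_mk, ← map_smul, ← map_sub] at h3
    have h4 : bQ '' {k | βQ k < βQ j} = W.mkQ '' ((fun k => b (Sum.inr k)) '' {k | βQ k < βQ j}) := by
      rw [Set.image_image]
      apply Set.image_congr
      intro k _
      exact (hbr k).symm
    rw [h4, ← Submodule.map_span] at h3
    obtain ⟨y, hy, hyx⟩ := h3
    have h5 : (ρ g) (b (Sum.inr j)) - c • b (Sum.inr i) - y ∈ W := by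
      rw [← Submodule.ker_mkQ W, LinearMap.mem_ker, map_sub, hyx, sub_self]
    have h6 : W ≤ Submodule.span L (b '' {k | β k < β (Sum.inr j)}) := by
      have h7 : W = (Submodule.span L (Set.range bW)).map W.subtype := by
        rw [bW.span_eq, Submodule.map_top, Submodule.range_subtype]
      conv_lhs => rw [h7]
      rw [Submodule.map_span]
      apply Submodule.span_mono
      rintro _ ⟨_, ⟨k, rfl⟩, rfl⟩
      exact ⟨Sum.inl k, lt_of_lt_of_le (hB k) (Nat.le_add_right _ _), hbl k⟩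
    have h7 : y ∈ Submodule.span L (b '' {k | β k < β (Sum.inr j)}) := by
      refine Submodule.span_mono ?_ hy
      rintro _ ⟨k, hk, rfl⟩
      exact ⟨Sum.inr k, Nat.add_lt_add_left hk B, rfl⟩
    have h8 := Submodule.add_mem _ (h6 h5) h7
    rwa [sub_add_cancel] at h8

end defs

section ind

variable {L : Type*} [Field L] {K : Type*} [Group K] {V : Type*} [AddCommGroup V] [Module L V]

/-- the isomorphism between the pieces of an imprimitive decomposition -/
def transEquiv (ρ : K →* End L V) (t : K) (U W : Submodule L V)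
    (h1 : ∀ v ∈ U, ρ t v ∈ W) (h2 : ∀ v ∈ W, ρ t⁻¹ v ∈ U) : U ≃ₗ[L] W :=
  LinearEquiv.ofLinearMap ((ρ t).restrict h1) ((ρ t⁻¹).restrict h2)
    (by
      ext v
      show ρ t (ρ t⁻¹ v) = v
      rw [← Module.End.mul_apply, ← map_mul, mul_inv_cancel, map_one, Module.End.one_apply])
    (by
      ext v
      show ρ t⁻¹ (ρ t v) = v
      rw [← Module.End.mul_apply, ← map_mul, inv_mul_cancel, map_one, Module.End.one_apply])

lemma transEquiv_apply (ρ : K →* End L V) (t : K) (U W : Submodule L V)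
    (h1 : ∀ v ∈ U, ρ t v ∈ W) (h2 : ∀ v ∈ W, ρ t⁻¹ v ∈ U) (v : U) :
    (transEquiv ρ t U W h1 h2 v : V) = ρ t v := rfl

open scoped Classical in
/-- **imprimitive decompositions** -/
theorem Mt.ind {M : ℕ} {X : Type*} [Finite X] [MulAction K X] (ρ : K →* End L V)
    (A : X → Submodule L V) (hI : DirectSum.IsInternal A)
    (hA : ∀ g x, ∀ v ∈ A x, ρ g v ∈ A (g • x))
    (hM : ∀ x, Mt M (resr ρ (MulAction.stabilizer K x) (A x)
      (fun g hg v hv => (MulAction.mem_stabilizer_iff.1 hg) ▸ hA g x v hv))) : Mt M ρ := by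
  choose m b β hb using hM
  let r : X → X := fun x => (Quotient.mk (MulAction.orbitRel K X) x).out
  have hr : ∀ x, ∃ t : K, t • r x = x := by
    intro x
    have h1 : (MulAction.orbitRel K X) (r x) x := Quotient.mk_out x
    obtain ⟨t, ht⟩ := (MulAction.orbitRel K X).symm h1
    exact ⟨t, ht⟩
  have hrg : ∀ (g : K) x, r (g • x) = r x := by
    intro g x
    have h1 : (Quotient.mk (MulAction.orbitRel K X) (g • x)) = Quotient.mk _ x :=
      Quotient.sound ⟨g, rfl⟩
    show (Quotient.mk (MulAction.orbitRel K X) (g • x)).out = _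
    rw [h1]
  choose t ht using hr
  have ht' : ∀ x, (t x)⁻¹ • x = r x := fun x => by
    rw [inv_smul_eq_iff]
    exact (ht x).symm
  have hA1 : ∀ x, ∀ v ∈ A (r x), ρ (t x) v ∈ A x := by
    intro x v hv
    have h1 := hA (t x) (r x) v hv
    rwa [ht x] at h1
  have hA2 : ∀ x, ∀ v ∈ A x, ρ (t x)⁻¹ v ∈ A (r x) := by
    intro x v hv
    have h1 := hA (t x)⁻¹ x v hv
    rwa [ht' x] at h1
  let e : ∀ x, A (r x) ≃ₗ[L] A x := fun x => transEquiv ρ (t x) (A (r x)) (A x) (hA1 x) (hA2 x)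
  let B : ∀ x, Basis (Fin (m (r x))) L (A x) := fun x => (b (r x)).map (e x)
  have hB : ∀ x i, ((B x i : A x) : V) = ρ (t x) (b (r x) i : V) := fun x i => rfl
  let C := hI.collectedBasis B
  have hC : ∀ x i, C ⟨x, i⟩ = ρ (t x) (b (r x) i : V) := by
    intro x i
    show hI.collectedBasis B ⟨x, i⟩ = _
    rw [hI.collectedBasis_coe]
    rfl
  apply Mt.of_basis C (fun y => β (r y.1) y.2)
  rintro g ⟨x, j⟩
  have hk : (t (g • x))⁻¹ * g * t x ∈ MulAction.stabilizer K (r x) := by
    rw [MulAction.mem_stabilizer_iff, mul_smul, ht x, mul_smul, ht', hrg]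
  have aux : ∀ z (hz : z = r x), ∃ i : Fin (m z), β z i = β (r x) j ∧ ∃ c : L, c ^ M = 1 ∧
      ρ ((t (g • x))⁻¹ * g * t x) (b (r x) j : V) - c • (b z i : V) ∈
        Submodule.span L ((fun i => (b z i : V)) '' {i | β z i < β (r x) j}) := by
    rintro _ rfl
    obtain ⟨i, hi, c, hc, h3⟩ := hb (r x) ⟨_, hk⟩ j
    refine ⟨i, hi, c, hc, ?_⟩
    have h4 := Submodule.mem_map_of_mem (f := (A (r x)).subtype) h3
    rw [Submodule.map_span, map_sub, map_smul, Set.image_image] at h4
    exact h4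
  obtain ⟨i, hi, c, hc, h3⟩ := aux (r (g • x)) (hrg g x)
  refine ⟨⟨g • x, i⟩, hi, c, hc, ?_⟩
  have h4 := Submodule.mem_map_of_mem (f := ρ (t (g • x))) h3
  rw [Submodule.map_span, map_sub, map_smul, Set.image_image, ← Module.End.mul_apply,
    ← map_mul, ← mul_assoc, ← mul_assoc, mul_inv_cancel, one_mul, map_mul,
    Module.End.mul_apply] at h4
  rw [hC, hC]
  refine Submodule.span_mono ?_ h4
  rintro _ ⟨k, hk, rfl⟩
  exact ⟨⟨g • x, k⟩, hk, hC _ _⟩

end ind

end Pool.Agent.Y72.Dt
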