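import Pool.Agent.Y72.Dt.Tp2
import Pool.Agent.Y72.Dt.Mt

/-!
# Determinants in conjugate and in block triangular representations
-/

set_option autoImplicit false
set_option linter.unusedSectionVars false

namespace Pool.Agent.Y72.Dt

open Pool.Agent.Y72.Log
open scoped Kronecker

section conj

variable {G : Type*} [Group G] {n : Type*} [Fintype n] [DecidableEq n] {R : Type*} [CommRing R]
  {ι κ : Type*} [Fintype ι] [DecidableEq ι] [Fintype κ] [DecidableEq κ]

lemma lrG_conj (ρ : G →* Matrix ι ι R) (ρ' : G →* Matrix κ κ R) (P : Matrix κ ι R)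
    (Q : Matrix ι κ R) (h : ∀ g, ρ' g = P * ρ g * Q) (x : MonoidAlgebra ℤ G) :
    lrG ρ' x = P * lrG ρ x * Q := by
  induction x using MonoidAlgebra.induction_linear with
  | zero => rw [map_zero, map_zero, Matrix.mul_zero, Matrix.zero_mul]
  | add a b ha hb => rw [map_add, map_add, ha, hb, Matrix.mul_add, Matrix.add_mul]
  | single g a => rw [lrG_single, lrG_single, h, Matrix.mul_smul, Matrix.smul_mul]

/-- conjugate representations -/
theorem DD_conj (ρ : G →* Matrix ι ι R) (ρ' : G →* Matrix κ κ R) (P : Matrix κ ι R)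
    (Q : Matrix ι κ R) (hPQ : P * Q = 1) (hQP : Q * P = 1) (h : ∀ g, ρ' g = P * ρ g * Q)
    (A : Matrix n n (MonoidAlgebra ℤ G)) : DD ρ' A = DD ρ A := by
  unfold DD
  have h1 : blkR (lrG ρ') A = ((1 : Matrix n n R) ⊗ₖ P) * blkR (lrG ρ) A * ((1 : Matrix n n R) ⊗ₖ Q) := by
    ext ⟨a, k⟩ ⟨b, l⟩
    rw [blkR_apply, lrG_conj ρ ρ' P Q h, Matrix.mul_apply, Matrix.mul_apply,
      Fintype.sum_prod_type, Finset.sum_eq_single b]
    · apply Finset.sum_congr rfl
      intro j _
      rw [Matrix.kroneckerMap_apply, Matrix.one_apply_eq, one_mul, Matrix.mul_apply,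
        Matrix.mul_apply, Fintype.sum_prod_type, Finset.sum_eq_single a]
      · congr 1
        apply Finset.sum_congr rfl
        intro i _
        rw [Matrix.kroneckerMap_apply, Matrix.one_apply_eq, one_mul]
        rfl
      · intro a' _ ha'
        apply Finset.sum_eq_zero
        intro i _
        rw [Matrix.kroneckerMap_apply, Matrix.one_apply_ne (Ne.symm ha'), zero_mul, zero_mul]
      · intro hc
        exact absurd (Finset.mem_univ _) hc
    · intro b' _ hb'
      apply Finset.sum_eq_zero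
      intro i _
      rw [Matrix.kroneckerMap_apply, Matrix.one_apply_ne hb', zero_mul, mul_zero]
    · intro hc
      exact absurd (Finset.mem_univ _) hc
  rw [h1]
  apply Matrix.det_conj_of_mul_eq_one
  · rw [← Matrix.mul_kronecker_mul, hPQ, Matrix.one_mul, Matrix.one_kronecker_one]
  · rw [← Matrix.mul_kronecker_mul, hQP, Matrix.one_mul, Matrix.one_kronecker_one]

/-- reindexing a representation -/
def rei (e : ι ≃ κ) (ρ : G →* Matrix ι ι R) : G →* Matrix κ κ R where
  toFun g := (ρ g).submatrix e.symm e.symm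
  map_one' := by rw [map_one, Matrix.submatrix_one_equiv]
  map_mul' g h := by rw [map_mul, Matrix.submatrix_mul_equiv]

lemma rei_apply (e : ι ≃ κ) (ρ : G →* Matrix ι ι R) (g : G) (i j : κ) :
    rei e ρ g i j = ρ g (e.symm i) (e.symm j) := rfl

lemma DD_rei (e : ι ≃ κ) (ρ : G →* Matrix ι ι R) (A : Matrix n n (MonoidAlgebra ℤ G)) :
    DD (rei e ρ) A = DD ρ A := by
  unfold DD
  rw [← Matrix.det_reindex_self (Equiv.prodCongr (Equiv.refl n) e) (blkR (lrG ρ) A)]
  congr 1
  ext x y
  rw [blkR_apply, Matrix.reindex_apply, Matrix.submatrix_apply, blkR_apply, lrG_apply, lrG_apply]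
  rfl

/-- change of rings -/
def chg {S : Type*} [CommRing S] (f : R →+* S) (ρ : G →* Matrix ι ι R) : G →* Matrix ι ι S :=
  (f.mapMatrix.toMonoidHom).comp ρ

lemma chg_apply {S : Type*} [CommRing S] (f : R →+* S) (ρ : G →* Matrix ι ι R) (g : G) (i j : ι) :
    chg f ρ g i j = f (ρ g i j) := rfl

lemma DD_chg {S : Type*} [CommRing S] (f : R →+* S) (ρ : G →* Matrix ι ι R)
    (A : Matrix n n (MonoidAlgebra ℤ G)) : DD (chg f ρ) A = f (DD ρ A) := by
  unfold DD
  rw [RingHom.map_det]
  congr 1
  ext x y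
  rw [blkR_apply, RingHom.mapMatrix_apply, Matrix.map_apply, blkR_apply, lrG_apply, lrG_apply,
    map_finsuppSum]
  simp only [map_mul, map_intCast]
  rfl

end conj

section tri

variable {G : Type*} [Group G] {n : Type*} [Fintype n] [DecidableEq n] {R : Type*} [CommRing R]
  {ι : Type*} [Fintype ι] [DecidableEq ι]

/-- the diagonal blocks of a block triangular representation -/
def dgb (ρ : G →* Matrix ι ι R) (β : ι → ℕ) (hβ : ∀ g, (ρ g).BlockTriangular β) (k : ℕ) :
    G →* Matrix {i // β i = k} {i // β i = k} R where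
  toFun g := (ρ g).toSquareBlock β k
  map_one' := by
    rw [map_one, Matrix.toSquareBlock_def]
    ext i j
    rw [Matrix.of_apply, Matrix.one_apply, Matrix.one_apply]
    by_cases h : i = j
    · rw [if_pos h, if_pos (congrArg _ h)]
    · rw [if_neg h, if_neg (fun hc => h (Subtype.ext hc))]
  map_mul' g h := by
    rw [map_mul, Matrix.toSquareBlock_def, Matrix.toSquareBlock_def, Matrix.toSquareBlock_def]
    ext i j
    rw [Matrix.of_apply, Matrix.mul_apply, Matrix.mul_apply]
    simp only [Matrix.of_apply]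
    refine Eq.trans ?_ (Finset.sum_subtype (p := fun l => β l = k)
      (Finset.univ.filter fun l => β l = k) (by intro x; simp) (fun l => ρ g i.1 l * ρ h l j.1))
    rw [Finset.sum_filter]
    apply Finset.sum_congr rfl
    intro l _
    split_ifs with hl
    · rfl
    · rcases Nat.lt_or_gt_of_ne hl with h1 | h1
      · rw [hβ g (by rw [i.2]; exact h1), zero_mul]
      · rw [hβ h (by rw [j.2]; exact h1), mul_zero]

lemma dgb_apply (ρ : G →* Matrix ι ι R) (β : ι → ℕ) (hβ : ∀ g, (ρ g).BlockTriangular β) (k : ℕ)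
    (g : G) (i j : {i // β i = k}) : dgb ρ β hβ k g i j = ρ g i.1 j.1 := rfl

/-- **Determinants in block triangular representations** -/
theorem DD_tri (ρ : G →* Matrix ι ι R) (β : ι → ℕ) (hβ : ∀ g, (ρ g).BlockTriangular β)
    (A : Matrix n n (MonoidAlgebra ℤ G)) :
    DD ρ A = ∏ k ∈ (Finset.univ : Finset (n × ι)).image (fun x => β x.2), DD (dgb ρ β hβ k) A := by
  unfold DD
  have h1 : (blkR (lrG ρ) A).BlockTriangular (fun x => β x.2) := by
    intro x y hxy
    rw [blkR_apply, lrG_apply, Finsupp.sum]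
    apply Finset.sum_eq_zero
    intro g _
    rw [hβ g hxy, mul_zero]
  rw [h1.det]
  apply Finset.prod_congr rfl
  intro k _
  let e : n × {i // β i = k} ≃ {x : n × ι // β x.2 = k} :=
    { toFun := fun x => ⟨(x.1, x.2.1), x.2.2⟩
      invFun := fun x => (x.1.1, ⟨x.1.2, x.2⟩)
      left_inv := fun x => rfl
      right_inv := fun x => rfl }
  rw [← Matrix.det_reindex_self e]
  congr 1
  ext x y
  rw [Matrix.toSquareBlock_def, Matrix.of_apply, Matrix.reindex_apply, Matrix.submatrix_apply,
    blkR_apply, blkR_apply, lrG_apply, lrG_apply]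
  rfl

end tri

end Pool.Agent.Y72.Dt
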