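import Pool.Agent.Y72.Dt.Mon

/-!
# All representations of a finite group over algebraically closed fields
-/

set_option autoImplicit false
set_option linter.unusedSectionVars false

namespace Pool.Agent.Y72.Dt

open Pool.Agent.Y72.Log Module MulAction
open scoped Kronecker

section sums

universe u

variable {G : Type u} [Group G] {n : Type*} [Fintype n] [DecidableEq n] {R : Type*} [CommRing R]
  {ι : Type*} [Fintype ι] [DecidableEq ι]

/-- disjoint unions -/
lemma DD_tns_sum (X Y : Type*) [Fintype X] [DecidableEq X] [MulAction G X] [Fintype Y]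
    [DecidableEq Y] [DecidableEq (X ⊕ Y)] [MulAction G Y] (ρ : G →* Matrix ι ι R) (A : Matrix n n (MonoidAlgebra ℤ G)) :
    DD (tns (X ⊕ Y) ρ) A = DD (tns X ρ) A * DD (tns Y ρ) A := by
  unfold DD
  let e : n × (ι × (X ⊕ Y)) ≃ (n × (ι × X)) ⊕ (n × (ι × Y)) :=
    { toFun := fun x => match x with
        | (a, (i, Sum.inl y)) => Sum.inl (a, (i, y))
        | (a, (i, Sum.inr y)) => Sum.inr (a, (i, y))
      invFun := fun x => match x with
        | Sum.inl (a, (i, y)) => (a, (i, Sum.inl y))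
        | Sum.inr (a, (i, y)) => (a, (i, Sum.inr y))
      left_inv := by rintro ⟨a, i, y | y⟩ <;> rfl
      right_inv := by rintro (⟨a, i, y⟩ | ⟨a, i, y⟩) <;> rfl }
  rw [← Matrix.det_reindex_self e, ← Matrix.det_fromBlocks_zero₂₁ _ 0]
  congr 1
  ext x y
  rw [Matrix.reindex_apply, Matrix.submatrix_apply, blkR_apply, lrG_apply]
  rcases x with ⟨a, i, x⟩ | ⟨a, i, x⟩ <;> rcases y with ⟨b, j, y⟩ | ⟨b, j, y⟩
  · rw [Matrix.fromBlocks_apply₁₁, blkR_apply, lrG_apply]
    apply Finsupp.sum_congr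
    intro g _
    rw [tns_apply, tns_apply]
    show _ * (_ * (if (Sum.inl x : X ⊕ Y) = Sum.inl (g • y) then 1 else 0)) = _
    simp only [Sum.inl.injEq]
    rfl
  · rw [Matrix.fromBlocks_apply₁₂, Matrix.zero_apply, Finsupp.sum]
    apply Finset.sum_eq_zero
    intro g _
    rw [tns_apply]
    show _ * (_ * (if (Sum.inl x : X ⊕ Y) = Sum.inr (g • y) then 1 else 0)) = _
    rw [if_neg Sum.inl_ne_inr, mul_zero, mul_zero]
  · rw [Matrix.fromBlocks_apply₂₁, Matrix.zero_apply, Finsupp.sum]
    apply Finset.sum_eq_zero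
    intro g _
    rw [tns_apply]
    show _ * (_ * (if (Sum.inr x : X ⊕ Y) = Sum.inl (g • y) then 1 else 0)) = _
    rw [if_neg Sum.inr_ne_inl, mul_zero, mul_zero]
  · rw [Matrix.fromBlocks_apply₂₂, blkR_apply, lrG_apply]
    apply Finsupp.sum_congr
    intro g _
    rw [tns_apply, tns_apply]
    show _ * (_ * (if (Sum.inr x : X ⊕ Y) = Sum.inr (g • y) then 1 else 0)) = _
    simp only [Sum.inr.injEq]
    rfl

/-- the trivial action on a point -/
@[reducible] def ptAct (G : Type u) [Group G] : MulAction G PUnit.{u+1} where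
  smul _ x := x
  one_smul _ := rfl
  mul_smul _ _ _ := rfl

attribute [local instance] ptAct

lemma DD_tns_pt (ρ : G →* Matrix ι ι R) (A : Matrix n n (MonoidAlgebra ℤ G))
    [DecidableEq PUnit.{u+1}] : DD (tns PUnit.{u+1} ρ) A = DD ρ A := by
  rw [← DD_rei (Equiv.prodPUnit ι) (tns PUnit.{u+1} ρ)]
  congr 1
  ext g i j
  rw [rei_apply, tns_apply, if_pos rfl, mul_one]
  rfl

open scoped Classical in
/-- permutation characters differing by a constant -/
lemma DD_tns_shift [Finite G] (ρ : G →* Matrix ι ι R) (A : Matrix n n (MonoidAlgebra ℤ G)) (m : ℕ) :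
    ∀ (X Y : Type u) [Fintype X] [Fintype Y] [MulAction G X] [MulAction G Y],
      (∀ g : G, Nat.card (fixedBy X g) = m + Nat.card (fixedBy Y g)) →
      DD (tns X ρ) A = DD ρ A ^ m * DD (tns Y ρ) A := by
  cases nonempty_fintype G
  induction m with
  | zero =>
    intro X Y _ _ _ _ h
    rw [pow_zero, one_mul]
    exact DD_tns_eq X Y ρ A (fun g => by rw [h, zero_add])
  | succ m ih =>
    intro X Y _ _ _ _ h
    let _ := ptAct G
    rw [ih X (PUnit.{u+1} ⊕ Y) (by
      intro g
      rw [h, card_fix_sum]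
      have : Nat.card (fixedBy PUnit.{u+1} g) = 1 := by
        rw [Nat.card_eq_one_iff_unique]
        exact ⟨inferInstance, ⟨⟨PUnit.unit, rfl⟩⟩⟩
      rw [this]
      ring), DD_tns_sum, DD_tns_pt, pow_succ]
    ring

end sums

section perm

universe u v

variable {G : Type u} [Group G] [Finite G] {L : Type v} [Field L] [IsAlgClosed L] {n : Type}
  [Fintype n] [DecidableEq n] {A : Matrix n n (MonoidAlgebra ℤ G)} {ι : Type} [Fintype ι]
  [DecidableEq ι]

/-- functions supported over a point -/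
def spt (L : Type v) [Field L] (ι : Type) {X : Type*} (x : X) : Submodule L (ι × X → L) where
  carrier := {f | ∀ i y, y ≠ x → f (i, y) = 0}
  zero_mem' := fun _ _ _ => rfl
  add_mem' := fun {f g} hf hg i y hy => by rw [Pi.add_apply, hf i y hy, hg i y hy, add_zero]
  smul_mem' := fun c f hf i y hy => by rw [Pi.smul_apply, hf i y hy, smul_zero]

lemma mem_spt {X : Type*} (x : X) (f : ι × X → L) :
    f ∈ spt L ι x ↔ ∀ i y, y ≠ x → f (i, y) = 0 := Iff.rfl

lemma spt_indep {X : Type*} : iSupIndep (fun x : X => spt L ι x) := by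
  intro x
  rw [Submodule.disjoint_def]
  intro f hf hf'
  let Kx : Submodule L (ι × X → L) :=
    { carrier := {f | ∀ i, f (i, x) = 0}
      zero_mem' := fun _ => rfl
      add_mem' := fun {f g} hf hg i => by rw [Pi.add_apply, hf i, hg i, add_zero]
      smul_mem' := fun c f hf i => by rw [Pi.smul_apply, hf i, smul_zero] }
  have h1 : (⨆ (j) (_ : j ≠ x), spt L ι j) ≤ Kx := by
    apply iSup_le
    intro y
    apply iSup_le
    intro hy g hg i
    exact hg i x (Ne.symm hy)
  have h2 := h1 hf'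
  funext ⟨i, y⟩
  by_cases hy : y = x
  · rw [hy]
    exact h2 i
  · exact hf i y hy

lemma spt_sup {X : Type*} [Finite X] : (⨆ x : X, spt L ι x) = ⊤ := by
  classical
  cases nonempty_fintype X
  rw [eq_top_iff]
  intro f _
  have h1 : f = ∑ x : X, fun y : ι × X => if y.2 = x then f y else 0 := by
    funext y
    rw [Finset.sum_apply, Finset.sum_ite_eq, if_pos (Finset.mem_univ _)]
  rw [h1]
  apply Submodule.sum_mem
  intro x _
  apply Submodule.mem_iSup_of_mem x
  intro i y hy
  exact if_neg hy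

open scoped Classical in
/-- **induced representations from the class `Ep`** -/
theorem tns_Mt {p : ℕ} [Fact p.Prime] (X : Type u) [Fintype X] [MulAction G X]
    (hX : ∀ x : X, Ep p (stabilizer G x)) (ρ : G →* Matrix ι ι L) :
    Mt (Nat.card G) (toEnd (tns X ρ)) := by
  refine Mt.ind (X := X) (toEnd (tns X ρ)) (fun x => spt L ι x)
    (DirectSum.isInternal_submodule_of_iSupIndep_of_iSup_eq_top spt_indep spt_sup) ?_ ?_
  · intro g x f hf i y hy
    rw [toEnd_apply, Matrix.toLin'_apply, Matrix.mulVec, dotProduct]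
    apply Finset.sum_eq_zero
    rintro ⟨j, z⟩ _
    by_cases hz : z = x
    · rw [tns_apply, hz, if_neg hy, mul_zero, zero_mul]
    · rw [hf j z hz, mul_zero]
  · intro x
    exact mt_main _ _ (hX x) (fun g => Subtype.ext (pow_card_eq_one' (x := g.1))) _ rfl _

open scoped Classical in
/-- **All representations of a finite group over an algebraically closed field** -/
theorem fin_main (hA : TorOK.{u, v} A) (ρ : G →* Matrix ι ι L) : DD ρ A = 1 ∨ DD ρ A = -1 := by
  have key : ∀ p : ℕ, p.Prime → ∃ m : ℕ, ¬ p ∣ m ∧ (DD ρ A ^ 2) ^ m = 1 := by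
    intro p hp
    have : Fact p.Prime := ⟨hp⟩
    have : NeZero (Nat.card G) := ⟨Nat.card_pos.ne'⟩
    obtain ⟨m, X, Y, i1, i2, i3, i4, hm, hX, hY, h⟩ := solomon (G := G) (p := p)
    cases nonempty_fintype X
    cases nonempty_fintype Y
    have h1 := DD_tns_shift ρ A m X Y h
    have h2 := DD_Mt hA (tns X ρ) (tns_Mt X hX ρ)
    have h3 := DD_Mt hA (tns Y ρ) (tns_Mt Y hY ρ)
    refine ⟨m, hm, ?_⟩
    have h4 : (DD (tns X ρ) A) ^ 2 = 1 := by
      rcases h2 with h | h <;> rw [h] <;> ring
    have h5 : (DD (tns Y ρ) A) ^ 2 = 1 := by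
      rcases h3 with h | h <;> rw [h] <;> ring
    rw [h1, mul_pow, h5, mul_one, ← pow_mul, mul_comm, pow_mul] at h4
    exact h4
  have h1 : DD ρ A ^ 2 = 1 := by
    have h2 : orderOf (DD ρ A ^ 2) = 1 := by
      by_contra hne
      obtain ⟨p, hp, hpo⟩ := Nat.exists_prime_and_dvd hne
      obtain ⟨m, hm, h3⟩ := key p hp
      exact hm (hpo.trans (orderOf_dvd_of_pow_eq_one h3))
    exact orderOf_eq_one_iff.1 h2
  exact sq_eq_one_iff.1 h1

end perm

end Pool.Agent.Y72.Dt
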