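import Pool.Agent.H219.Wh.Lett
import Pool.Agent.Y72.Log.Fibre

/-!
# The Frobenius relation, modulo `p ^ (i + 1)`, for all primes and with the diagonal term

The matrices are only inverse to each other modulo `q = p ^ (2 * (i + 1))`, which allows to choose
letters with coefficients `0` and `1`, so that the prime `2` is included.
-/

set_option autoImplicit false
set_option linter.unusedSectionVars false
set_option linter.unusedFintypeInType false
set_option linter.unusedDecidableInType false

namespace Pool.Agent.Y72.Dt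

open Finset H219.Wh Pool.Agent.Y72.Log
open Pool.Agent.H23R2 hiding t0 Dsum wt_shift Gf swpi_shift swpi_swp swp_swpi wt_swp wt swp swpi
  la lb sum_wt_pi inner_sum sum_wt_fibre sum_wt_head total_sum W_t0 T U V Y
open scoped Classical

/-- `A` and `B` are inverse to each other modulo `q` -/
structure IPm (q : ℕ) {I S : Type*} [Fintype I] [Fintype S] {Γ : Type*} [Group Γ] (gr : S → Γ)
    (A B : I → I → S → ℤ) : Prop where
  ab : ∀ i i' g, ((∑ j, ∑ a, ∑ b, (if gr a * gr b = g then A i j a * B j i' b else 0) : ℤ) :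
    ZMod q) = ((if i = i' ∧ g = 1 then 1 else 0 : ℤ) : ZMod q)
  ba : ∀ i i' g, ((∑ j, ∑ a, ∑ b, (if gr a * gr b = g then B i j a * A j i' b else 0) : ℤ) :
    ZMod q) = ((if i = i' ∧ g = 1 then 1 else 0 : ℤ) : ZMod q)

lemma IPm.symm {q : ℕ} {I S : Type*} [Fintype I] [Fintype S] {Γ : Type*} [Group Γ] {gr : S → Γ}
    {A B : I → I → S → ℤ} (h : IPm q gr A B) : IPm q gr B A := ⟨h.ba, h.ab⟩

lemma zsmul_congr {q : ℕ} {M : Type*} [AddCommGroup M] (hM : ∀ x : M, q • x = 0) {a b : ℤ}
    (h : (a : ZMod q) = (b : ZMod q)) (x : M) : a • x = b • x := by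
  rw [ZMod.intCast_eq_intCast_iff_dvd_sub] at h
  obtain ⟨c, hc⟩ := h
  have h1 : b = a + q * c := by rw [← hc]; ring
  rw [h1, add_smul, mul_comm, mul_smul, natCast_zsmul, hM, smul_zero, add_zero]

section

variable {q : ℕ} {I S : Type*} [Fintype I] [Fintype S] {Γ : Type*} [Group Γ] {gr : S → Γ}
  {A B : I → I → S → ℤ} {N : ℕ} [NeZero N]

lemma inner_sum (h : IPm q gr A B) (t : I × Γ) (i' : I) :
    ((∑ y : Yy I S with (y.1, gr y.2.2.1 * gr y.2.2.2) = t,
      A y.1 y.2.1 y.2.2.1 * B y.2.1 i' y.2.2.2 : ℤ) : ZMod q) =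
      ((if t.1 = i' ∧ t.2 = 1 then 1 else 0 : ℤ) : ZMod q) := by
  rw [← h.ab t.1 i' t.2, Finset.sum_filter]
  congr 1
  rw [Fintype.sum_prod_type]
  rw [Finset.sum_eq_single t.1]
  · rw [Fintype.sum_prod_type]
    apply Finset.sum_congr rfl
    intro j _
    rw [Fintype.sum_prod_type]
    apply Finset.sum_congr rfl
    intro a _
    apply Finset.sum_congr rfl
    intro b _
    simp only [Prod.ext_iff, true_and]
  · intro i _ hi
    apply Finset.sum_eq_zero
    intro y _
    rw [if_neg]
    intro hh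
    exact hi (congrArg Prod.fst hh)
  · intro hh
    exact absurd (Finset.mem_univ _) hh

/-- sum of weights over the fibre of `T` -/
lemma sum_wt_fibre (h : IPm q gr A B) (t : ZMod N → I × Γ) :
    ((∑ o : ZMod N → Yy I S with TT gr o = t, wt A B o : ℤ) : ZMod q) = ((cN t : ℤ) : ZMod q) := by
  have h1 := sum_wt_pi (A := A) (B := B) t
    (fun k => Finset.univ.filter (fun y : Yy I S => (y.1, gr y.2.2.1 * gr y.2.2.2) = t k))
    (by intro k y hy; simp only [Finset.mem_filter, Finset.mem_univ, true_and] at hy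
        rw [← hy])
  have h2 : (Finset.univ : Finset (ZMod N → Yy I S)).filter (fun o => TT gr o = t) =
      Fintype.piFinset (fun k => Finset.univ.filter (fun y : Yy I S =>
        (y.1, gr y.2.2.1 * gr y.2.2.2) = t k)) := by
    ext o
    simp only [Finset.mem_filter, Finset.mem_univ, true_and, Fintype.mem_piFinset]
    constructor
    · intro ho k
      rw [← ho]; rfl
    · intro ho
      funext k
      exact ho k
  rw [h2, h1]
  unfold cN
  rw [Int.cast_prod, Int.cast_prod]
  apply Finset.prod_congr rfl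
  intro k _
  exact inner_sum h _ _

lemma sum_wt_head (h : IPm q gr A B) (y : Yy I S)
    (t : ZMod N → I × Γ) (hty : t 0 = (y.1, gr y.2.2.1 * gr y.2.2.2)) :
    ((∑ o : ZMod N → Yy I S with (o 0 = y ∧ TT gr o = t), wt A B o : ℤ) : ZMod q) =
      ((if t = t0 gr y then A y.1 y.2.1 y.2.2.1 * B y.2.1 y.1 y.2.2.2 else 0 : ℤ) : ZMod q) := by
  have h1 := sum_wt_pi (A := A) (B := B) t
    (fun k => if k = 0 then {y} else
      Finset.univ.filter (fun y : Yy I S => (y.1, gr y.2.2.1 * gr y.2.2.2) = t k))
    (by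
      intro k z hz
      by_cases hk : k = 0
      · subst hk
        simp only [if_true, Finset.mem_singleton] at hz
        rw [hz, hty]
      · simp only [if_neg hk, Finset.mem_filter, Finset.mem_univ, true_and] at hz
        rw [← hz])
  have h2 : Finset.univ.filter (fun o : ZMod N → Yy I S => o 0 = y ∧ TT gr o = t) =
      Fintype.piFinset (fun k => if k = 0 then {y} else
      Finset.univ.filter (fun y : Yy I S => (y.1, gr y.2.2.1 * gr y.2.2.2) = t k)) := by
    ext o
    simp only [Finset.mem_filter, Finset.mem_univ, true_and, Fintype.mem_piFinset]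
    constructor
    · rintro ⟨h0, ho⟩ k
      by_cases hk : k = 0
      · subst hk; simp [h0]
      · rw [if_neg hk]
        simp only [Finset.mem_filter, Finset.mem_univ, true_and]
        rw [← ho]; rfl
    · intro ho
      have h0 : o 0 = y := by simpa using ho 0
      refine ⟨h0, ?_⟩
      funext k
      by_cases hk : k = 0
      · subst hk
        rw [hty, ← h0]; rfl
      · have := ho k
        rw [if_neg hk] at this
        simp only [Finset.mem_filter, Finset.mem_univ, true_and] at this
        exact this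
  rw [h2, h1, Int.cast_prod]
  have h3 : ∀ k : ZMod N, ((∑ z ∈ (if k = 0 then ({y} : Finset (Yy I S)) else
      Finset.univ.filter (fun y : Yy I S => (y.1, gr y.2.2.1 * gr y.2.2.2) = t k)),
      A z.1 z.2.1 z.2.2.1 * B z.2.1 (t (k + 1)).1 z.2.2.2 : ℤ) : ZMod q) =
      if k = 0 then ((A y.1 y.2.1 y.2.2.1 * B y.2.1 (t 1).1 y.2.2.2 : ℤ) : ZMod q) else
        (if (t k).1 = (t (k + 1)).1 ∧ (t k).2 = 1 then 1 else 0) := by
    intro k
    by_cases hk : k = 0
    · subst hk; simp
    · rw [if_neg hk, if_neg hk, inner_sum h]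
      split_ifs
      · exact Int.cast_one
      · exact Int.cast_zero
  simp_rw [h3]
  by_cases ht : t = t0 gr y
  · rw [if_pos ht, Finset.prod_eq_single 0]
    · rw [if_pos rfl]
      have : (t 1).1 = y.1 := by
        rw [ht]; unfold t0; split_ifs <;> rfl
      rw [this]
    · intro k _ hk
      rw [if_neg hk, if_pos]
      have e1 : (t (k + 1)).1 = y.1 := by
        rw [ht]; unfold t0; split_ifs <;> rfl
      have e2 : t k = (y.1, 1) := by
        rw [ht]; unfold t0; rw [if_neg hk]
      rw [e1, e2]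
      exact ⟨rfl, rfl⟩
    · intro hh; exact absurd (Finset.mem_univ _) hh
  · rw [if_neg ht, Int.cast_zero]
    by_contra hne
    apply ht
    have hall : ∀ k : ZMod N, k ≠ 0 → ((t k).1 = (t (k + 1)).1 ∧ (t k).2 = 1) := by
      intro k hk
      by_contra hc
      apply hne
      apply Finset.prod_eq_zero (Finset.mem_univ k)
      rw [if_neg hk, if_neg hc]
    have hfst : ∀ n : ℕ, n < N → (t (-(n : ZMod N))).1 = (t 0).1 := by
      intro n
      induction n with
      | zero => intro _; simp
      | succ n ih =>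
        intro hn
        rw [← ih (by omega)]
        have hk : (-((n + 1 : ℕ) : ZMod N)) ≠ 0 := by
          rw [neg_ne_zero]
          intro hc
          rw [ZMod.natCast_eq_zero_iff] at hc
          exact absurd (Nat.le_of_dvd (by omega) hc) (by omega)
        rw [(hall _ hk).1]
        congr 2
        push_cast; ring
    funext k
    unfold t0
    by_cases hk : k = 0
    · subst hk; rw [if_pos rfl, hty]
    · rw [if_neg hk]
      have e := hfst (-k).val (ZMod.val_lt _)
      rw [ZMod.natCast_zmod_val, neg_neg, hty] at e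
      exact Prod.ext e (hall k hk).2

variable {M : Type*} [AddCommGroup M]

lemma total_sum (h : IPm q gr A B) (hM : ∀ x : M, q • x = 0) (F : Γ → Γ → M) :
    ∑ o : ZMod N → Yy I S, wt A B o • Gf gr F o = Dsum gr A B F := by
  unfold Dsum
  rw [← Finset.sum_fiberwise (s := Finset.univ) (g := fun o : ZMod N → Yy I S => o 0)]
  apply Finset.sum_congr rfl
  intro y _
  set s : Finset (ZMod N → Yy I S) := Finset.univ.filter (fun o => o 0 = y) with hs
  set tt : Finset (ZMod N → I × Γ) := insert (t0 gr y) (s.image (TT gr)) with htt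
  rw [← Finset.sum_fiberwise_of_maps_to (s := s) (t := tt) (g := TT gr)
    (fun o ho => Finset.mem_insert_of_mem (Finset.mem_image_of_mem _ ho))]
  have key : ∀ t ∈ tt, ∑ o ∈ s with TT gr o = t, wt A B o • Gf gr F o =
      (if t = t0 gr y then A y.1 y.2.1 y.2.2.1 * B y.2.1 y.1 y.2.2.2 else 0) •
        F (W (fun k => (t k).2) 0) (gr y.2.2.1) := by
    intro t ht
    have hty : t 0 = (y.1, gr y.2.2.1 * gr y.2.2.2) := by
      rw [htt, Finset.mem_insert] at ht
      rcases ht with ht | ht
      · rw [ht]; simp [t0]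
      · rw [Finset.mem_image] at ht
        obtain ⟨o, ho, rfl⟩ := ht
        rw [hs, Finset.mem_filter] at ho
        rw [← ho.2]; rfl
    rw [← zsmul_congr hM (sum_wt_head h y t hty), Finset.sum_smul]
    rw [hs, Finset.filter_filter]
    apply Finset.sum_congr rfl
    intro o ho
    rw [Finset.mem_filter] at ho
    obtain ⟨_, h0, hT⟩ := ho
    congr 1
    unfold Gf
    rw [← hT]
    congr 1
    simp [la, h0]
  rw [Finset.sum_congr rfl key]
  rw [Finset.sum_eq_single_of_mem (t0 gr y) (Finset.mem_insert_self _ _)]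
  · rw [if_pos rfl, W_t0]
  · intro t _ ht
    rw [if_neg ht, zero_smul]

end

section main

variable {I S : Type*} [Fintype I] [Fintype S] {Γ : Type*} [Group Γ] {gr : S → Γ}
  {A B : I → I → S → ℤ} {p i : ℕ} [hp : Fact p.Prime] {M : Type*} [AddCommGroup M]

/-- the rotation-free words in a fibre contribute zero -/
lemma fibre_Fr {q : ℕ} (h : IPm q gr A B) (hA : ∀ i j a, A i j a ^ p = A i j a)
    (hB : ∀ i j a, B i j a ^ p = B i j a) (t : ZMod (p ^ (i + 1)) → I × Γ) :
    ((∑ o : ZMod (p ^ (i + 1)) → Yy I S with (Fr o ∧ TT gr o = t), wt A B o : ℤ) : ZMod q) = 0 := by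
  have h1 := sum_wt_fibre h t
  have h2 : ∑ o : ZMod (p ^ (i + 1)) → Yy I S with TT gr o = t, wt A B o =
      ∑ o : ZMod (p ^ (i + 1)) → Yy I S with (Fr o ∧ TT gr o = t), wt A B o +
      ∑ o : ZMod (p ^ (i + 1)) → Yy I S with ¬ Fr o, (if TT gr o = t then wt A B o else 0) := by
    rw [← Finset.sum_filter_add_sum_filter_not (s := Finset.univ.filter
      (fun o : ZMod (p ^ (i + 1)) → Yy I S => TT gr o = t)) (p := fun o => Fr o)]
    congr 1
    · rw [Finset.filter_filter]
      apply Finset.sum_congr _ (fun _ _ => rfl)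
      ext o
      simp [and_comm]
    · rw [Finset.filter_filter, ← Finset.sum_filter, Finset.filter_filter]
      apply Finset.sum_congr _ (fun _ _ => rfl)
      ext o
      simp [and_comm]
  have h3 : ((∑ o : ZMod (p ^ (i + 1)) → Yy I S with ¬ Fr o,
      (if TT gr o = t then wt A B o else 0) : ℤ) : ZMod q) = ((cN t : ℤ) : ZMod q) := by
    rw [sum_periodic]
    by_cases ht : ∃ t', pull t' = t
    · obtain ⟨t', rfl⟩ := ht
      rw [cN_pull, ← sum_wt_fibre h t', Finset.sum_filter]
      congr 1
      apply Finset.sum_congr rfl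
      intro o _
      rw [wt_pull hA hB, TT_pull]
      by_cases ho : TT gr o = t'
      · rw [if_pos ho, if_pos (by rw [ho])]
      · rw [if_neg ho, if_neg (fun hh => ho (pull_inj hh))]
    · have h4 : cN t = 0 := by
        by_contra hc
        apply ht
        refine ⟨fun _ => t 0, ?_⟩
        funext k
        exact (const_of_cN t hc k).symm
      rw [h4]
      congr 1
      apply Finset.sum_eq_zero
      intro o _
      rw [if_neg]
      intro hh
      exact ht ⟨TT gr o, (TT_pull o).symm.trans hh⟩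
  rw [h2, Int.cast_add, h3] at h1
  exact add_eq_right.1 h1

/-- the sum over orbits of a rotation invariant function of the target sequence vanishes -/
lemma sum_inv {q : ℕ} (hq : p ^ (2 * (i + 1)) ∣ q) (h : IPm q gr A B)
    (hA : ∀ i j a, A i j a ^ p = A i j a) (hB : ∀ i j a, B i j a ^ p = B i j a)
    (hM : ∀ x : M, (p ^ (i + 1)) • x = 0)
    (l : (ZMod (p ^ (i + 1)) → Yy I S) → ZMod (p ^ (i + 1)))
    (hl : ∀ o, Fr o → ∀ c, l (shift c o) = l o + c)
    (ψ : (ZMod (p ^ (i + 1)) → I × Γ) → M) (hψ : ∀ c t, ψ (shift c t) = ψ t) :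
    ∑ o with (Fr o ∧ l o = 0), wt A B o • ψ (TT gr o) = 0 := by
  let r := rotSetoid (p ^ (i + 1)) (I × Γ)
  let π : (ZMod (p ^ (i + 1)) → I × Γ) → Quotient r := Quotient.mk r
  have hπ : ∀ c t, π (shift c t) = π t := fun c t =>
    (Quotient.sound (s := r) ⟨c, rfl⟩).symm
  set s : Finset (ZMod (p ^ (i + 1)) → Yy I S) :=
    Finset.univ.filter (fun o => Fr o ∧ l o = 0) with hs
  rw [← Finset.sum_fiberwise_of_maps_to (s := s) (t := s.image (fun o => π (TT gr o)))
    (g := fun o => π (TT gr o)) (fun o ho => Finset.mem_image_of_mem _ ho)]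
  apply Finset.sum_eq_zero
  intro q' _
  have hn : ((p ^ (i + 1) : ℕ) : ℤ) ∣ ∑ o ∈ s with π (TT gr o) = q', wt A B o := by
    have h1 := sum_orbit' (N := p ^ (i + 1)) (M := ℤ)
      (fun o : ZMod (p ^ (i + 1)) → Yy I S => Fr o ∧ π (TT gr o) = q')
      (fun o ho c => ⟨Fr_shift ho.1 c, by rw [TT_shift, hπ]; exact ho.2⟩) l
      (fun o ho c => hl o ho.1 c) (fun o => wt A B o)
    simp_rw [wt_shift, Finset.sum_const, Finset.card_univ, ZMod.card] at h1
    rw [← Finset.smul_sum] at h1
    have h2 : ((∑ o : ZMod (p ^ (i + 1)) → Yy I S with (Fr o ∧ π (TT gr o) = q'), wt A B o : ℤ) :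
        ZMod q) = 0 := by
      set s' := Finset.univ.filter
        (fun o : ZMod (p ^ (i + 1)) → Yy I S => Fr o ∧ π (TT gr o) = q') with hs'
      rw [← Finset.sum_fiberwise_of_maps_to (s := s') (t := s'.image (TT gr)) (g := TT gr)
        (fun o ho => Finset.mem_image_of_mem _ ho), Int.cast_sum]
      apply Finset.sum_eq_zero
      intro t ht
      rw [Finset.mem_image] at ht
      obtain ⟨o', ho', rfl⟩ := ht
      rw [hs', Finset.mem_filter] at ho'
      rw [← fibre_Fr h hA hB (TT gr o')]
      rw [hs', Finset.filter_filter]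
      congr 1
      apply Finset.sum_congr _ (fun _ _ => rfl)
      ext o
      simp only [Finset.mem_filter, Finset.mem_univ, true_and]
      constructor
      · rintro ⟨⟨h3, _⟩, h4⟩
        exact ⟨h3, h4⟩
      · rintro ⟨h3, h4⟩
        refine ⟨⟨h3, ?_⟩, h4⟩
        rw [h4]
        exact ho'.2.2
    have h3 : ∑ o ∈ s with π (TT gr o) = q', wt A B o =
        ∑ o : ZMod (p ^ (i + 1)) → Yy I S with ((Fr o ∧ π (TT gr o) = q') ∧ l o = 0),
          wt A B o := by
      rw [hs, Finset.filter_filter]
      apply Finset.sum_congr _ (fun _ _ => rfl)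
      ext o
      simp only [Finset.mem_filter, Finset.mem_univ, true_and]
      tauto
    have h4 : ∑ o : ZMod (p ^ (i + 1)) → Yy I S with (Fr o ∧ π (TT gr o) = q'), wt A B o =
        (p ^ (i + 1)) • ∑ o : ZMod (p ^ (i + 1)) → Yy I S with
          ((Fr o ∧ π (TT gr o) = q') ∧ l o = 0), wt A B o := by
      refine Eq.trans ?_ (h1.trans ?_)
      · apply Finset.sum_congr _ (fun _ _ => rfl)
        ext o
        simp
      · congr 1
        apply Finset.sum_congr _ (fun _ _ => rfl)
        ext o
        simp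
    rw [h3]
    rw [h4] at h2
    rw [ZMod.intCast_zmod_eq_zero_iff_dvd] at h2
    have h5 : ((p ^ (i + 1) : ℕ) : ℤ) * ((p ^ (i + 1) : ℕ) : ℤ) ∣ ((p ^ (i + 1) : ℕ) : ℤ) *
        ∑ o : ZMod (p ^ (i + 1)) → Yy I S with
          ((Fr o ∧ π (TT gr o) = q') ∧ l o = 0), wt A B o := by
      rw [nsmul_eq_mul] at h2
      refine dvd_trans ?_ h2
      have h6 : p ^ (i + 1) * p ^ (i + 1) ∣ q := by
        rw [← pow_add, ← two_mul]
        exact hq
      exact_mod_cast h6
    exact (mul_dvd_mul_iff_left (by exact_mod_cast (pow_pos hp.out.pos _).ne')).1 h5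
  have h5 : ∀ o ∈ s.filter (fun o => π (TT gr o) = q'), wt A B o • ψ (TT gr o) =
      wt A B o • ψ (Quotient.out q') := by
    intro o ho
    rw [Finset.mem_filter] at ho
    congr 1
    have h6 : π (Quotient.out q') = π (TT gr o) := by
      rw [ho.2]; exact Quotient.out_eq q'
    obtain ⟨c, hc⟩ := (Quotient.exact h6 : r.r _ _)
    rw [hc, hψ]
  rw [Finset.sum_congr rfl h5, ← Finset.sum_smul]
  obtain ⟨z, hz⟩ := hn
  rw [hz, mul_comm, mul_smul, natCast_zsmul, hM, smul_zero]

/-- the representative of a rotation class -/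
noncomputable def rp {N : ℕ} {X : Type*} (g : ZMod N → X) : ZMod N → X :=
  Quotient.out (Quotient.mk (rotSetoid N X) g)

lemma rp_shift {N : ℕ} {X : Type*} (c : ZMod N) (g : ZMod N → X) : rp (shift c g) = rp g := by
  unfold rp
  congr 1
  exact (Quotient.sound (s := rotSetoid N X) ⟨c, rfl⟩).symm

lemma exists_kp {N : ℕ} {X : Type*} (g : ZMod N → X) : ∃ c, g = shift c (rp g) := by
  have h := Quotient.out_eq (Quotient.mk (rotSetoid N X) g)
  exact Quotient.exact h

/-- the position relative to the representative -/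
noncomputable def kp {N : ℕ} {X : Type*} (g : ZMod N → X) : ZMod N := (exists_kp g).choose

lemma kp_spec {N : ℕ} {X : Type*} (g : ZMod N → X) : g = shift (kp g) (rp g) :=
  (exists_kp g).choose_spec

/-- the diagonal of a cocycle -/
lemma diag_rp {F : Γ → Γ → M} (hF : IsCoc F) {N : ℕ} [NeZero N] (g : ZMod N → Γ) :
    F (W (rp g) 0) (W (rp g) 0) = F (W g 0) (W g 0) := by
  apply coc_conj hF
  have h1 : W g 0 = W (rp g) (kp g) := by
    conv_lhs => rw [kp_spec g, W_shift, zero_add]
  have h2 := W_add (rp g) 0 (kp g).val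
  rw [zero_add, ZMod.natCast_zmod_val, ← h1] at h2
  rw [← h2]
  exact isConj_iff.2 ⟨pr (rp g) 0 (kp g).val, by group⟩

lemma Psi_rp [Module (ZMod (p ^ (i + 1))) M] {F : Γ → Γ → M} (hF : IsCoc F)
    (g : ZMod (p ^ (i + 1)) → Γ) :
    Psi' F g = Psi' F (rp g) - kp g • F (W g 0) (W g 0) := by
  conv_lhs => rw [kp_spec g]
  rw [Psi'_shift_gen hF, diag_rp hF]

variable (gr A B p i)

/-- the coefficient at `w` of the integral logarithm -/
noncomputable def lgc (l : (ZMod (p ^ (i + 1)) → Yy I S) → ZMod (p ^ (i + 1))) (w : Γ) : ℤ :=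
  ∑ o : ZMod (p ^ (i + 1)) → Yy I S with ((Fr o ∧ l o = 0) ∧ W (UU gr o) 0 = w),
    wt A B o * ((kp (VV gr o) - kp (UU gr o)).val : ℤ)

variable {gr A B p i}

/-- **The Frobenius relation with diagonal term** -/
theorem rel {q : ℕ} (hq : p ^ (2 * (i + 1)) ∣ q) (h : IPm q gr A B)
    (hA : ∀ i j a, A i j a ^ p = A i j a) (hB : ∀ i j a, B i j a ^ p = B i j a)
    (hM : ∀ x : M, (p ^ (i + 1)) • x = 0)
    (l : (ZMod (p ^ (i + 1)) → Yy I S) → ZMod (p ^ (i + 1)))
    (hl : ∀ o, Fr o → ∀ c, l (shift c o) = l o + c)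
    {F : Γ → Γ → M} (hF : IsCoc F) :
    Dsum gr A B F = Dsum gr A B (fun w x => F (w ^ p) x) +
      ∑ w ∈ (Finset.univ : Finset (ZMod (p ^ (i + 1)) → Yy I S)).image (fun o => W (UU gr o) 0),
        lgc gr A B p i l w • F w w := by
  letI : Module (ZMod (p ^ (i + 1))) M := AddCommGroup.zmodModule hM
  have hqM : ∀ x : M, q • x = 0 := by
    intro x
    obtain ⟨c, hc⟩ := hq
    rw [hc, mul_comm, mul_smul, two_mul, pow_add, mul_smul, hM, smul_zero]
  rw [← total_sum (N := p ^ (i + 1)) h hqM F,
    ← total_sum (N := p ^ i) h hqM (fun w x => F (w ^ p) x)]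
  rw [← Finset.sum_filter_add_sum_filter_not (s := Finset.univ)
    (p := fun o : ZMod (p ^ (i + 1)) → Yy I S => Fr o), add_comm]
  congr 1
  · rw [sum_periodic]
    apply Finset.sum_congr rfl
    intro o _
    rw [wt_pull hA hB]
    congr 1
    unfold Gf
    rw [UU_pull, W_pull]
    simp [la, pull]
  · rw [sum_orbit' (fun o => Fr o) (fun o ho c => Fr_shift ho c) l hl]
    have h2 : ∀ o : ZMod (p ^ (i + 1)) → Yy I S,
        ∑ c : ZMod (p ^ (i + 1)), wt A B (shift c o) • Gf gr F (shift c o) =
        (wt A B o • Psi' F (rp (UU gr o)) - wt A B o • Psi' F (rp (VV gr o))) +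
        (wt A B o * ((kp (VV gr o) - kp (UU gr o)).val : ℤ)) • F (W (UU gr o) 0) (W (UU gr o) 0) := by
      intro o
      simp_rw [wt_shift]
      rw [← Finset.smul_sum, ← smul_sub, mul_smul, ← smul_add]
      congr 1
      have h3 : ∑ c : ZMod (p ^ (i + 1)), Gf gr F (shift c o) =
          Psi' F (UU gr o) - Psi' F (VV gr o) := by
        rw [show UU gr o = fun k => la gr o k * lb gr o k from rfl,
          show VV gr o = fun k => lb gr o k * la gr o (k + 1) from rfl, ← sum_coc' hF]
        apply Finset.sum_congr rfl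
        intro c _
        unfold Gf
        rw [UU_shift, W_shift, zero_add]
        congr 1
        simp [la]
      have h4 : F (W (VV gr o) 0) (W (VV gr o) 0) = F (W (UU gr o) 0) (W (UU gr o) 0) := by
        apply coc_conj hF
        rw [W_VV]
        exact isConj_iff.2 ⟨(la gr o 0)⁻¹, by group⟩
      have h5 : ∀ (x : ZMod (p ^ (i + 1))) (y : M), ((x.val : ℕ) : ℤ) • y = x • y := by
        intro x y
        conv_rhs => rw [← ZMod.natCast_zmod_val x]
        rw [natCast_zsmul]
        exact (Nat.cast_smul_eq_nsmul (ZMod (p ^ (i + 1))) x.val y).symm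
      rw [h3, Psi_rp hF (UU gr o), Psi_rp hF (VV gr o), h4, h5, sub_smul]
      abel
    simp_rw [h2]
    rw [Finset.sum_add_distrib, Finset.sum_sub_distrib]
    have h3 : ∑ o with (Fr o ∧ l o = 0), wt A B o • Psi' F (rp (UU gr o)) = 0 :=
      sum_inv hq h hA hB hM l hl (fun t => Psi' F (rp (fun k => (t k).2))) (by
        intro c t
        have h6 : (fun k => (shift c t k).2) = shift c (fun k => (t k).2) := rfl
        rw [h6, rp_shift])
    have h4 : ∑ o with (Fr o ∧ l o = 0), wt A B o • Psi' F (rp (VV gr o)) = 0 := by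
      have h5 := sum_inv (gr := gr) hq h.symm hB hA hM (fun o => l (swpi o)) (by
        intro o ho c
        show l (swpi (shift c o)) = l (swpi o) + c
        rw [swpi_shift]
        apply hl
        rw [← Fr_swp, swp_swpi]; exact ho) (fun t => Psi' F (rp (fun k => (t k).2))) (by
        intro c t
        have h6 : (fun k => (shift c t k).2) = shift c (fun k => (t k).2) := rfl
        rw [h6, rp_shift])
      rw [← h5]
      refine Finset.sum_nbij' swp swpi ?_ ?_ ?_ ?_ ?_
      · intro o ho
        simp only [Finset.mem_filter, Finset.mem_univ, true_and] at ho ⊢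
        rw [Fr_swp, swpi_swp]; exact ho
      · intro o ho
        simp only [Finset.mem_filter, Finset.mem_univ, true_and] at ho ⊢
        rw [← Fr_swp, swp_swpi]; exact ho
      · intro o _; exact swpi_swp o
      · intro o _; exact swp_swpi o
      · intro o _
        rw [wt_swp]
        rfl
    rw [h3, h4, sub_zero, zero_add]
    rw [← Finset.sum_fiberwise_of_maps_to
      (s := (Finset.univ : Finset (ZMod (p ^ (i + 1)) → Yy I S)).filter
        (fun o => Fr o ∧ l o = 0))
      (t := (Finset.univ : Finset (ZMod (p ^ (i + 1)) → Yy I S)).image (fun o => W (UU gr o) 0))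
      (g := fun o => W (UU gr o) 0) (fun o _ => Finset.mem_image_of_mem _ (Finset.mem_univ o))]
    apply Finset.sum_congr rfl
    intro w _
    unfold lgc
    rw [Finset.sum_smul, Finset.filter_filter]
    apply Finset.sum_congr rfl
    intro o ho
    rw [Finset.mem_filter] at ho
    rw [ho.2.2]

end main

end Pool.Agent.Y72.Dt
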