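import Pool.Agent.Y72.Dt.Van

/-!
# The Dennis trace of an invertible matrix
-/

set_option autoImplicit false
set_option linter.unusedSectionVars false

namespace Pool.Agent.Y72.Dt

open Finset H219.Wh Pool.Agent.Y72.Log
open Pool.Agent.H23R2 (InvPair IsCoc DsumZ cf supp invPair_units)
open scoped Classical

section main

variable {Γ : Type*} [Group Γ] {n : ℕ} {M : Type*} [AddCommGroup M]

lemma PD_one (A : (Matrix (Fin n) (Fin n) (MonoidAlgebra ℤ Γ))ˣ) {F : Γ → Γ → M}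
    (hF : IsCoc F) : PD A (clF F (ConjClasses.mk 1)) = F 1 (gamA A) := by
  have ha : ∀ i j g, (cf A.val i j g).natAbs ≤ Kb A :=
    fun i j g => ((exists_bound A.val).choose_spec i j g).trans (le_max_left _ _)
  have hb' : ∀ i j g, (cf (A⁻¹).val i j g).natAbs ≤ Kb A :=
    fun i j g => ((exists_bound (A⁻¹).val).choose_spec i j g).trans (le_max_right _ _)
  unfold PD gamA
  rw [← Dsum_lett _ _ _ _ ha hb', coc_gam hF]
  unfold Dsum
  rw [Finset.sum_filter]
  apply Finset.sum_congr rfl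
  intro y _
  unfold clF
  by_cases hy : grl (supp A.val ∪ supp (A⁻¹).val) (Kb A) y.2.2.1 *
      grl (supp A.val ∪ supp (A⁻¹).val) (Kb A) y.2.2.2 = 1
  · rw [if_pos hy, hy, if_pos rfl]
  · rw [if_neg hy, if_neg, smul_zero]
    intro hc
    rw [ConjClasses.mk_eq_mk_iff_isConj] at hc
    exact hy (isConj_one_left.1 hc)

lemma PD_clF (A : (Matrix (Fin n) (Fin n) (MonoidAlgebra ℤ Γ))ˣ) (F : Γ → Γ → M) :
    ∃ T : Finset (ConjClasses Γ), PD A F = PD A (clF F (ConjClasses.mk 1)) +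
      ∑ C ∈ T with C ≠ ConjClasses.mk 1, PD A (clF F C) := by
  let T : Finset (ConjClasses Γ) := insert (ConjClasses.mk 1)
    (((supp A.val ∪ supp (A⁻¹).val) ×ˢ (supp A.val ∪ supp (A⁻¹).val)).image
    (fun y => ConjClasses.mk (y.1 * y.2)))
  refine ⟨T, ?_⟩
  have h1 : PD A F = ∑ C ∈ T, PD A (clF F C) := by
    unfold PD DsumZ
    rw [Finset.sum_comm]
    apply Finset.sum_congr rfl
    intro y _
    rw [← Finset.smul_sum]
    congr 1
    unfold clF
    rw [Finset.sum_ite_eq, if_pos]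
    apply Finset.mem_insert_of_mem
    apply Finset.mem_image_of_mem (fun y : Γ × Γ => ConjClasses.mk (y.1 * y.2))
      (a := ((y.2.2.1 : Γ), (y.2.2.2 : Γ)))
    rw [Finset.mem_product]
    exact ⟨y.2.2.1.2, y.2.2.2.2⟩
  have h2 : ConjClasses.mk 1 ∈ T := Finset.mem_insert_self _ _
  rw [h1, Finset.filter_ne']
  exact (Finset.add_sum_erase T (fun C => PD A (clF F C)) h2).symm

/-- the theorem for small coefficient groups -/
theorem PD_main0 (A : (Matrix (Fin n) (Fin n) (MonoidAlgebra ℤ Γ))ˣ) (hb : Cen Γ)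
    (hu : UR Γ) {p : ℕ} (hp : p.Prime) {N : ℕ} {M : Type} [AddCommGroup M]
    (hM : ∀ x : M, (p ^ N) • x = 0) {F : Γ → Γ → M} (hF : IsCoc F) :
    PD A F = F 1 (gamA A) := by
  obtain ⟨T, hT⟩ := PD_clF A F
  rw [hT, PD_one A hF]
  have h2 : ∑ C ∈ T with C ≠ ConjClasses.mk 1, PD A (clF F C) = 0 := by
    apply Finset.sum_eq_zero
    intro C hC
    rw [Finset.mem_filter] at hC
    apply PD_class_zero A hb hu hp hM (c := rep C) _ (clF_coc hF C)
    · intro w x hw
      exact if_neg (fun hc => hw ((isConj_out_iff C w).2 hc))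
    · intro h3
      apply hC.2
      rw [← mk_out C, h3]
  rw [h2, add_zero]

/-- **The Dennis trace of an invertible matrix** -/
theorem PD_main (A : (Matrix (Fin n) (Fin n) (MonoidAlgebra ℤ Γ))ˣ) (hb : Cen Γ)
    (hu : UR Γ) {p : ℕ} (hp : p.Prime) {N : ℕ} {Λ : Type*}
    (κ : Λ → M →+ ZMod (p ^ N)) (hκ : ∀ x : M, (∀ μ, κ μ x = 0) → x = 0)
    {F : Γ → Γ → M} (hF : IsCoc F) : PD A F = F 1 (gamA A) := by
  rw [← sub_eq_zero]
  apply hκ
  intro μ
  rw [map_sub, map_PD, sub_eq_zero]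
  apply PD_main0 A hb hu hp (N := N)
  · intro x
    rw [nsmul_eq_mul, ZMod.natCast_self, zero_mul]
  · intro w x y
    show κ μ _ = κ μ _ + κ μ _
    rw [← map_add, hF]

end main

end Pool.Agent.Y72.Dt
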