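import Pool.Agent.Y72.Dt.Mono

/-!
# A Solomon type induction theorem
-/

set_option autoImplicit false
set_option linter.unusedSectionVars false

namespace Pool.Agent.Y72.Dt

open MulAction

section basic

lemma Ep.equiv {p : ℕ} {K K' : Type*} [Group K] [Group K'] (h : Ep p K) (e : K ≃* K') :
    Ep p K' := by
  obtain ⟨N, hN, h1, h2⟩ := h
  refine ⟨N.map e.toMonoidHom, hN.map _ e.surjective, ?_, ?_⟩
  · rintro _ ⟨a, ha, rfl⟩ _ ⟨b, hb, rfl⟩
    rw [← map_mul, h1 a ha b hb, map_mul]
  · intro h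
    obtain ⟨k, hk⟩ := h2 (e.symm h)
    refine ⟨k, ⟨_, hk, ?_⟩⟩
    rw [map_pow]
    congr 1
    exact e.apply_symm_apply h

lemma Ep.le {p : ℕ} {K : Type*} [Group K] {H H' : Subgroup K} (h : Ep p H) (hle : H' ≤ H) :
    Ep p H' := (h.sub (H'.subgroupOf H)).equiv (Subgroup.subgroupOfEquivOfLe hle)

lemma mem_of_coprime_pow {G : Type*} [Group G] {C : Subgroup G} {h : G} {a b : ℕ}
    (hab : Nat.Coprime a b) (ha : h ^ a ∈ C) (hb : h ^ b ∈ C) : h ∈ C := by
  have h1 : (1 : ℤ) = a * a.gcdA b + b * a.gcdB b := by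
    rw [← Nat.gcd_eq_gcd_ab, Nat.Coprime.gcd_eq_one hab]
    rfl
  have h2 : h = (h ^ a) ^ (a.gcdA b) * (h ^ b) ^ (a.gcdB b) := by
    rw [← zpow_natCast, ← zpow_natCast, ← zpow_mul, ← zpow_mul, ← zpow_add, ← h1, zpow_one]
  rw [h2]
  exact C.mul_mem (C.zpow_mem ha _) (C.zpow_mem hb _)

end basic

section local_set

universe u

variable {G : Type u} [Group G] [Finite G] {p : ℕ} [hp : Fact p.Prime]

/-- for every element there is a transitive set with few fixed points -/
theorem exists_local (g : G) : ∃ (X : Type u) (_ : Finite X) (_ : MulAction G X),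
    (∀ x : X, Ep p (stabilizer G x)) ∧ ¬ p ∣ Nat.card (fixedBy X g) := by
  classical
  obtain ⟨a, m0, hm0, hn⟩ := Nat.exists_eq_pow_mul_and_not_dvd (orderOf_pos g).ne' p hp.out.ne_one
  set c := g ^ p ^ a with hc
  have hcm : c ^ m0 = 1 := by
    rw [hc, ← pow_mul, ← hn, pow_orderOf_eq_one]
  let C : Subgroup G := Subgroup.zpowers c
  have hCm : ∀ x ∈ C, x ^ m0 = 1 := by
    rintro _ ⟨k, rfl⟩
    show (c ^ k) ^ m0 = 1
    rw [← zpow_natCast, ← zpow_mul, mul_comm, zpow_mul, zpow_natCast, hcm, one_zpow]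
  let N : Subgroup G := Subgroup.normalizer (C : Set G)
  have hCN : C ≤ N := Subgroup.le_normalizer
  let C' : Subgroup N := C.subgroupOf N
  have hC'n : C'.Normal := Subgroup.normal_in_normalizer
  obtain ⟨P⟩ : Nonempty (Sylow p (N ⧸ C')) := inferInstance
  let Q : Subgroup N := (P : Subgroup (N ⧸ C')).comap (QuotientGroup.mk' C')
  let H : Subgroup G := Q.map N.subtype
  have hHN : H ≤ N := by
    rintro _ ⟨x, _, rfl⟩
    exact x.2
  have hmem : ∀ x : N, (x : G) ∈ H ↔ x ∈ Q := by
    intro x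
    constructor
    · rintro ⟨y, hy, hyx⟩
      have : y = x := Subtype.ext hyx
      exact this ▸ hy
    · intro hx
      exact ⟨x, hx, rfl⟩
  have hCH : C ≤ H := by
    intro x hx
    refine (hmem ⟨x, hCN hx⟩).2 ?_
    show QuotientGroup.mk' C' ⟨x, hCN hx⟩ ∈ (P : Subgroup (N ⧸ C'))
    have h1 : QuotientGroup.mk' C' ⟨x, hCN hx⟩ = 1 :=
      (QuotientGroup.eq_one_iff _).2 (Subgroup.mem_subgroupOf.2 hx)
    rw [h1]
    exact Subgroup.one_mem _
  have hHp : ∀ x ∈ H, ∃ k, x ^ p ^ k ∈ C := by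
    rintro _ ⟨x, hx, rfl⟩
    obtain ⟨k, hk⟩ := P.2 ⟨QuotientGroup.mk' C' x, hx⟩
    refine ⟨k, ?_⟩
    have h1 : QuotientGroup.mk' C' (x ^ p ^ k) = 1 := by
      rw [map_pow]
      exact congrArg Subtype.val hk
    exact Subgroup.mem_subgroupOf.1 ((QuotientGroup.eq_one_iff _).1 h1)
  have hEH : Ep p H := by
    refine ⟨C.subgroupOf H, ?_, ?_, ?_⟩
    · refine ⟨fun x hx y => ?_⟩
      rw [Subgroup.mem_subgroupOf] at hx ⊢
      have hy : (y : G) ∈ N := hHN y.2
      exact (Subgroup.mem_normalizer_iff.1 hy x.1).1 hx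
    · intro x hx y hy
      rw [Subgroup.mem_subgroupOf] at hx hy
      obtain ⟨k, hk⟩ := hx
      obtain ⟨l, hl⟩ := hy
      apply Subtype.ext
      show (x : G) * y = y * x
      rw [← hk, ← hl]
      show c ^ k * c ^ l = c ^ l * c ^ k
      rw [← zpow_add, ← zpow_add, add_comm]
    · intro x
      obtain ⟨k, hk⟩ := hHp x.1 x.2
      exact ⟨k, Subgroup.mem_subgroupOf.2 hk⟩
  refine ⟨G ⧸ H, inferInstance, inferInstance, ?_, ?_⟩
  · intro x
    obtain ⟨y, rfl⟩ := QuotientGroup.mk_surjective x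
    have h1 : ((y : G) : G ⧸ H) = y • ((1 : G) : G ⧸ H) := by
      show _ = ((y * 1 : G) : G ⧸ H)
      rw [mul_one]
    have h2 : Ep p (stabilizer G ((1 : G) : G ⧸ H)) := by
      rw [stabilizer_quotient]
      exact hEH
    exact h2.equiv (stabilizerEquivStabilizer h1)
  · -- counting fixed points
    -- first the fixed points of `c`
    have h1 : (fixedBy (G ⧸ H) c : Set (G ⧸ H)) = orbit N ((1 : G) : G ⧸ H) := by
      ext x
      obtain ⟨y, rfl⟩ := QuotientGroup.mk_surjective x
      rw [mem_fixedBy]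
      constructor
      · intro hy
        have h2 : y⁻¹ * c * y ∈ H := by
          have h3 : ((c * y : G) : G ⧸ H) = ((y : G) : G ⧸ H) := hy
          have h4 := QuotientGroup.eq.1 h3.symm
          rwa [← mul_assoc] at h4
        have h3 : y⁻¹ * c * y ∈ C := by
          obtain ⟨k, hk⟩ := hHp _ h2
          have h4 : (y⁻¹ * c * y) ^ m0 ∈ C := by
            have h5 : (y⁻¹ * c * y) ^ m0 = y⁻¹ * c ^ m0 * y := by
              have := conj_pow (i := m0) (a := y⁻¹) (b := c)
              rwa [inv_inv] at this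
            rw [h5, hcm, mul_one, inv_mul_cancel]
            exact C.one_mem
          refine mem_of_coprime_pow ?_ hk h4
          exact Nat.Coprime.pow_left _ ((Nat.Prime.coprime_iff_not_dvd hp.out).2 hm0)
        have h4 : y⁻¹ ∈ N := by
          apply Subgroup.mem_normalizer_fintype
          rintro _ ⟨k, rfl⟩
          show y⁻¹ * c ^ k * y⁻¹⁻¹ ∈ C
          have h5 : y⁻¹ * c ^ k * y⁻¹⁻¹ = (y⁻¹ * c * y) ^ k := by
            have := conj_zpow (i := k) (a := y⁻¹) (b := c)
            rw [← this, inv_inv]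
          rw [h5]
          exact C.zpow_mem h3 k
        refine ⟨⟨y, by simpa using N.inv_mem h4⟩, ?_⟩
        show ((y * 1 : G) : G ⧸ H) = _
        rw [mul_one]
      · rintro ⟨n, hn⟩
        have hn' : ((n.1 : G) : G ⧸ H) = (y : G ⧸ H) := by
          rw [← hn]
          show _ = ((n.1 * 1 : G) : G ⧸ H)
          rw [mul_one]
        rw [← hn']
        show ((c * n.1 : G) : G ⧸ H) = ((n.1 : G) : G ⧸ H)
        symm
        rw [QuotientGroup.eq, ← mul_assoc]
        apply hCH
        have h2 := (Subgroup.mem_normalizer_iff.1 (N.inv_mem n.2) c).1 (Subgroup.mem_zpowers c)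
        rwa [inv_inv] at h2
    have h2 : Nat.card (fixedBy (G ⧸ H) c) = (P : Subgroup (N ⧸ C')).index := by
      rw [h1, Nat.card_coe_set_eq, ← index_stabilizer]
      have h3 : stabilizer N ((1 : G) : G ⧸ H) = Q := by
        ext x
        rw [mem_stabilizer_iff, ← hmem]
        show ((x.1 * 1 : G) : G ⧸ H) = ((1 : G) : G ⧸ H) ↔ _
        rw [mul_one, eq_comm, QuotientGroup.eq, inv_one, one_mul]
      rw [h3]
      exact Subgroup.index_comap_of_surjective _ (QuotientGroup.mk'_surjective C')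
    have h3 : ¬ p ∣ Nat.card (fixedBy (G ⧸ H) c) := by
      rw [h2]
      exact P.not_dvd_index
    -- the action of `g` on the fixed points of `c`
    have : Fintype (fixedBy (G ⧸ H) c) := Fintype.ofFinite _
    have hgc : ∀ x ∈ fixedBy (G ⧸ H) c, g • x ∈ fixedBy (G ⧸ H) c := by
      intro x hx
      rw [mem_fixedBy] at hx ⊢
      have h4 : c * g = g * c := by
        rw [hc, ← pow_succ, ← pow_succ']
      rw [smul_smul, h4, mul_smul, hx]
    let f : Function.End (fixedBy (G ⧸ H) c) := fun x => ⟨g • x.1, hgc x.1 x.2⟩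
    have hfk : ∀ (k : ℕ) x, ((f ^ k) x).1 = g ^ k • x.1 := by
      intro k
      induction k with
      | zero =>
        intro x
        rw [pow_zero, pow_zero, one_smul]
        rfl
      | succ k ih =>
        intro x
        rw [pow_succ', pow_succ', mul_smul, ← ih]
        rfl
    have hf : f ^ p ^ a = 1 := by
      funext x
      apply Subtype.ext
      rw [hfk]
      exact x.2
    have h4 := Equiv.Perm.card_fixedPoints_modEq hf
    have h5 : Fintype.card f.fixedPoints = Nat.card (fixedBy (G ⧸ H) g) := by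
      rw [← Nat.card_eq_fintype_card]
      refine Nat.card_congr
        { toFun := fun x => ⟨x.1.1, congrArg Subtype.val x.2⟩
          invFun := fun x => ⟨⟨x.1, ?_⟩, Subtype.ext x.2⟩
          left_inv := fun x => rfl
          right_inv := fun x => rfl }
      have h6 : ∀ k : ℕ, g ^ k • x.1 = x.1 := by
        intro k
        induction k with
        | zero => rw [pow_zero, one_smul]
        | succ k ih => rw [pow_succ', mul_smul, ih]; exact x.2
      exact h6 _
    rw [h5, ← Nat.card_eq_fintype_card] at h4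
    intro h6
    apply h3
    exact (Nat.modEq_zero_iff_dvd.1 (h4.trans (Nat.modEq_zero_iff_dvd.2 h6)))

end local_set

section ring

universe u

variable {G : Type u} [Group G] {p : ℕ}

/-- differences of permutation characters of sets with stabilizers in the class `Ep` -/
def RR (p : ℕ) {G : Type u} [Group G] (f : G → ℤ) : Prop :=
  ∃ (X Y : Type u) (_ : Finite X) (_ : Finite Y) (_ : MulAction G X) (_ : MulAction G Y),
    (∀ x : X, Ep p (stabilizer G x)) ∧ (∀ y : Y, Ep p (stabilizer G y)) ∧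
      ∀ g, f g = (Nat.card (fixedBy X g) : ℤ) - Nat.card (fixedBy Y g)

lemma card_fix_sum (X Y : Type u) [Finite X] [Finite Y] [MulAction G X] [MulAction G Y] (g : G) :
    Nat.card (fixedBy (X ⊕ Y) g) = Nat.card (fixedBy X g) + Nat.card (fixedBy Y g) := by
  rw [← Nat.card_sum]
  refine Nat.card_congr
    { toFun := fun x => match x with
        | ⟨Sum.inl a, h⟩ => Sum.inl ⟨a, Sum.inl_injective h⟩
        | ⟨Sum.inr a, h⟩ => Sum.inr ⟨a, Sum.inr_injective h⟩
      invFun := fun x => match x with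
        | Sum.inl a => ⟨Sum.inl a.1, congrArg Sum.inl a.2⟩
        | Sum.inr a => ⟨Sum.inr a.1, congrArg Sum.inr a.2⟩
      left_inv := ?_
      right_inv := ?_ }
  · rintro ⟨a | a, h⟩ <;> rfl
  · rintro (a | a) <;> rfl

lemma card_fix_prod (X Y : Type u) [Finite X] [Finite Y] [MulAction G X] [MulAction G Y] (g : G) :
    Nat.card (fixedBy (X × Y) g) = Nat.card (fixedBy X g) * Nat.card (fixedBy Y g) := by
  rw [← Nat.card_prod]
  refine Nat.card_congr
    { toFun := fun x => (⟨x.1.1, congrArg Prod.fst x.2⟩, ⟨x.1.2, congrArg Prod.snd x.2⟩)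
      invFun := fun x => ⟨(x.1.1, x.2.1), Prod.ext x.1.2 x.2.2⟩
      left_inv := fun x => rfl
      right_inv := fun x => rfl }

lemma Ep_sum {X Y : Type u} [MulAction G X] [MulAction G Y]
    (hX : ∀ x : X, Ep p (stabilizer G x)) (hY : ∀ y : Y, Ep p (stabilizer G y)) :
    ∀ x : X ⊕ Y, Ep p (stabilizer G x) := by
  rintro (x | y)
  · apply (hX x).le
    intro g hg
    exact Sum.inl_injective hg
  · apply (hY y).le
    intro g hg
    exact Sum.inr_injective hg

lemma Ep_prod {X Y : Type u} [MulAction G X] [MulAction G Y]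
    (hX : ∀ x : X, Ep p (stabilizer G x)) : ∀ x : X × Y, Ep p (stabilizer G x) := by
  intro x
  apply (hX x.1).le
  intro g hg
  exact congrArg Prod.fst hg

lemma RR.zero : RR p (fun _ : G => 0) := by
  let _ : MulAction G PEmpty.{u+1} :=
    { smul := fun _ x => x
      one_smul := fun x => rfl
      mul_smul := fun _ _ x => rfl }
  exact ⟨PEmpty.{u+1}, PEmpty.{u+1}, inferInstance, inferInstance, inferInstance, inferInstance,
    fun x => x.elim, fun x => x.elim, fun g => by rw [sub_self]⟩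

lemma RR.neg {f : G → ℤ} (h : RR p f) : RR p (fun g => - f g) := by
  obtain ⟨X, Y, i1, i2, i3, i4, h1, h2, h3⟩ := h
  exact ⟨Y, X, i2, i1, i4, i3, h2, h1, fun g => by simp only [h3]; ring⟩

lemma RR.add {f f' : G → ℤ} (h : RR p f) (h' : RR p f') : RR p (fun g => f g + f' g) := by
  obtain ⟨X, Y, i1, i2, i3, i4, h1, h2, h3⟩ := h
  obtain ⟨X', Y', j1, j2, j3, j4, k1, k2, k3⟩ := h'
  refine ⟨X ⊕ X', Y ⊕ Y', inferInstance, inferInstance, inferInstance, inferInstance,
    Ep_sum h1 k1, Ep_sum h2 k2, fun g => ?_⟩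
  simp only [card_fix_sum, h3, k3]
  push_cast
  ring

lemma RR.mul {f f' : G → ℤ} (h : RR p f) (h' : RR p f') : RR p (fun g => f g * f' g) := by
  obtain ⟨X, Y, i1, i2, i3, i4, h1, h2, h3⟩ := h
  obtain ⟨X', Y', j1, j2, j3, j4, k1, k2, k3⟩ := h'
  refine ⟨(X × X') ⊕ (Y × Y'), (X × Y') ⊕ (Y × X'), inferInstance, inferInstance, inferInstance,
    inferInstance, Ep_sum (Ep_prod h1) (Ep_prod h2), Ep_sum (Ep_prod h1) (Ep_prod h2),
    fun g => ?_⟩
  simp only [card_fix_sum, card_fix_prod, h3, k3]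
  push_cast
  ring

lemma RR.nsmul {f : G → ℤ} (h : RR p f) (n : ℕ) : RR p (fun g => (n : ℤ) * f g) := by
  induction n with
  | zero =>
    have := RR.zero (p := p) (G := G)
    simpa using this
  | succ n ih =>
    have := ih.add h
    have e : (fun g => ((n + 1 : ℕ) : ℤ) * f g) = fun g => (n : ℤ) * f g + f g := by
      funext g
      push_cast
      ring
    rw [e]
    exact this

/-- **The induction theorem**: a prime to `p` multiple of the trivial character is a difference of
permutation characters with stabilizers in the class `Ep` -/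
theorem solomon [Finite G] [hp : Fact p.Prime] : ∃ (m : ℕ) (X Y : Type u) (_ : Finite X)
    (_ : Finite Y) (_ : MulAction G X) (_ : MulAction G Y), ¬ p ∣ m ∧
    (∀ x : X, Ep p (stabilizer G x)) ∧ (∀ y : Y, Ep p (stabilizer G y)) ∧
      ∀ g : G, Nat.card (fixedBy X g) = m + Nat.card (fixedBy Y g) := by
  classical
  cases nonempty_fintype G
  have h0 : ∀ g : G, ∃ (c : ℕ) (f : G → ℤ), ¬ p ∣ c ∧ RR p f ∧ f g = c := by
    intro g
    obtain ⟨X, i1, i2, h1, h2⟩ := exists_local (p := p) g
    let _ : MulAction G PEmpty.{u+1} :=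
      { smul := fun _ x => x
        one_smul := fun x => rfl
        mul_smul := fun _ _ x => rfl }
    refine ⟨Nat.card (fixedBy X g), fun g => Nat.card (fixedBy X g), h2,
      ⟨X, PEmpty.{u+1}, i1, inferInstance, i2, inferInstance, h1, fun x => x.elim, fun g => ?_⟩,
      rfl⟩
    have : Nat.card (fixedBy PEmpty.{u+1} g) = 0 := Nat.card_of_isEmpty
    rw [this, Nat.cast_zero, sub_zero]
  choose c f hc hf hfc using h0
  have h1 : ∀ s : Finset G, ∃ r : G → ℤ, RR p r ∧
      ∀ g', ∏ g ∈ s, ((c g : ℤ) - f g g') = ((∏ g ∈ s, c g : ℕ) : ℤ) - r g' := by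
    intro s
    induction s using Finset.induction_on with
    | empty =>
      refine ⟨fun _ => 0, RR.zero, fun g' => ?_⟩
      simp
    | insert a s ha ih =>
      obtain ⟨r, hr, h2⟩ := ih
      refine ⟨fun g' => ((c a : ℤ) * r g' + ((∏ g ∈ s, c g : ℕ) : ℤ) * f a g') +
        -(f a g' * r g'), ?_, fun g' => ?_⟩
      · exact ((hr.nsmul _).add ((hf a).nsmul _)).add ((hf a).mul hr).neg
      · rw [Finset.prod_insert ha, h2, Finset.prod_insert ha]
        push_cast
        ring
  obtain ⟨r, hr, h2⟩ := h1 Finset.univ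
  have h3 : ∀ g', r g' = ((∏ g, c g : ℕ) : ℤ) := by
    intro g'
    have h4 := h2 g'
    rw [Finset.prod_eq_zero (Finset.mem_univ g') (by rw [hfc, sub_self])] at h4
    linarith
  obtain ⟨X, Y, i1, i2, i3, i4, k1, k2, k3⟩ := hr
  refine ⟨∏ g, c g, X, Y, i1, i2, i3, i4, ?_, k1, k2, fun g => ?_⟩
  · intro h4
    obtain ⟨g, _, h5⟩ := (Nat.Prime.prime hp.out).exists_mem_finset_dvd h4
    exact hc g h5
  · have h4 := k3 g
    rw [h3] at h4
    have h5 : (Nat.card (fixedBy X g) : ℤ) = ((∏ g, c g + Nat.card (fixedBy Y g) : ℕ) : ℤ) := by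
      rw [Nat.cast_add, h4]
      ring
    exact_mod_cast h5

end ring

end Pool.Agent.Y72.Dt
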