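import Pool.Agent.Y72.Dt.EE
import Pool.Agent.Y72.Dt.Sol

/-!
# Lifting monomial representations to integral group rings of finite commutative groups
-/

set_option autoImplicit false
set_option linter.unusedSectionVars false

namespace Pool.Agent.Y72.Dt

open Pool.Agent.Y72.Log Module

section tomat

variable {G : Type*} [Group G] {L : Type*} [Field L] {ι : Type*} [Fintype ι] [DecidableEq ι]

/-- the linear representation of a matrix representation -/
noncomputable def toEnd (ρ : G →* Matrix ι ι L) : G →* End L (ι → L) where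
  toFun g := Matrix.toLin' (ρ g)
  map_one' := by rw [map_one, Matrix.toLin'_one]; rfl
  map_mul' g h := by rw [map_mul, Matrix.toLin'_mul]; rfl

lemma toEnd_apply (ρ : G →* Matrix ι ι L) (g : G) : toEnd ρ g = Matrix.toLin' (ρ g) := rfl

/-- passing to a basis, with the dimension -/
theorem exists_tri' {M : ℕ} (ρ : G →* Matrix ι ι L) (h : Mt M (toEnd ρ)) :
    ∃ (m : ℕ) (σ : G →* Matrix (Fin m) (Fin m) L) (β : Fin m → ℕ), m = Fintype.card ι ∧
      (∀ (n : Type) [Fintype n] [DecidableEq n] (A : Matrix n n (MonoidAlgebra ℤ G)),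
        DD σ A = DD ρ A) ∧
      ∀ g j, ∃ i, β i = β j ∧ ∃ c : L, c ^ M = 1 ∧ ∀ k, ¬ (β k < β j) →
        σ g k j = if k = i then c else 0 := by
  obtain ⟨m, b, β, hb⟩ := h
  have hm : m = Fintype.card ι := by
    have h1 := Module.finrank_eq_card_basis b
    rw [Module.finrank_fintype_fun_eq_card, Fintype.card_fin] at h1
    exact h1.symm
  let σ : G →* Matrix (Fin m) (Fin m) L :=
    { toFun := fun g => LinearMap.toMatrix b b (toEnd ρ g)
      map_one' := by rw [map_one]; exact LinearMap.toMatrix_one b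
      map_mul' := fun g h => by rw [map_mul]; exact LinearMap.toMatrix_mul b _ _ }
  have hσ : ∀ g, σ g = b.toMatrix (Pi.basisFun L ι) * ρ g * (Pi.basisFun L ι).toMatrix b := by
    intro g
    show LinearMap.toMatrix b b (toEnd ρ g) = _
    rw [← basis_toMatrix_mul_linearMap_toMatrix_mul_basis_toMatrix (b := b)
      (b' := Pi.basisFun L ι) (c := b) (c' := Pi.basisFun L ι)]
    congr 2
    rw [toEnd_apply, LinearMap.toMatrix_eq_toMatrix', LinearMap.toMatrix'_toLin']
  refine ⟨m, σ, β, hm, ?_, ?_⟩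
  · intro n _ _ A
    exact DD_conj ρ σ _ _ (Basis.toMatrix_mul_toMatrix_flip _ _)
      (Basis.toMatrix_mul_toMatrix_flip _ _) hσ A
  · intro g j
    obtain ⟨i, hi, c, hc, h1⟩ := hb g j
    refine ⟨i, hi, c, hc, fun k hk => ?_⟩
    rw [Basis.mem_span_image] at h1
    have h2 : b.repr (toEnd ρ g (b j) - c • b i) k = 0 := by
      by_contra hne
      exact hk (h1 (Finsupp.mem_support_iff.2 hne))
    rw [map_sub, map_smul, Finsupp.sub_apply, Finsupp.smul_apply, Basis.repr_self, sub_eq_zero,
      Finsupp.single_apply] at h2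
    have h3 : σ g k j = b.repr (toEnd ρ g (b j)) k := LinearMap.toMatrix_apply _ _ _ _ _
    rw [h3, h2, smul_eq_mul]
    by_cases hki : k = i
    · rw [if_pos hki, if_pos hki.symm, mul_one]
    · rw [if_neg hki, if_neg (fun hc => hki hc.symm), mul_zero]

/-- passing to a basis -/
theorem exists_tri {M : ℕ} (ρ : G →* Matrix ι ι L) (h : Mt M (toEnd ρ)) :
    ∃ (m : ℕ) (σ : G →* Matrix (Fin m) (Fin m) L) (β : Fin m → ℕ),
      (∀ (n : Type) [Fintype n] [DecidableEq n] (A : Matrix n n (MonoidAlgebra ℤ G)),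
        DD σ A = DD ρ A) ∧
      ∀ g j, ∃ i, β i = β j ∧ ∃ c : L, c ^ M = 1 ∧ ∀ k, ¬ (β k < β j) →
        σ g k j = if k = i then c else 0 := by
  obtain ⟨m, σ, β, _, h1, h2⟩ := exists_tri' ρ h
  exact ⟨m, σ, β, h1, h2⟩

end tomat

section lift

variable {G : Type*} [Group G] {L : Type*} [Field L] {κ : Type*} [Fintype κ] [DecidableEq κ]
  {M : ℕ} [NeZero M]

open scoped Classical in
/-- the lift of roots of unity to the group ring -/
noncomputable def lam (M : ℕ) [NeZero M] (x : L) : MonoidAlgebra ℤ (rootsOfUnity M L) :=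
  if h : x ^ M = 1 then MonoidAlgebra.single (rootsOfUnity.mkOfPowEq x h) 1 else 0

lemma lam_zero : lam M (0 : L) = 0 := by
  unfold lam
  rw [dif_neg]
  rw [zero_pow (NeZero.ne M)]
  exact zero_ne_one

lemma lam_root {x : L} (h : x ^ M = 1) :
    lam M x = MonoidAlgebra.single (rootsOfUnity.mkOfPowEq x h) 1 := dif_pos h

lemma lam_one : lam M (1 : L) = 1 := by
  rw [lam_root (one_pow M)]
  have : rootsOfUnity.mkOfPowEq (1 : L) (one_pow M) = 1 := by
    apply Subtype.ext
    apply Units.ext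
    exact rootsOfUnity.coe_mkOfPowEq _
  rw [this]
  rfl

lemma lam_mul {x y : L} (hx : x ^ M = 1 ∨ x = 0) (hy : y ^ M = 1 ∨ y = 0) :
    lam M (x * y) = lam M x * lam M y := by
  rcases hx with hx | hx
  · rcases hy with hy | hy
    · have hxy : (x * y) ^ M = 1 := by rw [mul_pow, hx, hy, one_mul]
      rw [lam_root hx, lam_root hy, lam_root hxy, MonoidAlgebra.single_mul_single, one_mul]
      congr 1
      apply Subtype.ext
      apply Units.ext
      rw [Subgroup.coe_mul, Units.val_mul, rootsOfUnity.coe_mkOfPowEq, rootsOfUnity.coe_mkOfPowEq,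
        rootsOfUnity.coe_mkOfPowEq]
    · rw [hy, mul_zero, lam_zero, mul_zero]
  · rw [hx, zero_mul, lam_zero, zero_mul]

/-- evaluation -/
noncomputable def evr (M : ℕ) [NeZero M] (L : Type*) [Field L] :
    MonoidAlgebra ℤ (rootsOfUnity M L) →+* L :=
  (MonoidAlgebra.lift ℤ L (rootsOfUnity M L)
    ((Units.coeHom L).comp (rootsOfUnity M L).subtype)).toRingHom

lemma evr_lam {x : L} (hx : x ^ M = 1 ∨ x = 0) : evr M L (lam M x) = x := by
  rcases hx with hx | hx
  · rw [lam_root hx]
    show MonoidAlgebra.lift ℤ L (rootsOfUnity M L) _ (MonoidAlgebra.single _ 1) = x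
    rw [MonoidAlgebra.lift_single, one_smul]
    exact rootsOfUnity.coe_mkOfPowEq hx
  · rw [hx, lam_zero, map_zero]

/-- the lift of a monomial representation -/
noncomputable def mlift (σ : G →* Matrix κ κ L)
    (hm : ∀ g j, ∃ i, ∃ c : L, c ^ M = 1 ∧ ∀ k, σ g k j = if k = i then c else 0) :
    G →* Matrix κ κ (MonoidAlgebra ℤ (rootsOfUnity M L)) where
  toFun g := (σ g).map (lam M)
  map_one' := by
    rw [map_one]
    ext1 i j
    rw [Matrix.map_apply, Matrix.one_apply, Matrix.one_apply]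
    split_ifs
    · exact lam_one
    · exact lam_zero
  map_mul' g h := by
    have h0 : ∀ (g : G) (i j : κ), (σ g i j) ^ M = 1 ∨ σ g i j = 0 := by
      intro g i j
      obtain ⟨i', c, hc, h1⟩ := hm g j
      rw [h1]
      split_ifs
      · exact Or.inl hc
      · exact Or.inr rfl
    rw [map_mul]
    ext1 i j
    obtain ⟨i', c, hc, h1⟩ := hm h j
    rw [Matrix.map_apply, Matrix.mul_apply, Matrix.mul_apply, Finset.sum_eq_single i',
      Finset.sum_eq_single i', Matrix.map_apply, Matrix.map_apply, lam_mul (h0 _ _ _) (h0 _ _ _)]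
    · intro l _ hl
      rw [Matrix.map_apply, Matrix.map_apply, h1, if_neg hl, lam_zero, mul_zero]
    · intro hc
      exact absurd (Finset.mem_univ _) hc
    · intro l _ hl
      rw [h1, if_neg hl, mul_zero]
    · intro hc
      exact absurd (Finset.mem_univ _) hc

lemma chg_mlift (σ : G →* Matrix κ κ L)
    (hm : ∀ g j, ∃ i, ∃ c : L, c ^ M = 1 ∧ ∀ k, σ g k j = if k = i then c else 0) :
    chg (evr M L) (mlift σ hm) = σ := by
  ext g i j
  rw [chg_apply]
  show evr M L (lam M (σ g i j)) = _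
  apply evr_lam
  obtain ⟨i', c, hc, h1⟩ := hm g j
  rw [h1]
  split_ifs
  · exact Or.inl hc
  · exact Or.inr rfl

end lift

section triv

universe u v

/-- the determinants in all representations over integral group rings of finite commutative
groups are trivial -/
def TorOK {G : Type u} [Group G] {n : Type} [Fintype n] [DecidableEq n]
    (A : Matrix n n (MonoidAlgebra ℤ G)) : Prop :=
  ∀ (T : Type v) [CommGroup T] [Finite T] (d : ℕ)
    (ρ : G →* Matrix (Fin d) (Fin d) (MonoidAlgebra ℤ T)), DD ρ A = 1 ∨ DD ρ A = -1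

variable {G : Type u} [Group G] {L : Type v} [Field L] {n : Type} [Fintype n] [DecidableEq n]
  {A : Matrix n n (MonoidAlgebra ℤ G)} {M : ℕ} [NeZero M]

/-- monomial representations -/
lemma DD_mono (hA : TorOK.{u, v} A) {κ : Type*} [Fintype κ] [DecidableEq κ] (σ : G →* Matrix κ κ L)
    (hm : ∀ g j, ∃ i, ∃ c : L, c ^ M = 1 ∧ ∀ k, σ g k j = if k = i then c else 0) :
    DD σ A = 1 ∨ DD σ A = -1 := by
  let e := Fintype.equivFin κ
  have h1 := hA (rootsOfUnity M L) (Fintype.card κ) (rei e (mlift σ hm))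
  rw [DD_rei] at h1
  rw [← chg_mlift σ hm, DD_chg]
  rcases h1 with h | h
  · left
    rw [h, map_one]
  · right
    rw [h, map_neg, map_one]

/-- representations which are triangular with monomial blocks -/
theorem DD_Mt (hA : TorOK.{u, v} A) {ι : Type*} [Fintype ι] [DecidableEq ι] (ρ : G →* Matrix ι ι L)
    (h : Mt M (toEnd ρ)) : DD ρ A = 1 ∨ DD ρ A = -1 := by
  obtain ⟨m, σ, β, h1, h2⟩ := exists_tri ρ h
  rw [← h1]
  have hβ : ∀ g, (σ g).BlockTriangular β := by
    intro g k j hkj
    obtain ⟨i, hi, c, hc, h3⟩ := h2 g j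
    rw [h3 k (not_lt.2 hkj.le), if_neg]
    rintro rfl
    omega
  rw [DD_tri σ β hβ A]
  apply Finset.prod_induction (fun k => DD (dgb σ β hβ k) A) (fun x => x = 1 ∨ x = -1)
  · rintro a b (ha | ha) (hb | hb) <;> simp [ha, hb]
  · exact Or.inl rfl
  · intro k _
    apply DD_mono (M := M) hA
    rintro g ⟨j, hj⟩
    obtain ⟨i, hi, c, hc, h3⟩ := h2 g j
    refine ⟨⟨i, hi.trans hj⟩, c, hc, ?_⟩
    rintro ⟨k', hk'⟩
    rw [dgb_apply, h3 k' (by rw [hk', hj]; exact lt_irrefl k)]
    by_cases h4 : k' = i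
    · rw [if_pos h4, if_pos (Subtype.ext h4)]
    · rw [if_neg h4, if_neg (fun hc => h4 (congrArg Subtype.val hc))]

end triv

end Pool.Agent.Y72.Dt
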