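import Pool.Agent.Y72.Dt.Mt

/-!
# Monomiality
-/

set_option autoImplicit false
set_option linter.unusedSectionVars false

namespace Pool.Agent.Y72.Dt

open Module

section joint

variable {L : Type*} [Field L] {V : Type*} [AddCommGroup V] [Module L V]

/-- commuting operators over an algebraically closed field have a joint eigenvector -/
lemma exists_joint [IsAlgClosed L] [FiniteDimensional L V] [Nontrivial V] (S : Set (End L V))
    (hS : ∀ f ∈ S, ∀ g ∈ S, f * g = g * f) : ∃ v : V, v ≠ 0 ∧ ∀ f ∈ S, ∃ a : L, f v = a • v := by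
  classical
  let P : ℕ → Prop := fun d => ∃ W : Submodule L V, W ≠ ⊥ ∧ (∀ f ∈ S, ∀ v ∈ W, f v ∈ W) ∧
    finrank L W = d
  have hP : ∃ d, P d := ⟨_, ⊤, top_ne_bot, fun _ _ _ _ => Submodule.mem_top, rfl⟩
  obtain ⟨W, hW0, hWS, hWd⟩ := Nat.find_spec hP
  have hmin : ∀ U : Submodule L V, U ≠ ⊥ → (∀ f ∈ S, ∀ v ∈ U, f v ∈ U) → U ≤ W → U = W := by
    intro U hU hUS hle
    apply Submodule.eq_of_le_of_finrank_le hle
    rw [hWd]
    exact Nat.find_min' hP ⟨U, hU, hUS, rfl⟩
  obtain ⟨v, hv, hv0⟩ := Submodule.exists_mem_ne_zero_of_ne_bot hW0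
  refine ⟨v, hv0, fun f hf => ?_⟩
  have : Nontrivial W := Submodule.nontrivial_iff_ne_bot.2 hW0
  obtain ⟨a, ha⟩ := Module.End.exists_eigenvalue (f.restrict (hWS f hf))
  refine ⟨a, ?_⟩
  let U : Submodule L V := W ⊓ LinearMap.ker (f - algebraMap L (End L V) a)
  have hU : U = W := by
    apply hmin U
    · obtain ⟨w, hw⟩ := ha.exists_hasEigenvector
      intro hU
      apply hw.2
      have h1 : (w : V) ∈ U := by
        refine ⟨w.2, ?_⟩
        rw [SetLike.mem_coe, LinearMap.mem_ker, LinearMap.sub_apply, Module.algebraMap_end_apply,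
          sub_eq_zero]
        exact congrArg Subtype.val hw.apply_eq_smul
      rw [hU, Submodule.mem_bot] at h1
      exact Subtype.ext h1
    · rintro g hg u ⟨hu1, hu2⟩
      refine ⟨hWS g hg u hu1, ?_⟩
      rw [SetLike.mem_coe, LinearMap.mem_ker, LinearMap.sub_apply, Module.algebraMap_end_apply,
        sub_eq_zero] at hu2 ⊢
      rw [← Module.End.mul_apply, hS f hf g hg, Module.End.mul_apply, hu2, map_smul]
    · exact inf_le_left
  have h2 : v ∈ U := hU ▸ hv
  have h3 := h2.2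
  rw [SetLike.mem_coe, LinearMap.mem_ker, LinearMap.sub_apply, Module.algebraMap_end_apply,
    sub_eq_zero] at h3
  exact h3

end joint

section prim

universe u v

variable {L : Type v} [Field L] {K : Type u} [Group K] {V : Type*} [AddCommGroup V] [Module L V]

/-- the action on a set closed under conjugation -/
@[reducible] def cjAct (S : Set K) (hS : ∀ g, ∀ c ∈ S, g * c * g⁻¹ ∈ S) : MulAction K S where
  smul g c := ⟨g * c.1 * g⁻¹, hS g c.1 c.2⟩
  one_smul c := Subtype.ext (by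
    show 1 * c.1 * 1⁻¹ = c.1
    group)
  mul_smul g h c := Subtype.ext (by
    show g * h * c.1 * (g * h)⁻¹ = g * (h * c.1 * h⁻¹) * g⁻¹
    group)

/-- **Clifford theory**: a normal set of commuting operators gives an imprimitive decomposition -/
theorem exists_imprim [IsAlgClosed L] [FiniteDimensional L V] [Nontrivial V] [Finite K]
    (ρ : K →* End L V)
    (hirr : ∀ W : Submodule L V, (∀ g, ∀ v ∈ W, ρ g v ∈ W) → W = ⊥ ∨ W = ⊤)
    (S : Set K) (hS : ∀ g, ∀ c ∈ S, g * c * g⁻¹ ∈ S)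
    (hcomm : ∀ c ∈ S, ∀ c' ∈ S, ρ c * ρ c' = ρ c' * ρ c) (c0 : K) (hc0 : c0 ∈ S)
    (hns : ¬ ∃ a : L, ∀ v, ρ c0 v = a • v) :
    ∃ (X : Type (max u v)) (_ : Finite X) (_ : MulAction K X) (A : X → Submodule L V),
      (∀ g x, ∀ v ∈ A x, ρ g v ∈ A (g • x)) ∧ (∀ x, A x ≠ ⊤) ∧ iSupIndep A ∧ iSup A = ⊤ := by
  let _ := cjAct S hS
  let _ : MulAction K (S → L) := arrowAction
  obtain ⟨v, hv, hv2⟩ := exists_joint (ρ '' S) (by
    rintro _ ⟨c, hc, rfl⟩ _ ⟨c', hc', rfl⟩
    exact hcomm c hc c' hc')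
  choose! a ha using hv2
  let χ0 : S → L := fun c => a (ρ c.1)
  let E : (S → L) → Submodule L V := fun χ => ⨅ c : S, (ρ c.1).eigenspace (χ c)
  have hE : ∀ χ v, v ∈ E χ ↔ ∀ c : S, ρ c.1 v = χ c • v := by
    intro χ v
    simp only [E, Submodule.mem_iInf, Module.End.mem_eigenspace_iff]
  have hmaps : ∀ (g : K) (χ : S → L), ∀ v ∈ E χ, ρ g v ∈ E (g • χ) := by
    intro g χ v hv
    rw [hE] at hv ⊢
    intro c
    have h1 : (g • χ) c = χ (g⁻¹ • c) := rfl
    rw [h1, ← map_smul, ← hv]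
    have h2 : ((g⁻¹ • c : S) : K) = g⁻¹ * c.1 * g⁻¹⁻¹ := rfl
    rw [h2, inv_inv, ← Module.End.mul_apply, ← Module.End.mul_apply, ← map_mul, ← map_mul]
    congr 2
    group
  have hind : iSupIndep E := by
    have h1 := Module.End.independent_iInf_maxGenEigenspace_of_forall_mapsTo
      (fun c : S => ρ c.1) (by
        intro i j φ
        exact Module.End.mapsTo_maxGenEigenspace_of_comm (hcomm j.1 j.2 i.1 i.2) φ)
    apply h1.mono
    intro χ
    apply iInf_mono
    intro c
    exact (Module.End.genEigenspace (ρ c.1) (χ c)).mono le_top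
  let X := MulAction.orbit K χ0
  let A : X → Submodule L V := fun x => E x.1
  have hA : ∀ (g : K) (x : X), ∀ v ∈ A x, ρ g v ∈ A (g • x) := fun g x v hv => hmaps g x.1 v hv
  refine ⟨X, (Set.finite_range _).to_subtype, inferInstance, A, hA, ?_, ?_, ?_⟩
  · intro x hx
    apply hns
    refine ⟨x.1 ⟨c0, hc0⟩, fun v => ?_⟩
    have h1 : v ∈ A x := hx ▸ Submodule.mem_top
    exact (hE _ _).1 h1 ⟨c0, hc0⟩
  · exact hind.comp Subtype.val_injective
  · have h1 : iSup A ≠ ⊥ := by
      intro h2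
      have h3 : v ∈ A ⟨χ0, MulAction.mem_orbit_self _⟩ := by
        rw [hE]
        intro c
        exact ha _ ⟨c.1, c.2, rfl⟩
      have h4 := (le_iSup A ⟨χ0, MulAction.mem_orbit_self _⟩) h3
      rw [h2, Submodule.mem_bot] at h4
      exact hv h4
    have h2 : ∀ g, ∀ v ∈ iSup A, ρ g v ∈ iSup A := by
      intro g v hv
      refine Submodule.iSup_induction A (motive := fun v => ρ g v ∈ iSup A) hv ?_ ?_ ?_
      · intro x w hw
        exact (le_iSup A (g • x)) (hA g x w hw)
      · rw [map_zero]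
        exact Submodule.zero_mem _
      · intro x y hx hy
        rw [map_add]
        exact Submodule.add_mem _ hx hy
    exact (hirr _ h2).resolve_left h1

end prim

section main

/-- the class of groups having an abelian normal subgroup of `p`-power index -/
def Ep (p : ℕ) (K : Type*) [Group K] : Prop :=
  ∃ N : Subgroup K, N.Normal ∧ (∀ a ∈ N, ∀ b ∈ N, a * b = b * a) ∧ ∀ h : K, ∃ k, h ^ p ^ k ∈ N

lemma Ep.sub {p : ℕ} {K : Type*} [Group K] (h : Ep p K) (H : Subgroup K) : Ep p H := by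
  obtain ⟨N, hN, h1, h2⟩ := h
  refine ⟨N.subgroupOf H, inferInstance, ?_, ?_⟩
  · intro a ha b hb
    exact Subtype.ext (h1 a.1 (Subgroup.mem_subgroupOf.1 ha) b.1 (Subgroup.mem_subgroupOf.1 hb))
  · intro h
    obtain ⟨k, hk⟩ := h2 h.1
    exact ⟨k, Subgroup.mem_subgroupOf.2 hk⟩

universe u v

lemma pow_root {L : Type*} [Field L] {K : Type*} [Group K] {V : Type*} [AddCommGroup V]
    [Module L V] (ρ : K →* End L V) {M : ℕ} {g : K} (hg : g ^ M = 1) {v : V} (hv : v ≠ 0) {c : L}
    (hc : ρ g v = c • v) : c ^ M = 1 := by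
  have h1 : ∀ k : ℕ, ρ (g ^ k) v = c ^ k • v := by
    intro k
    induction k with
    | zero => rw [pow_zero, map_one, pow_zero, one_smul, Module.End.one_apply]
    | succ k ih =>
      rw [pow_succ, map_mul, Module.End.mul_apply, hc, map_smul, ih, smul_smul, pow_succ, mul_comm]
  have h2 := h1 M
  rw [hg, map_one, Module.End.one_apply] at h2
  have h3 : (c ^ M - 1) • v = 0 := by rw [sub_smul, one_smul, ← h2, sub_self]
  rcases smul_eq_zero.1 h3 with h | h
  · exact sub_eq_zero.1 h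
  · exact absurd h hv

/-- the elements acting by scalars -/
def scal {L : Type*} [Field L] {K : Type*} [Group K] {V : Type*} [AddCommGroup V]
    [Module L V] (ρ : K →* End L V) : Subgroup K where
  carrier := {g | ∃ a : L, ∀ v, ρ g v = a • v}
  one_mem' := ⟨1, fun v => by rw [map_one, one_smul, Module.End.one_apply]⟩
  mul_mem' := by
    rintro g h ⟨a, ha⟩ ⟨b, hb⟩
    exact ⟨b * a, fun v => by rw [map_mul, Module.End.mul_apply, hb, map_smul, ha, smul_smul]⟩
  inv_mem' := by
    rintro g ⟨a, ha⟩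
    refine ⟨a⁻¹, fun v => ?_⟩
    have h1 : ρ g (ρ g⁻¹ v) = v := by
      rw [← Module.End.mul_apply, ← map_mul, mul_inv_cancel, map_one, Module.End.one_apply]
    by_cases hv : v = 0
    · rw [hv, map_zero, smul_zero]
    · have h2 : a ≠ 0 := by
        rintro rfl
        rw [ha, zero_smul] at h1
        exact hv h1.symm
      rw [ha] at h1
      rw [← h1, smul_smul, inv_mul_cancel₀ h2, one_smul, h1]

lemma mem_scal {L : Type*} [Field L] {K : Type*} [Group K] {V : Type*} [AddCommGroup V]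
    [Module L V] (ρ : K →* End L V) (g : K) : g ∈ scal ρ ↔ ∃ a : L, ∀ v, ρ g v = a • v := Iff.rfl

lemma scal_comm {L : Type*} [Field L] {K : Type*} [Group K] {V : Type*} [AddCommGroup V]
    [Module L V] (ρ : K →* End L V) {g : K} (hg : g ∈ scal ρ) (f : End L V) :
    ρ g * f = f * ρ g := by
  obtain ⟨a, ha⟩ := hg
  ext v
  rw [Module.End.mul_apply, Module.End.mul_apply, ha, ha, map_smul]

instance scal_normal {L : Type*} [Field L] {K : Type*} [Group K] {V : Type*} [AddCommGroup V]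
    [Module L V] (ρ : K →* End L V) : (scal ρ).Normal := by
  constructor
  rintro g ⟨a, ha⟩ h
  refine ⟨a, fun v => ?_⟩
  rw [map_mul, map_mul, Module.End.mul_apply, Module.End.mul_apply, ha, map_smul,
    ← Module.End.mul_apply, ← map_mul, mul_inv_cancel, map_one, Module.End.one_apply]

/-- a normal set of commuting operators which are not all scalar -/
lemma exists_normal_set {L : Type*} [Field L] {p : ℕ} [Fact p.Prime] {K : Type*} [Group K]
    [Finite K] (hE : Ep p K) {V : Type*} [AddCommGroup V] [Module L V] (ρ : K →* End L V)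
    (hns : ¬ ∀ g, g ∈ scal ρ) : ∃ (S : Set K) (_ : ∀ g, ∀ c ∈ S, g * c * g⁻¹ ∈ S)
      (_ : ∀ c ∈ S, ∀ c' ∈ S, ρ c * ρ c' = ρ c' * ρ c) (c0 : K), c0 ∈ S ∧ c0 ∉ scal ρ := by
  obtain ⟨N, hN, h1, h2⟩ := hE
  by_cases hNs : N ≤ scal ρ
  · -- the group acts projectively through a `p`-group
    have hp : IsPGroup p (K ⧸ scal ρ) := by
      intro x
      obtain ⟨g, rfl⟩ := QuotientGroup.mk_surjective x
      obtain ⟨k, hk⟩ := h2 g
      refine ⟨k, ?_⟩
      rw [← QuotientGroup.mk_pow, QuotientGroup.eq_one_iff]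
      exact hNs hk
    have hnt : Nontrivial (K ⧸ scal ρ) := by
      rw [QuotientGroup.nontrivial_iff]
      intro h3
      apply hns
      intro g
      rw [h3]
      exact Subgroup.mem_top g
    have h3 := hp.center_nontrivial
    obtain ⟨⟨x, hx⟩, hx1⟩ := exists_ne (1 : Subgroup.center (K ⧸ scal ρ))
    obtain ⟨x, rfl⟩ := QuotientGroup.mk_surjective x
    have hxs : x ∉ scal ρ := by
      intro h4
      apply hx1
      apply Subtype.ext
      exact (QuotientGroup.eq_one_iff x).2 h4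
    rw [Subgroup.mem_center_iff] at hx
    -- conjugates of `x` are scalar multiples of `x`
    have h4 : ∀ g, ∃ z ∈ scal ρ, g * x * g⁻¹ = z * x := by
      intro g
      refine ⟨g * x * g⁻¹ * x⁻¹, ?_, by group⟩
      rw [← QuotientGroup.eq_one_iff]
      have h5 := hx (QuotientGroup.mk g)
      rw [QuotientGroup.mk_mul, QuotientGroup.mk_mul, QuotientGroup.mk_mul, h5]
      rw [QuotientGroup.mk_inv, QuotientGroup.mk_inv, mul_assoc (x : K ⧸ scal ρ), mul_inv_cancel,
        mul_one, mul_inv_cancel]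
    refine ⟨{c | ∃ g, c = g * x * g⁻¹}, ?_, ?_, x, ⟨1, by group⟩, hxs⟩
    · rintro g _ ⟨h, rfl⟩
      exact ⟨g * h, by group⟩
    · rintro _ ⟨g, rfl⟩ _ ⟨h, rfl⟩
      obtain ⟨z, hz, h5⟩ := h4 g
      obtain ⟨w, hw, h6⟩ := h4 h
      rw [h5, h6, map_mul, map_mul]
      have e1 := scal_comm ρ hz (ρ x)
      have e2 := scal_comm ρ hw (ρ x)
      have e3 := scal_comm ρ hz (ρ w)
      calc ρ z * ρ x * (ρ w * ρ x) = ρ z * (ρ x * ρ w) * ρ x := by noncomm_ring
        _ = ρ z * (ρ w * ρ x) * ρ x := by rw [e2]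
        _ = (ρ z * ρ w) * ρ x * ρ x := by noncomm_ring
        _ = (ρ w * ρ z) * ρ x * ρ x := by rw [e3]
        _ = ρ w * (ρ z * ρ x) * ρ x := by noncomm_ring
        _ = ρ w * (ρ x * ρ z) * ρ x := by rw [e1]
        _ = ρ w * ρ x * (ρ z * ρ x) := by noncomm_ring
  · obtain ⟨c0, hc0, hc1⟩ := SetLike.not_le_iff_exists.1 hNs
    refine ⟨N, fun g c hc => hN.conj_mem c hc g, ?_, c0, hc0, hc1⟩
    intro c hc c' hc'
    rw [← map_mul, h1 c hc c' hc', map_mul]

/-- **Representations over algebraically closed fields of groups with an abelian normal subgroup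
of `p`-power index** -/
theorem mt_main {L : Type*} [Field L] [IsAlgClosed L] {p : ℕ} [Fact p.Prime] {M : ℕ} :
    ∀ (d : ℕ) (K : Type u) [Group K] [Finite K] (_ : Ep p K) (_ : ∀ g : K, g ^ M = 1)
      (V : Type v) [AddCommGroup V] [Module L V] [FiniteDimensional L V] (_ : finrank L V = d)
      (ρ : K →* End L V), Mt M ρ := by
  classical
  intro d
  induction d using Nat.strong_induction_on with
  | _ d ih =>
  intro K _ _ hE hM V _ _ _ hd ρ
  by_cases hirr : ∀ W : Submodule L V, (∀ g, ∀ v ∈ W, ρ g v ∈ W) → W = ⊥ ∨ W = ⊤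
  swap
  · push Not at hirr
    obtain ⟨W, hW, hW0, hW1⟩ := hirr
    apply Mt.ext ρ W hW
    · refine ih (finrank L W) ?_ K hE hM W rfl _
      rw [← hd]
      exact Submodule.finrank_lt hW1
    · refine ih (finrank L (V ⧸ W)) ?_ K hE hM (V ⧸ W) rfl _
      rw [← hd]
      have h1 := Submodule.finrank_quotient_add_finrank W
      have h2 : 1 ≤ finrank L W := Submodule.one_le_finrank_iff.2 hW0
      omega
  by_cases hns : ∀ g, g ∈ scal ρ
  · -- scalars
    let b := Module.finBasis L V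
    refine ⟨_, b, fun _ => 0, fun g j => ⟨j, rfl, ?_⟩⟩
    obtain ⟨a, ha⟩ := hns g
    refine ⟨a, pow_root ρ (hM g) (b.ne_zero j) (ha _), ?_⟩
    rw [ha, sub_self]
    exact Submodule.zero_mem _
  -- the imprimitive case
  have hV : Nontrivial V := by
    by_contra hV
    rw [not_nontrivial_iff_subsingleton] at hV
    exact hns (fun g => ⟨1, fun v => Subsingleton.elim _ _⟩)
  obtain ⟨S, hS1, hS2, c0, hc0, hc1⟩ := exists_normal_set hE ρ hns
  obtain ⟨X, hXf, hXa, A, hA, hAt, hi1, hi2⟩ := exists_imprim ρ hirr S hS1 hS2 c0 hc0 hc1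
  apply Mt.ind ρ A (DirectSum.isInternal_submodule_of_iSupIndep_of_iSup_eq_top hi1 hi2) hA
  intro x
  refine ih (finrank L (A x)) ?_ _ (hE.sub _) (fun g => Subtype.ext (hM g.1)) (A x) rfl _
  rw [← hd]
  exact Submodule.finrank_lt (hAt x)

end main

end Pool.Agent.Y72.Dt
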