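import Pool.Agent.Y72.Dt.Key

/-!
# Letters with coefficients zero and one
-/

set_option autoImplicit false
set_option linter.unusedSectionVars false

namespace Pool.Agent.Y72.Dt

open Finset H219.Wh Pool.Agent.Y72.Log
open Pool.Agent.H23R2 (InvPair IsCoc DsumZ cf supp invPair_units)
open scoped Classical

variable {I : Type*} [Fintype I] {Γ : Type*} [Group Γ] {M : Type*} [AddCommGroup M]

/-- the letters -/
def lettp (a : I → I → Γ → ℤ) (T : Finset Γ) (q : ℕ) : I → I → (T × Fin q) → ℤ := fun i j s =>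
  if ((s.2 : ℕ) : ℤ) < a i j s.1 % (q : ℤ) then 1 else 0

lemma sum_lettp (a : I → I → Γ → ℤ) (T : Finset Γ) {q : ℕ} (hq : 0 < q) (i j : I) (x : T) :
    ∑ k : Fin q, lettp a T q i j (x, k) = a i j x % (q : ℤ) := by
  have hq' : (0 : ℤ) < q := by exact_mod_cast hq
  obtain ⟨r, hr⟩ := Int.eq_ofNat_of_zero_le (Int.emod_nonneg (a i j x) hq'.ne')
  have hrq : r < q := by
    have h1 := Int.emod_lt_of_pos (a i j x) hq'
    rw [hr] at h1
    exact_mod_cast h1
  have h0 : ∀ k : Fin q, lettp a T q i j (x, k) = if (k : ℕ) < r then 1 else 0 := by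
    intro k
    unfold lettp
    show (if ((k : ℕ) : ℤ) < a i j x % (q : ℤ) then (1 : ℤ) else 0) = _
    by_cases hk : (k : ℕ) < r
    · rw [if_pos hk, if_pos (by rw [hr]; exact_mod_cast hk)]
    · rw [if_neg hk, if_neg (by rw [hr]; exact_mod_cast hk)]
  rw [Finset.sum_congr rfl (fun k _ => h0 k), hr]
  rw [Fin.sum_univ_eq_sum_range (fun k => if k < r then (1 : ℤ) else 0) q]
  rw [← Finset.sum_filter]
  have h : (Finset.range q).filter (fun k => k < r) = Finset.range r := by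
    ext k
    simp only [Finset.mem_filter, Finset.mem_range]
    omega
  rw [h, Finset.sum_const, Finset.card_range, nsmul_eq_mul, mul_one]

lemma lettp_pow {p : ℕ} (hp : p ≠ 0) (a : I → I → Γ → ℤ) (T : Finset Γ) (q : ℕ) (i j : I)
    (s : T × Fin q) : lettp a T q i j s ^ p = lettp a T q i j s := by
  unfold lettp
  split_ifs
  · exact one_pow p
  · exact zero_pow hp

lemma sum_lettersp (a b : I → I → Γ → ℤ) (T : Finset Γ) {q : ℕ} (hq : 0 < q)
    (i j i' j' : I) (G : Γ → Γ → M) :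
    ∑ s : T × Fin q, ∑ t : T × Fin q, (lettp a T q i j s * lettp b T q i' j' t) •
      G (grl T q s) (grl T q t) =
      ∑ x ∈ T, ∑ y ∈ T, ((a i j x % (q : ℤ)) * (b i' j' y % (q : ℤ))) • G x y := by
  rw [Fintype.sum_prod_type, ← Finset.sum_coe_sort T]
  apply Finset.sum_congr rfl
  intro x _
  have h1 : ∀ k : Fin q, ∑ t : T × Fin q, (lettp a T q i j (x, k) * lettp b T q i' j' t) •
      G (grl T q (x, k)) (grl T q t) =
      lettp a T q i j (x, k) • ∑ y : T, (b i' j' y % (q : ℤ)) • G x y := by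
    intro k
    rw [Fintype.sum_prod_type, Finset.smul_sum]
    apply Finset.sum_congr rfl
    intro y _
    simp only [grl, mul_smul]
    rw [← Finset.smul_sum, ← Finset.sum_smul, sum_lettp b T hq i' j' y]
  simp_rw [h1]
  rw [← Finset.sum_smul, sum_lettp a T hq i j x, ← Finset.sum_coe_sort T,
    Finset.smul_sum]
  apply Finset.sum_congr rfl
  intro y _
  rw [mul_smul]

lemma cast_emod (q : ℕ) (a : ℤ) : ((a % (q : ℤ) : ℤ) : ZMod q) = (a : ZMod q) := by
  rw [ZMod.intCast_mod]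

lemma ip_halfp {a b : I → I → Γ → ℤ} {T : Finset Γ} {q : ℕ} (hq : 0 < q)
    (h : ∀ i i' g, ∑ j, ∑ x ∈ T, ∑ y ∈ T, (if x * y = g then a i j x * b j i' y else 0)
      = if i = i' ∧ g = 1 then 1 else 0) (i i' : I) (g : Γ) :
    ((∑ j, ∑ s, ∑ t, (if grl T q s * grl T q t = g then
      lettp a T q i j s * lettp b T q j i' t else 0) : ℤ) : ZMod q)
      = ((if i = i' ∧ g = 1 then 1 else 0 : ℤ) : ZMod q) := by
  rw [← h i i' g, Int.cast_sum, Int.cast_sum]
  apply Finset.sum_congr rfl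
  intro j _
  have h1 := sum_lettersp a b T hq i j j i' (fun x y => if x * y = g then (1 : ℤ) else 0)
  simp only [smul_eq_mul, mul_ite, mul_one, mul_zero] at h1
  rw [h1, Int.cast_sum, Int.cast_sum]
  apply Finset.sum_congr rfl
  intro x _
  rw [Int.cast_sum, Int.cast_sum]
  apply Finset.sum_congr rfl
  intro y _
  split_ifs
  · rw [Int.cast_mul, Int.cast_mul, cast_emod, cast_emod]
  · rfl

lemma ipm_of_invPair {a b : I → I → Γ → ℤ} {T : Finset Γ} (h : InvPair a b T) {q : ℕ}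
    (hq : 0 < q) : IPm q (grl T q) (lettp a T q) (lettp b T q) :=
  ⟨fun i i' g => ip_halfp hq h.ab i i' g, fun i i' g => ip_halfp hq h.ba i i' g⟩

lemma Dsum_lettp (a b : I → I → Γ → ℤ) (T : Finset Γ) {q : ℕ} (hq : 0 < q)
    (hM : ∀ x : M, q • x = 0) (F : Γ → Γ → M) :
    Dsum (grl T q) (lettp a T q) (lettp b T q) F = DsumZ a b T F := by
  unfold Dsum DsumZ
  rw [Fintype.sum_prod_type, Fintype.sum_prod_type]
  apply Finset.sum_congr rfl
  intro i _
  rw [Fintype.sum_prod_type, Fintype.sum_prod_type]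
  apply Finset.sum_congr rfl
  intro j _
  have h1 := sum_lettersp a b T hq i j j i (fun x y => F (x * y) x)
  have e1 : ∑ x : (T × Fin q) × (T × Fin q), (lettp a T q i j x.1 * lettp b T q j i x.2) •
      F (grl T q x.1 * grl T q x.2) (grl T q x.1) =
      ∑ s : T × Fin q, ∑ t : T × Fin q, (lettp a T q i j s * lettp b T q j i t) •
        F (grl T q s * grl T q t) (grl T q s) := Fintype.sum_prod_type _
  refine e1.trans ?_
  rw [h1, Fintype.sum_prod_type, ← Finset.sum_coe_sort T]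
  apply Finset.sum_congr rfl
  intro x _
  rw [← Finset.sum_coe_sort T]
  apply Finset.sum_congr rfl
  intro y _
  apply zsmul_congr hM
  rw [Int.cast_mul, Int.cast_mul, cast_emod, cast_emod]

/-- the pairing of a cocycle with an invertible matrix -/
noncomputable def PD {n : ℕ} (A : (Matrix (Fin n) (Fin n) (MonoidAlgebra ℤ Γ))ˣ)
    (F : Γ → Γ → M) : M :=
  DsumZ (cf A.val) (cf (A⁻¹).val) (supp A.val ∪ supp (A⁻¹).val) F

/-- **The Frobenius relation with diagonal term for an invertible matrix over the group ring** -/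
theorem relA {n : ℕ} (A : (Matrix (Fin n) (Fin n) (MonoidAlgebra ℤ Γ))ˣ) {p : ℕ} (hp : p.Prime)
    (i : ℕ) : ∃ (Y : Γ → ℤ) (W : Finset Γ), ∀ (M : Type) [AddCommGroup M],
      (∀ x : M, (p ^ (i + 1)) • x = 0) → ∀ F : Γ → Γ → M, IsCoc F →
        PD A F = PD A (fun w x => F (w ^ p) x) + ∑ w ∈ W, Y w • F w w := by
  haveI : Fact p.Prime := ⟨hp⟩
  have hq : 0 < p ^ (2 * (i + 1)) := pow_pos hp.pos _
  obtain ⟨l, hl⟩ := exists_phase' (N := p ^ (i + 1))
    (Yy (Fin n) ((supp A.val ∪ supp (A⁻¹).val : Finset Γ) × Fin (p ^ (2 * (i + 1)))))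
  refine ⟨lgc (grl (supp A.val ∪ supp (A⁻¹).val) (p ^ (2 * (i + 1))))
    (lettp (cf A.val) (supp A.val ∪ supp (A⁻¹).val) (p ^ (2 * (i + 1))))
    (lettp (cf (A⁻¹).val) (supp A.val ∪ supp (A⁻¹).val) (p ^ (2 * (i + 1)))) p i l,
    (Finset.univ : Finset (ZMod (p ^ (i + 1)) → Yy (Fin n)
      ((supp A.val ∪ supp (A⁻¹).val : Finset Γ) × Fin (p ^ (2 * (i + 1)))))).image
      (fun o => Pool.Agent.H23R2.W (UU (grl (supp A.val ∪ supp (A⁻¹).val)
        (p ^ (2 * (i + 1)))) o) 0), ?_⟩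
  intro M _ hM F hF
  have hqM : ∀ x : M, (p ^ (2 * (i + 1))) • x = 0 := by
    intro x
    rw [two_mul, pow_add, mul_smul, hM]
  have h1 := rel (M := M) (dvd_refl _) (ipm_of_invPair (invPair_units A) hq)
    (lettp_pow hp.ne_zero _ _ _) (lettp_pow hp.ne_zero _ _ _) hM l hl hF
  rw [Dsum_lettp _ _ _ hq hqM, Dsum_lettp _ _ _ hq hqM] at h1
  exact h1

end Pool.Agent.Y72.Dt
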