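import Pool.Agent.Y72.Dt.Fin

/-!
# Signs: monomial representations and permutation representations
-/

set_option autoImplicit false
set_option linter.unusedSectionVars false

namespace Pool.Agent.Y72.Dt

open Pool.Agent.Y72.Log Module MulAction
open scoped Kronecker

universe u v

section sgn

variable {G : Type u} [Group G] {n : Type} [Fintype n] [DecidableEq n]

/-- the trivial representation -/
def trv (G : Type u) [Group G] (R : Type*) [CommRing R] : G →* Matrix Unit Unit R := 1

/-- the determinant in a permutation representation -/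
noncomputable def sX (A : Matrix n n (MonoidAlgebra ℤ G)) (X : Type*) [Fintype X]
    [MulAction G X] : ℤ :=
  let _ : DecidableEq X := Classical.decEq X
  DD (tns X (trv G ℤ)) A

lemma sX_dec (A : Matrix n n (MonoidAlgebra ℤ G)) (X : Type*) [Fintype X] [hd : DecidableEq X]
    [MulAction G X] : DD (tns X (trv G ℤ)) A = sX A X := by
  have h : hd = Classical.decEq X := Subsingleton.elim _ _
  subst h
  rfl

lemma trv_apply {R : Type*} [CommRing R] (g : G) (i j : Unit) : trv G R g i j = 1 := by
  show (1 : Matrix Unit Unit R) i j = 1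
  rw [Matrix.one_apply, if_pos (Subsingleton.elim _ _)]

lemma trv_chg {R S : Type*} [CommRing R] [CommRing S] (f : R →+* S) :
    chg f (trv G R) = trv G S := by
  ext g i j
  rw [chg_apply, trv_apply, trv_apply, map_one]

lemma tns_chg {R S : Type*} [CommRing R] [CommRing S] (f : R →+* S) (X : Type*) [Fintype X]
    [DecidableEq X] [MulAction G X] {ι : Type*} [Fintype ι] [DecidableEq ι]
    (ρ : G →* Matrix ι ι R) : chg f (tns X ρ) = tns X (chg f ρ) := by
  ext g i j
  rw [chg_apply, tns_apply, tns_apply, chg_apply, map_mul]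
  split_ifs <;> simp

lemma sX_cast (A : Matrix n n (MonoidAlgebra ℤ G)) (X : Type*) [Fintype X] [DecidableEq X]
    [MulAction G X] (R : Type*) [CommRing R] :
    ((sX A X : ℤ) : R) = DD (tns X (trv G R)) A := by
  have h1 := DD_chg (Int.castRingHom R) (tns X (trv G ℤ)) A
  rw [tns_chg, trv_chg, sX_dec] at h1
  exact h1.symm

lemma sX_congr [Finite G] (A : Matrix n n (MonoidAlgebra ℤ G)) (X Y : Type*) [Fintype X]
    [Fintype Y] [MulAction G X] [MulAction G Y]
    (h : ∀ g : G, Nat.card (fixedBy X g) = Nat.card (fixedBy Y g)) : sX A X = sX A Y := by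
  classical
  cases nonempty_fintype G
  rw [← sX_dec, ← sX_dec]
  exact DD_tns_eq X Y _ A h

lemma sX_equiv [Finite G] (A : Matrix n n (MonoidAlgebra ℤ G)) (X Y : Type*) [Fintype X]
    [Fintype Y] [MulAction G X] [MulAction G Y] (e : X ≃ Y) (he : ∀ (g : G) x, e (g • x) = g • e x) :
    sX A X = sX A Y := by
  apply sX_congr
  intro g
  refine Nat.card_congr (e.subtypeEquiv fun x => ?_)
  show g • x = x ↔ g • e x = e x
  rw [← he, e.apply_eq_iff_eq]

lemma sX_sum (A : Matrix n n (MonoidAlgebra ℤ G)) (X Y : Type*) [Fintype X]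
    [Fintype Y] [MulAction G X] [MulAction G Y] : sX A (X ⊕ Y) = sX A X * sX A Y := by
  classical
  rw [← sX_dec, ← sX_dec, ← sX_dec]
  exact DD_tns_sum X Y _ A

lemma sX_pm [Finite G] {A : Matrix n n (MonoidAlgebra ℤ G)} (hA : TorOK.{u, 0} A) (X : Type*)
    [Fintype X] [MulAction G X] : sX A X = 1 ∨ sX A X = -1 := by
  classical
  have h1 := fin_main (L := ℂ) hA (rei (Fintype.equivFin (Unit × X)) (tns X (trv G ℂ)))
  have h2 : DD (rei (Fintype.equivFin (Unit × X)) (tns X (trv G ℂ))) A = ((sX A X : ℤ) : ℂ) := by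
    rw [DD_rei]
    exact (sX_cast A X ℂ).symm
  rw [h2] at h1
  rcases h1 with h | h
  · left
    exact_mod_cast h
  · right
    have : ((sX A X : ℤ) : ℂ) = ((-1 : ℤ) : ℂ) := by rw [h]; push_cast; rfl
    exact_mod_cast this

end sgn

section mono

variable {G : Type u} [Group G] {n : Type} [Fintype n] [DecidableEq n]
  {A : Matrix n n (MonoidAlgebra ℤ G)} {L : Type v} [Field L] {M : ℕ} [NeZero M]

/-- augmentation -/
noncomputable def augT (T : Type*) [CommGroup T] : MonoidAlgebra ℤ T →+* ℤ :=
  (MonoidAlgebra.lift ℤ ℤ T 1).toRingHom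

lemma augT_single {T : Type*} [CommGroup T] (t : T) (a : ℤ) :
    augT T (MonoidAlgebra.single t a) = a := by
  show MonoidAlgebra.lift ℤ ℤ T 1 (MonoidAlgebra.single t a) = a
  rw [MonoidAlgebra.lift_single]
  simp

open scoped Classical in
/-- **monomial representations and permutation representations have the same sign** -/
theorem DD_mono_set (hA : TorOK.{u, v} A) {κ : Type*} [Fintype κ] [DecidableEq κ] [MulAction G κ]
    (σ : G →* Matrix κ κ L)
    (hm : ∀ (g : G) j, ∃ c : L, c ^ M = 1 ∧ ∀ k, σ g k j = if k = g • j then c else 0) :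
    DD σ A = ((sX A κ : ℤ) : L) := by
  have hm' : ∀ g j, ∃ i, ∃ c : L, c ^ M = 1 ∧ ∀ k, σ g k j = if k = i then c else 0 := by
    intro g j
    obtain ⟨c, hc, h⟩ := hm g j
    exact ⟨g • j, c, hc, h⟩
  have h1 := hA (rootsOfUnity M L) (Fintype.card κ) (rei (Fintype.equivFin κ) (mlift σ hm'))
  rw [DD_rei] at h1
  have h2 : DD σ A = evr M L (DD (mlift σ hm') A) := by
    rw [← DD_chg, chg_mlift]
  have e : chg (augT _) (mlift σ hm') = rei (Equiv.punitProd κ) (tns κ (trv G ℤ)) := by
    ext g i j
    obtain ⟨c, hc, h⟩ := hm g j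
    have e1 : chg (augT _) (mlift σ hm') g i j = augT _ (lam M (σ g i j)) := rfl
    have e2 : rei (Equiv.punitProd κ) (tns κ (trv G ℤ)) g i j =
        trv G ℤ g () () * (if i = g • j then 1 else 0) := rfl
    rw [e1, e2, trv_apply, one_mul, h i]
    split_ifs with hij
    · rw [lam_root hc, augT_single]
    · rw [lam_zero, map_zero]
  have h3 : augT _ (DD (mlift σ hm') A) = sX A κ := by
    rw [← DD_chg, e, DD_rei]
    exact sX_dec A κ
  rw [h2, ← h3]
  rcases h1 with h | h
  · rw [h, map_one, map_one, Int.cast_one]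
  · rw [h, map_neg, map_one, map_neg, map_one, Int.cast_neg, Int.cast_one]

end mono

end Pool.Agent.Y72.Dt
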