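import Pool.Agent.Y72.Dt.Sg1
import Pool.Agent.Y72.Dt.Par

/-!
# Fourier transform on affine bundles
-/

set_option autoImplicit false
set_option linter.unusedSectionVars false

namespace Pool.Agent.Y72.Dt

open Pool.Agent.Y72.Log Module MulAction
open scoped Kronecker

universe u v

section aff

variable {G : Type u} [Group G]

/-- an action of `G` on `Z × C` by affine maps of the fibres -/
structure Aff (G Z C : Type*) [Group G] [MulAction G Z] [CommGroup C] where
  α : G → Z → C →* C
  τ : G → Z → C
  one : ∀ z x, α 1 z x = x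
  mul : ∀ g h z x, α (g * h) z x = α g (h • z) (α h z x)
  tau : ∀ g h z, τ (g * h) z = τ g (h • z) * α g (h • z) (τ h z)

variable {Z C : Type*} [MulAction G Z] [CommGroup C]

/-- the bundle -/
def YY (_ : Aff G Z C) := Z × C

/-- the dual bundle -/
def XX (_ : Aff G Z C) := Z × AddChar (Additive C) ℂ

variable (D : Aff G Z C)

instance [Fintype Z] [Fintype C] : Fintype (YY D) := inferInstanceAs (Fintype (Z × C))

noncomputable instance [Fintype Z] [Fintype C] : Fintype (XX D) :=
  inferInstanceAs (Fintype (Z × AddChar (Additive C) ℂ))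

lemma Aff.tau_one (z : Z) : D.τ 1 z = 1 := by
  have h := D.tau 1 1 z
  rw [one_mul, one_smul, D.one] at h
  exact (left_eq_mul.1 h)

lemma Aff.inv_left (g : G) (z : Z) (x : C) : D.α g⁻¹ (g • z) (D.α g z x) = x := by
  rw [← D.mul, inv_mul_cancel, D.one]

lemma Aff.inv_right (g : G) (z : Z) (x : C) : D.α g z (D.α g⁻¹ (g • z) x) = x := by
  have h := D.mul g g⁻¹ (g • z) x
  rw [mul_inv_cancel, D.one, inv_smul_smul] at h
  exact h.symm

instance : MulAction G (YY D) where
  smul g y := (g • y.1, D.τ g y.1 * D.α g y.1 y.2)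
  one_smul y := by
    show ((1 : G) • y.1, D.τ 1 y.1 * D.α 1 y.1 y.2) = y
    rw [D.tau_one, D.one, one_mul, one_smul]
    rfl
  mul_smul g h y := by
    show ((g * h) • y.1, D.τ (g * h) y.1 * D.α (g * h) y.1 y.2) =
      (g • h • y.1, D.τ g (h • y.1) * D.α g (h • y.1) (D.τ h y.1 * D.α h y.1 y.2))
    rw [D.tau, D.mul, map_mul, mul_smul, mul_assoc]

lemma YY_smul (g : G) (y : YY D) : g • y = (g • y.1, D.τ g y.1 * D.α g y.1 y.2) := rfl

instance : MulAction G (XX D) where
  smul g x := (g • x.1, x.2.compAddMonoidHom (MonoidHom.toAdditive (D.α g⁻¹ (g • x.1))))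
  one_smul x := by
    show ((1 : G) • x.1, x.2.compAddMonoidHom (MonoidHom.toAdditive (D.α 1⁻¹ ((1 : G) • x.1)))) = x
    refine Prod.ext (one_smul _ _) ?_
    ext a
    show x.2 (Additive.ofMul (D.α 1⁻¹ ((1 : G) • x.1) a.toMul)) = x.2 a
    rw [inv_one, D.one, ofMul_toMul]
  mul_smul g h x := by
    refine Prod.ext (mul_smul _ _ _) ?_
    ext a
    show x.2 (Additive.ofMul (D.α (g * h)⁻¹ ((g * h) • x.1) a.toMul)) =
      x.2 (Additive.ofMul (D.α h⁻¹ (h • x.1) (D.α g⁻¹ (g • h • x.1) a.toMul)))
    rw [mul_inv_rev, D.mul, mul_smul, inv_smul_smul]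

lemma XX_smul_fst (g : G) (x : XX D) : (g • x).1 = g • x.1 := rfl

lemma XX_smul_snd (g : G) (x : XX D) (a : C) :
    chm (g • x).2 a = chm x.2 (D.α g⁻¹ (g • x.1) a) := rfl

end aff

section fourier

variable {G : Type u} [Group G] {Z C : Type*} [MulAction G Z] [CommGroup C] (D : Aff G Z C)
  [Fintype Z] [Fintype C] [DecidableEq Z] [DecidableEq C] [DecidableEq (YY D)]
  [DecidableEq (XX D)]

/-- the Fourier matrix -/
noncomputable def PP : Matrix (YY D) (XX D) ℂ :=
  Matrix.of fun y x => if y.1 = x.1 then chm x.2 y.2⁻¹ else 0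

/-- the inverse Fourier matrix -/
noncomputable def QQ : Matrix (XX D) (YY D) ℂ :=
  Matrix.of fun x y => if x.1 = y.1 then chm x.2 y.2 / (Fintype.card C : ℂ) else 0

lemma sum_chm (c : C) : ∑ ψ : AddChar (Additive C) ℂ, chm ψ c =
    if c = 1 then (Fintype.card C : ℂ) else 0 := by
  classical
  have h := AddChar.sum_apply_eq_ite (Additive.ofMul c)
  have h2 : Fintype.card (Additive C) = Fintype.card C := Fintype.card_congr Additive.toMul
  rw [h2] at h
  refine h.trans ?_
  by_cases hc : c = 1
  · rw [if_pos hc, if_pos (by rw [hc]; rfl)]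
  · rw [if_neg hc, if_neg (fun h0 : Additive.ofMul c = 0 => hc (Additive.ofMul.injective h0))]

omit [DecidableEq Z] in
lemma PP_mul_QQ [DecidableEq Z] : PP D * QQ D = 1 := by
  ext ⟨z, c⟩ ⟨z', c'⟩
  rw [Matrix.mul_apply]
  have hC : (Fintype.card C : ℂ) ≠ 0 := Nat.cast_ne_zero.2 Fintype.card_ne_zero
  have h1 : ∑ x : XX D, PP D (z, c) x * QQ D x (z', c') =
      ∑ w : Z, ∑ ψ : AddChar (Additive C) ℂ, (if z = w then chm ψ c⁻¹ else 0) *
        (if w = z' then chm ψ c' / (Fintype.card C : ℂ) else 0) :=
    Fintype.sum_prod_type (fun x : Z × AddChar (Additive C) ℂ =>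
      PP D (z, c) x * QQ D x (z', c'))
  rw [h1, Finset.sum_eq_single z]
  · by_cases hz : z = z'
    · have h2 : ∀ ψ : AddChar (Additive C) ℂ, (if z = z then chm ψ c⁻¹ else 0) *
          (if z = z' then chm ψ c' / (Fintype.card C : ℂ) else 0) =
          chm ψ (c⁻¹ * c') * (Fintype.card C : ℂ)⁻¹ := by
        intro ψ
        rw [if_pos rfl, if_pos hz, map_mul]
        ring
      rw [Finset.sum_congr rfl (fun ψ _ => h2 ψ), ← Finset.sum_mul, sum_chm]
      by_cases hc : c = c'
      · rw [if_pos (by rw [hc, inv_mul_cancel]), mul_inv_cancel₀ hC, hz, hc]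
        exact (Matrix.one_apply_eq (n := YY D) _).symm
      · rw [if_neg (fun h => hc (inv_mul_eq_one.1 h)), zero_mul]
        exact (Matrix.one_apply_ne (n := YY D)
          (fun h => hc (congrArg (fun w : YY D => w.2) h))).symm
    · rw [Finset.sum_eq_zero]
      · exact (Matrix.one_apply_ne (n := YY D)
          (fun h => hz (congrArg (fun w : YY D => w.1) h))).symm
      · intro ψ _
        rw [if_neg hz, mul_zero]
  · intro w _ hw
    apply Finset.sum_eq_zero
    intro ψ _
    rw [if_neg (Ne.symm hw), zero_mul]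
  · intro h
    exact absurd (Finset.mem_univ _) h

lemma card_YX : Fintype.card (YY D) = Fintype.card (XX D) := by
  show Fintype.card (Z × C) = Fintype.card (Z × AddChar (Additive C) ℂ)
  rw [Fintype.card_prod, Fintype.card_prod, AddChar.card_eq]
  congr 1
  exact Fintype.card_congr Additive.ofMul

lemma QQ_mul_PP : QQ D * PP D = 1 :=
  (Matrix.mul_eq_one_comm_of_card_eq (YY D) (XX D) ℂ (card_YX D)).1 (PP_mul_QQ D)

/-- permutation representations -/
noncomputable def pmr (X : Type*) [Fintype X] [DecidableEq X] [MulAction G X] (R : Type*)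
    [CommRing R] : G →* Matrix X X R where
  toFun g := pm X R g
  map_one' := pm_one X
  map_mul' g h := pm_mul X g h

lemma DD_pmr {n : Type} [Fintype n] [DecidableEq n] (A : Matrix n n (MonoidAlgebra ℤ G))
    (X : Type*) [Fintype X] [DecidableEq X] [MulAction G X] (R : Type*) [CommRing R] :
    DD (pmr X R) A = ((sX A X : ℤ) : R) := by
  rw [sX_cast, ← DD_rei (Equiv.punitProd X) (tns X (trv G R))]
  congr 1
  ext g i j
  have e : rei (Equiv.punitProd X) (tns X (trv G R)) g i j =
      trv G R g () () * (if i = g • j then 1 else 0) := rfl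
  rw [e, trv_apply, one_mul]
  rfl

/-- the monomial representation on the dual bundle -/
noncomputable def theta : G →* Matrix (XX D) (XX D) ℂ where
  toFun g := QQ D * pmr (YY D) ℂ g * PP D
  map_one' := by rw [map_one, Matrix.mul_one, QQ_mul_PP]
  map_mul' g h := by
    rw [map_mul]
    calc QQ D * (pmr (YY D) ℂ g * pmr (YY D) ℂ h) * PP D =
        QQ D * pmr (YY D) ℂ g * (1 : Matrix (YY D) (YY D) ℂ) * pmr (YY D) ℂ h * PP D := by
          rw [Matrix.mul_one]
          simp only [Matrix.mul_assoc]
      _ = QQ D * pmr (YY D) ℂ g * (PP D * QQ D) * pmr (YY D) ℂ h * PP D := by rw [PP_mul_QQ]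
      _ = _ := by simp only [Matrix.mul_assoc]

lemma theta_apply (g : G) (x : XX D) : ∃ c : ℂ, c ^ Fintype.card C = 1 ∧
    ∀ x', theta D g x' x = if x' = g • x then c else 0 := by
  classical
  have hC : (Fintype.card C : ℂ) ≠ 0 := Nat.cast_ne_zero.2 Fintype.card_ne_zero
  refine ⟨chm (g • x).2 (D.τ g x.1), ?_, fun x' => ?_⟩
  · rw [← map_pow, pow_card_eq_one, map_one]
  · have h1 : theta D g x' x = ∑ y : YY D, QQ D x' (g • y) * PP D y x := by
      show (QQ D * pmr (YY D) ℂ g * PP D) x' x = _
      rw [Matrix.mul_apply]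
      apply Finset.sum_congr rfl
      intro y _
      congr 1
      rw [Matrix.mul_apply, Finset.sum_eq_single (g • y)]
      · show _ * (if g • y = g • y then 1 else 0) = _
        rw [if_pos rfl, mul_one]
      · intro y' _ hy'
        show _ * (if y' = g • y then 1 else 0) = _
        rw [if_neg hy', mul_zero]
      · intro h
        exact absurd (Finset.mem_univ _) h
    have h2 : ∑ y : YY D, QQ D x' (g • y) * PP D y x =
        ∑ w : Z, ∑ c : C, (if x'.1 = g • w then chm x'.2 (D.τ g w * D.α g w c) /
          (Fintype.card C : ℂ) else 0) * (if w = x.1 then chm x.2 c⁻¹ else 0) :=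
      Fintype.sum_prod_type (α₁ := Z) (α₂ := C) (fun y : YY D => QQ D x' (g • y) * PP D y x)
    rw [h1, h2, Finset.sum_eq_single x.1]
    · by_cases hz : x'.1 = g • x.1
      · -- the character
        let φ : AddChar (Additive C) ℂ :=
          x'.2.compAddMonoidHom (MonoidHom.toAdditive (D.α g x.1)) - x.2
        have hφ : ∀ c : C, chm φ c = chm x'.2 (D.α g x.1 c) * chm x.2 c⁻¹ := by
          intro c
          show φ (Additive.ofMul c) = _
          rw [AddChar.sub_apply, AddChar.compAddMonoidHom_apply]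
          rfl
        have h3 : ∀ c : C, (if x'.1 = g • x.1 then chm x'.2 (D.τ g x.1 * D.α g x.1 c) /
            (Fintype.card C : ℂ) else 0) * (if x.1 = x.1 then chm x.2 c⁻¹ else 0) =
            (chm x'.2 (D.τ g x.1) / (Fintype.card C : ℂ)) * chm φ c := by
          intro c
          rw [if_pos hz, if_pos rfl, map_mul, hφ]
          ring
        have h4 : ∑ c : C, chm φ c = if φ = 0 then (Fintype.card C : ℂ) else 0 := by
          have h5 := AddChar.sum_eq_ite φ
          have h6 : Fintype.card (Additive C) = Fintype.card C := Fintype.card_congr Additive.toMul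
          rw [h6] at h5
          rw [← h5]
          exact Fintype.sum_equiv Additive.ofMul _ _ (fun c => rfl)
        rw [Finset.sum_congr rfl (fun c _ => h3 c), ← Finset.mul_sum, h4]
        have h5 : φ = 0 ↔ x' = g • x := by
          constructor
          · intro h
            refine Prod.ext hz ?_
            ext a
            have h6 : x'.2.compAddMonoidHom (MonoidHom.toAdditive (D.α g x.1)) = x.2 :=
              sub_eq_zero.1 h
            show x'.2 a = x.2 (Additive.ofMul (D.α g⁻¹ (g • x.1) a.toMul))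
            rw [← h6]
            show x'.2 a = x'.2 (Additive.ofMul (D.α g x.1 (D.α g⁻¹ (g • x.1) a.toMul)))
            rw [D.inv_right, ofMul_toMul]
          · intro h
            apply sub_eq_zero.2
            ext a
            rw [h]
            show x.2 (Additive.ofMul (D.α g⁻¹ (g • x.1) (D.α g x.1 a.toMul))) = x.2 a
            rw [D.inv_left, ofMul_toMul]
        by_cases h6 : x' = g • x
        · rw [if_pos (h5.2 h6), if_pos h6, div_mul_cancel₀ _ hC, h6]
        · rw [if_neg (fun h => h6 (h5.1 h)), if_neg h6, mul_zero]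
      · rw [if_neg (fun h : x' = g • x => hz (congrArg (fun w : XX D => w.1) h)),
          Finset.sum_eq_zero]
        intro c _
        rw [if_neg hz, zero_mul]
    · intro w _ hw
      apply Finset.sum_eq_zero
      intro c _
      rw [if_neg hw, mul_zero]
    · intro h
      exact absurd (Finset.mem_univ _) h

end fourier

section fmain

variable {G : Type u} [Group G] [Finite G] {n : Type} [Fintype n] [DecidableEq n]
  {A : Matrix n n (MonoidAlgebra ℤ G)} {Z C : Type*} [MulAction G Z] [CommGroup C]
  (D : Aff G Z C) [Fintype Z] [Fintype C]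

/-- **The Fourier transform preserves the sign** -/
theorem sX_fourier (hA : TorOK.{u, 0} A) : sX A (YY D) = sX A (XX D) := by
  classical
  have : NeZero (Fintype.card C) := ⟨Fintype.card_ne_zero⟩
  have h1 : DD (theta D) A = ((sX A (XX D) : ℤ) : ℂ) :=
    DD_mono_set (M := Fintype.card C) hA (theta D) (theta_apply D)
  have h2 : DD (theta D) A = DD (pmr (YY D) ℂ) A :=
    DD_conj (pmr (YY D) ℂ) (theta D) (QQ D) (PP D) (QQ_mul_PP D) (PP_mul_QQ D) (fun g => rfl) A
  rw [h2, DD_pmr] at h1
  exact_mod_cast h1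

end fmain

end Pool.Agent.Y72.Dt
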