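import Pool.Agent.Y72.Dt.Sg2

/-!
# Free involutions and odd affine bundles
-/

set_option autoImplicit false
set_option linter.unusedSectionVars false

namespace Pool.Agent.Y72.Dt

open Pool.Agent.Y72.Log Module MulAction

universe u v

lemma card_fix_sum' {G : Type*} [Group G] (X Y : Type*) [Finite X] [Finite Y] [MulAction G X]
    [MulAction G Y] (g : G) :
    Nat.card (fixedBy (X ⊕ Y) g) = Nat.card (fixedBy X g) + Nat.card (fixedBy Y g) := by
  rw [← Nat.card_sum]
  refine Nat.card_congr
    { toFun := fun x => match x with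
        | ⟨Sum.inl a, h⟩ => Sum.inl ⟨a, Sum.inl_injective h⟩
        | ⟨Sum.inr a, h⟩ => Sum.inr ⟨a, Sum.inr_injective h⟩
      invFun := fun x => match x with
        | Sum.inl a => ⟨Sum.inl a.1, congrArg Sum.inl a.2⟩
        | Sum.inr a => ⟨Sum.inr a.1, congrArg Sum.inr a.2⟩
      left_inv := ?_
      right_inv := ?_ }
  · rintro ⟨a | a, h⟩ <;> rfl
  · rintro (a | a) <;> rfl

section inv

variable {G : Type u} [Group G] [Finite G] {n : Type} [Fintype n] [DecidableEq n]
  {A : Matrix n n (MonoidAlgebra ℤ G)}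

section act

variable {W : Type*} [MulAction G W] (θ : W → W) (h1 : ∀ w, θ (θ w) = w) (h2 : ∀ w, θ w ≠ w)
  (h3 : ∀ (g : G) w, θ (g • w) = g • θ w)

/-- the action of the signs -/
noncomputable def ac (e : ℤˣ) (w : W) : W := if e = 1 then w else θ w

lemma ac_one (w : W) : ac θ 1 w = w := if_pos rfl

lemma ac_neg (w : W) : ac θ (-1) w = θ w := if_neg (by decide)

include h1 in
lemma ac_mul (e f : ℤˣ) (w : W) : ac θ (e * f) w = ac θ e (ac θ f w) := by
  rcases Int.units_eq_one_or e with rfl | rfl <;> rcases Int.units_eq_one_or f with rfl | rfl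
  · rw [mul_one, ac_one, ac_one]
  · rw [one_mul, ac_one]
  · rw [mul_one, ac_one]
  · rw [neg_mul_neg, mul_one, ac_one, ac_neg, ac_neg, h1]

include h3 in
lemma ac_comm (e : ℤˣ) (g : G) (w : W) : ac θ e (g • w) = g • ac θ e w := by
  rcases Int.units_eq_one_or e with rfl | rfl
  · rw [ac_one, ac_one]
  · rw [ac_neg, ac_neg, h3]

include h2 in
lemma ac_inj {e f : ℤˣ} {w : W} (h : ac θ e w = ac θ f w) : e = f := by
  rcases Int.units_eq_one_or e with rfl | rfl <;> rcases Int.units_eq_one_or f with rfl | rfl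
  · rfl
  · rw [ac_one, ac_neg] at h
    exact absurd h.symm (h2 w)
  · rw [ac_one, ac_neg] at h
    exact absurd h (h2 w)
  · rfl

/-- the orbit relation -/
def stt : Setoid W where
  r w w' := ∃ e : ℤˣ, ac θ e w = w'
  iseqv := ⟨fun w => ⟨1, ac_one θ w⟩, fun {w w'} ⟨e, he⟩ => ⟨e, by
    rw [← he, ← ac_mul θ h1, Int.units_mul_self, ac_one]⟩, fun {w w' w''} ⟨e, he⟩ ⟨f, hf⟩ =>
    ⟨f * e, by rw [ac_mul θ h1, he, hf]⟩⟩

/-- the quotient by the involution -/
def QT : Type _ := Quotient (stt θ h1)

/-- the action on the quotient -/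
@[reducible] noncomputable def qtAct : MulAction G (QT θ h1) where
  smul g := Quotient.map' (s₁ := stt θ h1) (s₂ := stt θ h1) (g • ·) (by
    rintro w w' ⟨e, he⟩
    exact ⟨e, by rw [ac_comm θ h3, he]⟩)
  one_smul z := by
    induction z using Quotient.inductionOn' with
    | h w => exact congrArg (Quotient.mk (stt θ h1)) (one_smul G w)
  mul_smul g h z := by
    induction z using Quotient.inductionOn' with
    | h w => exact congrArg (Quotient.mk (stt θ h1)) (mul_smul g h w)

end act

/-- **sets with a free equivariant involution have sign one** -/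
theorem sX_inv (hA : TorOK.{u, 0} A) (W : Type*) [Fintype W] [MulAction G W] (θ : W → W)
    (h1 : ∀ w, θ (θ w) = w) (h2 : ∀ w, θ w ≠ w) (h3 : ∀ (g : G) w, θ (g • w) = g • θ w) :
    sX A W = 1 := by
  classical
  let _ : MulAction G (QT θ h1) := qtAct θ h1 h3
  have hfin : Finite (QT θ h1) := Quotient.finite (stt θ h1)
  let _ : Fintype (QT θ h1) := Fintype.ofFinite _
  let mk : W → QT θ h1 := Quotient.mk (stt θ h1)
  let out : QT θ h1 → W := Quotient.out (s := stt θ h1)
  have hmk : ∀ z, mk (out z) = z := fun z => Quotient.out_eq (s := stt θ h1) z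
  have hsm : ∀ (g : G) w, g • mk w = mk (g • w) := fun g w => rfl
  have hex : ∀ w w', mk w = mk w' → ∃ e : ℤˣ, ac θ e w = w' := fun w w' h => Quotient.exact h
  have hτ : ∀ (g : G) z, ∃ e : ℤˣ, ac θ e (out (g • z)) = g • out z := by
    intro g z
    apply hex
    rw [hmk, ← hsm, hmk]
  choose τ hτ using hτ
  let D : Aff G (QT θ h1) ℤˣ :=
    { α := fun _ _ => MonoidHom.id _
      τ := τ
      one := fun _ _ => rfl
      mul := fun _ _ _ _ => rfl
      tau := by
        intro g h z
        apply ac_inj θ h2 (w := out ((g * h) • z))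
        rw [hτ]
        show _ = ac θ (τ g (h • z) * τ h z) _
        rw [mul_comm, ac_mul θ h1, mul_smul g h z, hτ, ac_comm θ h3, hτ, mul_smul] }
  have e1 : sX A (YY D) = sX A W := by
    let f : YY D → W := fun y => ac θ y.2 (out y.1)
    have hf : Function.Bijective f := by
      constructor
      · rintro ⟨z, e⟩ ⟨z', e'⟩ h
        have h4 : ac θ e (out z) = ac θ e' (out z') := h
        have h5 : z = z' := by
          rw [← hmk z, ← hmk z']
          apply Quotient.sound (s := stt θ h1)
          refine ⟨e' * e, ?_⟩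
          rw [ac_mul θ h1, h4, ← ac_mul θ h1, Int.units_mul_self, ac_one]
        subst h5
        have h6 := ac_inj θ h2 h4
        rw [h6]
      · intro w
        obtain ⟨e, he⟩ := hex (out (mk w)) w (hmk _)
        exact ⟨(mk w, e), he⟩
    apply sX_equiv A (YY D) W (Equiv.ofBijective f hf)
    intro g y
    show ac θ (τ g y.1 * y.2) (out (g • y.1)) = g • ac θ y.2 (out y.1)
    rw [mul_comm, ac_mul θ h1, hτ, ac_comm θ h3]
  have e2 : sX A (XX D) = sX A (QT θ h1 ⊕ QT θ h1) := by
    apply sX_congr
    intro g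
    rw [card_fix_sum']
    have h4 : Nat.card (fixedBy (XX D) g) =
        Nat.card (fixedBy (QT θ h1) g × AddChar (Additive ℤˣ) ℂ) := by
      refine Nat.card_congr
        { toFun := fun x => (⟨x.1.1, congrArg (fun w : XX D => w.1) x.2⟩, x.1.2)
          invFun := fun x => ⟨((x.1.1, x.2) : XX D), ?_⟩
          left_inv := fun x => rfl
          right_inv := fun x => rfl }
      refine Prod.ext x.1.2 ?_
      ext a
      rfl
    rw [h4, Nat.card_prod, Nat.card_eq_fintype_card (α := AddChar (Additive ℤˣ) ℂ),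
      AddChar.card_eq]
    have h5 : Fintype.card (Additive ℤˣ) = 2 := rfl
    rw [h5]
    ring
  rw [← e1, sX_fourier D hA, e2, sX_sum]
  rcases sX_pm hA (QT θ h1) with h | h <;> rw [h] <;> rfl

end inv

section odd

variable {G : Type u} [Group G] [Finite G] {n : Type} [Fintype n] [DecidableEq n]
  {A : Matrix n n (MonoidAlgebra ℤ G)} {Z C : Type*} [MulAction G Z] [CommGroup C]
  (D : Aff G Z C) [Fintype Z] [Fintype C]

/-- nontrivial characters -/
def XN : Type _ := {x : XX D // x.2 ≠ 0}

instance : MulAction G (XN D) where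
  smul g x := ⟨g • x.1, by
    intro h
    apply x.2
    ext a
    have h1 : (g • x.1).2 (Additive.ofMul (D.α g x.1.1 a.toMul)) = 1 := by
      rw [h]
      rfl
    have h2 : (g • x.1).2 (Additive.ofMul (D.α g x.1.1 a.toMul)) =
        x.1.2 (Additive.ofMul (D.α g⁻¹ (g • x.1.1) (D.α g x.1.1 a.toMul))) := rfl
    rw [h2, D.inv_left, ofMul_toMul] at h1
    exact h1⟩
  one_smul x := Subtype.ext (one_smul _ _)
  mul_smul g h x := Subtype.ext (mul_smul _ _ _)

noncomputable instance : Fintype (XN D) := by
  classical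
  exact inferInstanceAs (Fintype {x : XX D // x.2 ≠ 0})

/-- **odd affine bundles have the sign of the base** -/
theorem sX_odd (hA : TorOK.{u, 0} A) (hC : Odd (Fintype.card C)) : sX A (YY D) = sX A Z := by
  classical
  rw [sX_fourier D hA]
  have e1 : sX A (XX D) = sX A (Z ⊕ XN D) := by
    let f : XX D → Z ⊕ XN D := fun x => if h : x.2 = 0 then Sum.inl x.1 else Sum.inr ⟨x, h⟩
    have hf : Function.Bijective f := by
      constructor
      · intro x y h
        by_cases hx : x.2 = 0 <;> by_cases hy : y.2 = 0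
        · simp only [f, dif_pos hx, dif_pos hy] at h
          exact Prod.ext (Sum.inl_injective h) (hx.trans hy.symm)
        · simp only [f, dif_pos hx, dif_neg hy] at h
          exact absurd h Sum.inl_ne_inr
        · simp only [f, dif_neg hx, dif_pos hy] at h
          exact absurd h Sum.inr_ne_inl
        · simp only [f, dif_neg hx, dif_neg hy] at h
          exact congrArg Subtype.val (Sum.inr_injective h)
      · rintro (z | x)
        · exact ⟨((z, 0) : Z × AddChar (Additive C) ℂ), dif_pos rfl⟩
        · exact ⟨x.1, dif_neg x.2⟩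
    apply sX_equiv A _ _ (Equiv.ofBijective f hf)
    intro g x
    show f (g • x) = g • f x
    by_cases hx : x.2 = 0
    · have hgx : (g • x).2 = 0 := by
        ext a
        show x.2 (Additive.ofMul (D.α g⁻¹ (g • x.1) a.toMul)) = _
        rw [hx]
        rfl
      have e2 : f x = Sum.inl x.1 := dif_pos hx
      have e3 : f (g • x) = Sum.inl (g • x).1 := dif_pos hgx
      rw [e2, e3]
      rfl
    · let x' : XN D := ⟨x, hx⟩
      have e2 : f x = Sum.inr x' := dif_neg hx
      have e3 : f (g • x) = Sum.inr (g • x') := dif_neg (g • x').2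
      rw [e2, e3]
      rfl
  rw [e1, sX_sum]
  have e2 : sX A (XN D) = 1 := by
    have hneg : ∀ ψ : AddChar (Additive C) ℂ, ψ ≠ 0 → -ψ ≠ 0 := fun ψ h h0 =>
      h (neg_eq_zero.1 h0)
    apply sX_inv hA (XN D) (fun x => ⟨((x.1.1, -x.1.2) : XX D), hneg _ x.2⟩)
    · intro x
      apply Subtype.ext
      refine Prod.ext rfl ?_
      exact neg_neg _
    · intro x hx
      apply x.2
      have h1 : -x.1.2 = x.1.2 := congrArg (fun y : XN D => y.1.2) hx
      have h2 : (2 : ℕ) • x.1.2 = 0 := by
        rw [two_nsmul]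
        nth_rewrite 1 [← h1]
        exact neg_add_cancel _
      have h3 : Fintype.card C • x.1.2 = 0 := by
        have h4 : Fintype.card (AddChar (Additive C) ℂ) = Fintype.card C := by
          rw [AddChar.card_eq]
          exact Fintype.card_congr Additive.toMul
        rw [← h4]
        exact card_nsmul_eq_zero
      obtain ⟨k, hk⟩ := hC
      have h5 : (2 * k) • x.1.2 = 0 := by rw [mul_nsmul, h2, nsmul_zero]
      rw [hk, add_nsmul, one_nsmul, h5, zero_add] at h3
      exact h3
    · intro g x
      apply Subtype.ext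
      refine Prod.ext rfl ?_
      ext a
      show (-(g • x.1).2) a = (-x.1.2) (Additive.ofMul (D.α g⁻¹ (g • x.1.1) a.toMul))
      rw [AddChar.neg_apply, AddChar.neg_apply]
      show x.1.2 (Additive.ofMul (D.α g⁻¹ (g • x.1.1) (-a).toMul)) = _
      rw [toMul_neg, map_inv, ofMul_inv]
  rw [e2, mul_one]

end odd

end Pool.Agent.Y72.Dt
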