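import Pool.Agent.Y72.Dt.Sg3

/-!
# Permutation representations with stabilizers in the class `Ep 2`
-/

set_option autoImplicit false
set_option linter.unusedSectionVars false

namespace Pool.Agent.Y72.Dt

open Pool.Agent.Y72.Log Module MulAction

universe u v

section compl

variable {K : Type u} [Group K] [Finite K]

/-- a group in the class `Ep 2` has a normal abelian subgroup of odd order with a crossed
homomorphism onto it -/
theorem exists_crossed (hE : Ep 2 K) : ∃ (C : Subgroup K) (_ : C.Normal), Odd (Nat.card C) ∧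
    (∀ a ∈ C, ∀ b ∈ C, a * b = b * a) ∧ ∃ cc : K → K, (∀ k, cc k ∈ C) ∧
      (∀ k k', cc (k * k') = cc k * (k * cc k' * k⁻¹)) ∧ (∀ c ∈ C, cc c = c) ∧
      ∀ k, cc k = 1 → ∃ s, k ^ 2 ^ s = 1 := by
  obtain ⟨N, hN, hab, hp⟩ := hE
  let C : Subgroup K :=
    { carrier := {x | x ∈ N ∧ ∃ m : ℕ, Odd m ∧ x ^ m = 1}
      one_mem' := ⟨N.one_mem, 1, odd_one, one_pow 1⟩
      mul_mem' := by
        rintro a b ⟨ha, m, hm, h1⟩ ⟨hb, m', hm', h2⟩
        refine ⟨N.mul_mem ha hb, m * m', hm.mul hm', ?_⟩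
        have hc : Commute a b := hab a ha b hb
        rw [hc.mul_pow, pow_mul, h1, one_pow, mul_comm m m', pow_mul, h2, one_pow, one_mul]
      inv_mem' := by
        rintro a ⟨ha, m, hm, h1⟩
        exact ⟨N.inv_mem ha, m, hm, by rw [inv_pow, h1, inv_one]⟩ }
  have hCn : C.Normal := by
    constructor
    rintro x ⟨hx, m, hm, h1⟩ g
    exact ⟨hN.conj_mem x hx g, m, hm, by rw [conj_pow, h1, mul_one, mul_inv_cancel]⟩
  have hodd : Odd (Nat.card C) := by
    rw [← Nat.not_even_iff_odd]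
    intro he
    have : Fact (Nat.Prime 2) := ⟨Nat.prime_two⟩
    obtain ⟨⟨x, hx, m, hm, h1⟩, hx2⟩ := exists_prime_orderOf_dvd_card' 2 he.two_dvd
    have h2 : x ^ 2 = 1 := by
      have := pow_orderOf_eq_one (⟨x, hx, m, hm, h1⟩ : C)
      rw [hx2] at this
      exact congrArg Subtype.val this
    have h3 : x = 1 := by
      obtain ⟨k, hk⟩ := hm
      rw [hk, pow_add, pow_mul, h2, one_pow, one_mul, pow_one] at h1
      exact h1
    have h4 : orderOf (⟨x, hx, m, hm, h1⟩ : C) = 1 := by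
      rw [orderOf_eq_one_iff]
      exact Subtype.ext h3
    rw [h4] at hx2
    norm_num at hx2
  have hquo : ∀ h : K, ∃ s, h ^ 2 ^ s ∈ C := by
    intro h
    obtain ⟨k, hk⟩ := hp h
    obtain ⟨a, m, hm, ho⟩ := Nat.exists_eq_pow_mul_and_not_dvd
      (orderOf_pos (h ^ 2 ^ k)).ne' 2 (by norm_num)
    refine ⟨k + a, ?_⟩
    rw [pow_add, pow_mul]
    refine ⟨N.pow_mem hk _, m, Nat.not_even_iff_odd.1 (fun he => hm he.two_dvd), ?_⟩
    rw [← pow_mul, ← ho, pow_orderOf_eq_one]
  have hcop : Nat.Coprime (Nat.card C) C.index := by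
    have h1 : IsPGroup 2 (K ⧸ C) := by
      intro x
      obtain ⟨g, rfl⟩ := QuotientGroup.mk_surjective x
      obtain ⟨s, hs⟩ := hquo g
      exact ⟨s, by rw [← QuotientGroup.mk_pow]; exact (QuotientGroup.eq_one_iff _).2 hs⟩
    have : Fact (Nat.Prime 2) := ⟨Nat.prime_two⟩
    obtain ⟨r, hr⟩ := IsPGroup.iff_card.1 h1
    rw [Subgroup.index, hr]
    exact (Nat.Coprime.pow_right _ (Nat.coprime_two_right.2 hodd))
  obtain ⟨Q, hQ⟩ := Subgroup.exists_right_complement'_of_coprime hcop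
  have hsur : ∀ k : K, ∃ x : C × Q, (x.1 : K) * x.2 = k := fun k => hQ.2 k
  have hinj : ∀ x y : C × Q, (x.1 : K) * x.2 = y.1 * y.2 → x = y := fun x y h => hQ.1 h
  choose f hf using hsur
  refine ⟨C, hCn, hodd, fun a ha b hb => hab a ha.1 b hb.1, fun k => (f k).1, fun k => (f k).1.2,
    ?_, ?_, ?_⟩
  · intro k k'
    have h1 : (f k).1.1 * (k * (f k').1.1 * k⁻¹) ∈ C :=
      C.mul_mem (f k).1.2 (hCn.conj_mem _ (f k').1.2 k)
    have h2 : f (k * k') = (⟨_, h1⟩, (f k).2 * (f k').2) := by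
      apply hinj
      rw [hf]
      show k * k' = (f k).1.1 * (k * (f k').1.1 * k⁻¹) * ((f k).2.1 * (f k').2.1)
      have e1 := hf k
      have e2 := hf k'
      have e3 : (f k).1.1 * (k * (f k').1.1 * k⁻¹) = (k * (f k').1.1 * k⁻¹) * (f k).1.1 :=
        hab _ (f k).1.2.1 _ (hN.conj_mem _ (f k').1.2.1 k)
      rw [e3]
      calc k * k' = k * ((f k').1.1 * (f k').2.1) := by rw [e2]
        _ = k * (f k').1.1 * k⁻¹ * k * (f k').2.1 := by group
        _ = k * (f k').1.1 * k⁻¹ * ((f k).1.1 * (f k).2.1) * (f k').2.1 := by rw [e1]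
        _ = _ := by simp only [mul_assoc]
    show (f (k * k')).1.1 = _
    rw [h2]
  · intro c hc
    have h1 : f c = (⟨c, hc⟩, 1) := by
      apply hinj
      rw [hf]
      show c = c * 1
      rw [mul_one]
    show (f c).1.1 = c
    rw [h1]
  · intro k hk
    have h1 : k ∈ Q := by
      have h2 := hf k
      have hk' : (f k).1.1 = 1 := hk
      rw [hk', one_mul] at h2
      rw [← h2]
      exact (f k).2.2
    obtain ⟨s, hs⟩ := hquo k
    refine ⟨s, ?_⟩
    have h2 := hinj (⟨_, hs⟩, 1) (1, ⟨_, Q.pow_mem h1 (2 ^ s)⟩) (by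
      show k ^ 2 ^ s * 1 = 1 * k ^ 2 ^ s
      rw [mul_one, one_mul])
    exact congrArg (fun x : C × Q => (x.1 : K)) h2

end compl

section bundle

variable {G : Type u} [Group G] [Finite G] {n : Type} [Fintype n] [DecidableEq n]
  {A : Matrix n n (MonoidAlgebra ℤ G)}

/-- reduction to `2`-groups -/
theorem exists_two (hA : TorOK.{u, 0} A) (K : Subgroup G) (hE : Ep 2 K) [Fintype (G ⧸ K)] :
    ∃ (Y : Type u) (_ : Fintype Y) (_ : MulAction G Y),
      (∀ (y : Y) (g : G), g • y = y → ∃ s, g ^ 2 ^ s = 1) ∧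
      sX A Y = sX A (G ⧸ K) ∧ ∃ m, Odd m ∧ Fintype.card Y = Fintype.card (G ⧸ K) * m := by
  classical
  obtain ⟨C, hCn, hodd, hab, cc, hcC, hcr, hcc, hc2⟩ := exists_crossed hE
  let _ : CommGroup C := { (inferInstance : Group C) with
    mul_comm := fun a b => Subtype.ext (hab a.1 a.2 b.1 b.2) }
  let _ : Fintype C := Fintype.ofFinite C
  let t : G ⧸ K → G := Quotient.out
  have ht : ∀ z, ((t z : G) : G ⧸ K) = z := fun z => Quotient.out_eq' z
  have hκ : ∀ (g : G) z, (t (g • z))⁻¹ * g * t z ∈ K := by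
    intro g z
    have h1 : ((t (g • z) : G) : G ⧸ K) = ((g * t z : G) : G ⧸ K) := by
      rw [ht]
      conv_lhs => rw [← ht z]
      rfl
    rw [mul_assoc]
    exact QuotientGroup.eq.1 h1
  let κ : G → G ⧸ K → K := fun g z => ⟨_, hκ g z⟩
  have hκ1 : ∀ z, κ 1 z = 1 := by
    intro z
    apply Subtype.ext
    show (t ((1 : G) • z))⁻¹ * 1 * t z = 1
    rw [one_smul, mul_one, inv_mul_cancel]
  have hκm : ∀ (g h : G) z, κ (g * h) z = κ g (h • z) * κ h z := by
    intro g h z
    apply Subtype.ext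
    show (t ((g * h) • z))⁻¹ * (g * h) * t z =
      (t (g • h • z))⁻¹ * g * t (h • z) * ((t (h • z))⁻¹ * h * t z)
    rw [mul_smul]
    group
  let D : Aff G (G ⧸ K) C :=
    { α := fun g z => (MulAut.conjNormal (κ g z) : MulAut C).toMonoidHom
      τ := fun g z => ⟨cc (κ g z), hcC _⟩
      one := by
        intro z x
        rw [hκ1, map_one]
        rfl
      mul := by
        intro g h z x
        rw [hκm, map_mul]
        rfl
      tau := by
        intro g h z
        apply Subtype.ext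
        show cc (κ (g * h) z) = cc (κ g (h • z)) *
          ((MulAut.conjNormal (κ g (h • z)) ⟨cc (κ h z), hcC _⟩ : C) : K)
        rw [hκm, hcr, MulAut.conjNormal_apply] }
  refine ⟨YY D, inferInstance, inferInstance, ?_, ?_, ?_⟩
  · rintro ⟨z, c⟩ g hg
    have h1 : g • z = z := congrArg (fun y : YY D => y.1) hg
    have h2 : cc (κ g z) * (κ g z * c.1 * (κ g z)⁻¹) = c.1 := by
      have h3 : D.τ g z * D.α g z c = c := congrArg (fun y : YY D => y.2) hg
      have h4 := congrArg (fun x : C => (x : K)) h3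
      have h5 : (((D.α g z c : C)) : K) = κ g z * c.1 * (κ g z)⁻¹ := MulAut.conjNormal_apply _ _
      have h6 : ((D.τ g z * D.α g z c : C) : K) = cc (κ g z) * ((D.α g z c : C) : K) := rfl
      rw [h6, h5] at h4
      exact h4
    set k := κ g z with hk
    have h3 : cc (c.1⁻¹ * k * c.1) = 1 := by
      rw [mul_assoc, hcr, hcc _ (C.inv_mem c.2), hcr, hcc _ c.2, h2]
      group
    obtain ⟨s, hs⟩ := hc2 _ h3
    refine ⟨s, ?_⟩
    have h4 : k ^ 2 ^ s = 1 := by
      have h5 := conj_pow (i := 2 ^ s) (a := c.1⁻¹) (b := k)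
      rw [inv_inv, hs] at h5
      have h6 : k ^ 2 ^ s = c.1 * (c.1⁻¹ * k ^ 2 ^ s * c.1) * c.1⁻¹ := by group
      rw [h6, ← h5]
      group
    have h5 : g = t z * k.1 * (t z)⁻¹ := by
      have h6 : k.1 = (t (g • z))⁻¹ * g * t z := rfl
      rw [h6, h1]
      group
    rw [h5, conj_pow, ← Subgroup.coe_pow, h4, Subgroup.coe_one, mul_one, mul_inv_cancel]
  · apply sX_odd D hA
    rw [← Nat.card_eq_fintype_card]
    exact hodd
  · refine ⟨Fintype.card C, ?_, ?_⟩
    · rw [← Nat.card_eq_fintype_card]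
      exact hodd
    · exact Fintype.card_prod (G ⧸ K) C

end bundle

end Pool.Agent.Y72.Dt
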