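import Pool.Agent.Y72.Dt.Sg4

/-!
# The signs of all permutation representations
-/

set_option autoImplicit false
set_option linter.unusedSectionVars false

namespace Pool.Agent.Y72.Dt

open Pool.Agent.Y72.Log Module MulAction

universe u v

lemma pm_pow_even {w : ℤ} (hw : w = 1 ∨ w = -1) {k : ℕ} (hk : Even k) : w ^ k = 1 := by
  obtain ⟨r, rfl⟩ := hk
  rcases hw with rfl | rfl
  · rw [one_pow]
  · rw [← two_mul, pow_mul]
    norm_num

lemma pm_pow_odd {w : ℤ} (hw : w = 1 ∨ w = -1) {k : ℕ} (hk : Odd k) : w ^ k = w := by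
  obtain ⟨r, rfl⟩ := hk
  rw [pow_succ, pm_pow_even hw ⟨r, by ring⟩, one_mul]

section orb

variable {G : Type u} [Group G] [Finite G] {n : Type} [Fintype n] [DecidableEq n]
  {A : Matrix n n (MonoidAlgebra ℤ G)}

/-- the complement of an orbit -/
@[reducible] def coAct (Y : Type u) [MulAction G Y] (y0 : Y) :
    MulAction G {y : Y // y ∉ orbit G y0} where
  smul g y := ⟨g • y.1, fun h => y.2 (by
    have h1 := mem_orbit_of_mem_orbit g⁻¹ h
    rwa [inv_smul_smul] at h1)⟩
  one_smul y := Subtype.ext (one_smul _ _)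
  mul_smul g h y := Subtype.ext (mul_smul _ _ _)

lemma sX_empty (hA : TorOK.{u, 0} A) (X : Type*) [Fintype X] [IsEmpty X] [MulAction G X] :
    sX A X = 1 := by
  have h1 : sX A X = sX A (X ⊕ X) := by
    apply sX_congr
    intro g
    rw [card_fix_sum']
    have : Nat.card (fixedBy X g) = 0 := Nat.card_of_isEmpty
    rw [this]
  rw [sX_sum] at h1
  rcases sX_pm hA X with h | h
  · exact h
  · rw [h] at h1
    norm_num at h1

/-- **induction over orbits** -/
theorem orbit_ind (hA : TorOK.{u, 0} A) (Pr : Subgroup G → Prop) (w : ℤ)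
    (h : ∀ (K : Subgroup G) [Fintype (G ⧸ K)], Pr K → sX A (G ⧸ K) = w ^ Fintype.card (G ⧸ K)) :
    ∀ (N : ℕ) (X : Type u) [Fintype X] [MulAction G X], Fintype.card X = N →
      (∀ x : X, Pr (stabilizer G x)) → sX A X = w ^ Fintype.card X := by
  classical
  intro N
  induction N using Nat.strong_induction_on with
  | _ N ih =>
  intro X _ _ hN hX
  rcases isEmpty_or_nonempty X with hE | ⟨⟨x0⟩⟩
  · rw [sX_empty hA, Fintype.card_eq_zero, pow_zero]
  · let _ : MulAction G {y : X // y ∉ orbit G x0} := coAct X x0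
    let _ : Fintype (G ⧸ stabilizer G x0) := Fintype.ofFinite _
    let f : (G ⧸ stabilizer G x0) ⊕ {y : X // y ∉ orbit G x0} → X := fun z => match z with
      | Sum.inl q => ofQuotientStabilizer G x0 q
      | Sum.inr y => y.1
    have hf : Function.Bijective f := by
      constructor
      · rintro (a | a) (b | b) hab
        · exact congrArg Sum.inl (injective_ofQuotientStabilizer G x0 hab)
        · exfalso
          apply b.2
          have hab' : ofQuotientStabilizer G x0 a = b.1 := hab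
          rw [← hab']
          exact ofQuotientStabilizer_mem_orbit G x0 a
        · exfalso
          apply a.2
          have hab' : a.1 = ofQuotientStabilizer G x0 b := hab
          rw [hab']
          exact ofQuotientStabilizer_mem_orbit G x0 b
        · exact congrArg Sum.inr (Subtype.ext hab)
      · intro x
        by_cases hx : x ∈ orbit G x0
        · obtain ⟨g, rfl⟩ := hx
          exact ⟨Sum.inl (QuotientGroup.mk g), rfl⟩
        · exact ⟨Sum.inr ⟨x, hx⟩, rfl⟩
    have e1 : sX A ((G ⧸ stabilizer G x0) ⊕ {y : X // y ∉ orbit G x0}) = sX A X := by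
      apply sX_equiv A _ _ (Equiv.ofBijective f hf)
      rintro g (a | a)
      · exact ofQuotientStabilizer_smul G x0 g a
      · rfl
    have e2 : Fintype.card X = Fintype.card (G ⧸ stabilizer G x0) +
        Fintype.card {y : X // y ∉ orbit G x0} := by
      rw [← Fintype.card_sum]
      exact (Fintype.card_congr (Equiv.ofBijective f hf)).symm
    have hpos : 0 < Fintype.card (G ⧸ stabilizer G x0) := Fintype.card_pos
    rw [← e1, sX_sum, h _ (hX x0), ih (Fintype.card {y : X // y ∉ orbit G x0}) (by omega) _ rfl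
      (fun y => by
        have h1 : stabilizer G y = stabilizer G y.1 := by
          ext g
          rw [mem_stabilizer_iff, mem_stabilizer_iff]
          exact Subtype.ext_iff
        rw [h1]
        exact hX y.1), e2, pow_add]

/-- an element normalising a proper subgroup of a `2`-group -/
lemma exists_norm (P K : Subgroup G) (hP : IsPGroup 2 P) (hKP : K ≤ P) (hne : K ≠ P) :
    ∃ g : G, g ∉ K ∧ g * g ∈ K ∧ (∀ k ∈ K, g⁻¹ * k * g ∈ K) := by
  have : Fact (Nat.Prime 2) := ⟨Nat.prime_two⟩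
  have hnil : Group.IsNilpotent P := hP.isNilpotent
  have hnc : NormalizerCondition P := Group.normalizerCondition_of_isNilpotent
  let K' : Subgroup P := K.subgroupOf P
  have hK' : K' < ⊤ := by
    rw [lt_top_iff_ne_top]
    intro h
    apply hne
    apply le_antisymm hKP
    intro x hx
    have h1 : (⟨x, hx⟩ : P) ∈ K' := h ▸ Subgroup.mem_top _
    exact Subgroup.mem_subgroupOf.1 h1
  have h1 := hnc K' hK'
  let N : Subgroup P := Subgroup.normalizer (K' : Set P)
  have hKN : K' ≤ N := Subgroup.le_normalizer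
  let K'' : Subgroup N := K'.subgroupOf N
  have hn : K''.Normal := Subgroup.normal_in_normalizer
  have hpq : IsPGroup 2 (N ⧸ K'') := (hP.to_subgroup N).to_quotient K''
  have hnt : Nontrivial (N ⧸ K'') := by
    rw [QuotientGroup.nontrivial_iff]
    intro h2
    apply h1.not_ge
    intro x hx
    have h3 : (⟨x, hx⟩ : N) ∈ K'' := h2 ▸ Subgroup.mem_top _
    exact Subgroup.mem_subgroupOf.1 h3
  obtain ⟨r, hr⟩ := IsPGroup.iff_card.1 hpq
  have hdvd : 2 ∣ Nat.card (N ⧸ K'') := by
    rw [hr]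
    rcases Nat.eq_zero_or_pos r with h2 | h2
    · subst h2
      have := Finite.one_lt_card (α := N ⧸ K'')
      rw [hr] at this
      norm_num at this
    · exact dvd_pow_self 2 h2.ne'
  obtain ⟨y, hy⟩ := exists_prime_orderOf_dvd_card' 2 hdvd
  obtain ⟨⟨⟨g, hgP⟩, hgN⟩, rfl⟩ := QuotientGroup.mk_surjective y
  refine ⟨g, ?_, ?_, ?_⟩
  · intro hg
    have h2 : (QuotientGroup.mk (⟨⟨g, hgP⟩, hgN⟩ : N) : N ⧸ K'') = 1 :=
      (QuotientGroup.eq_one_iff _).2 (Subgroup.mem_subgroupOf.2 (Subgroup.mem_subgroupOf.2 hg))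
    rw [h2, orderOf_one] at hy
    norm_num at hy
  · have h2 : ((QuotientGroup.mk (⟨⟨g, hgP⟩, hgN⟩ : N)) : N ⧸ K'') ^ 2 = 1 := by
      rw [← hy, pow_orderOf_eq_one]
    rw [← QuotientGroup.mk_pow] at h2
    have h3 := Subgroup.mem_subgroupOf.1 (Subgroup.mem_subgroupOf.1
      ((QuotientGroup.eq_one_iff _).1 h2))
    rw [pow_two] at h3
    exact h3
  · intro k hk
    have h2 := (Subgroup.mem_normalizer_iff.1 (N.inv_mem hgN) (⟨k, hKP hk⟩ : P)).1
      (Subgroup.mem_subgroupOf.2 hk)
    have h3 := Subgroup.mem_subgroupOf.1 h2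
    rw [inv_inv] at h3
    exact h3

/-- the coset spaces of `2`-groups which are not Sylow subgroups -/
theorem sX_proper (hA : TorOK.{u, 0} A) (P K : Subgroup G) (hP : IsPGroup 2 P) (hKP : K ≤ P)
    (hne : K ≠ P) [Fintype (G ⧸ K)] : sX A (G ⧸ K) = 1 ∧ Even (Fintype.card (G ⧸ K)) := by
  classical
  obtain ⟨g, hg, hg2, hgK⟩ := exists_norm P K hP hKP hne
  let θ : G ⧸ K → G ⧸ K := Quotient.map' (s₁ := QuotientGroup.leftRel K)
    (s₂ := QuotientGroup.leftRel K) (fun x => x * g) (by
      intro x y hxy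
      rw [QuotientGroup.leftRel_apply] at hxy ⊢
      have h1 := hgK _ hxy
      rw [mul_inv_rev]
      have h2 : g⁻¹ * x⁻¹ * (y * g) = g⁻¹ * (x⁻¹ * y) * g := by group
      rw [h2]
      exact h1)
  have hθ : ∀ x : G, θ (x : G ⧸ K) = ((x * g : G) : G ⧸ K) := fun x => rfl
  have h1 : ∀ w, θ (θ w) = w := by
    intro w
    obtain ⟨x, rfl⟩ := QuotientGroup.mk_surjective w
    rw [hθ, hθ]
    symm
    rw [QuotientGroup.eq, mul_assoc, inv_mul_cancel_left]
    exact hg2
  have h2 : ∀ w, θ w ≠ w := by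
    intro w
    obtain ⟨x, rfl⟩ := QuotientGroup.mk_surjective w
    rw [hθ]
    intro h
    have h3 := QuotientGroup.eq.1 h.symm
    rw [inv_mul_cancel_left] at h3
    exact hg h3
  refine ⟨sX_inv hA (G ⧸ K) θ h1 h2 ?_, ?_⟩
  · intro y w
    obtain ⟨x, rfl⟩ := QuotientGroup.mk_surjective w
    show ((y * x * g : G) : G ⧸ K) = ((y * (x * g) : G) : G ⧸ K)
    rw [mul_assoc]
  · have : Fact (Nat.Prime 2) := ⟨Nat.prime_two⟩
    have h3 := Equiv.Perm.card_fixedPoints_modEq (α := G ⧸ K) (f := (θ : Function.End (G ⧸ K)))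
      (p := 2) (n := 1) (by
        rw [pow_one]
        funext w
        exact h1 w)
    have h4 : Fintype.card (Function.fixedPoints (θ : Function.End (G ⧸ K))) = 0 := by
      rw [Fintype.card_eq_zero_iff]
      exact ⟨fun x => h2 x.1 x.2⟩
    rw [h4] at h3
    exact even_iff_two_dvd.2 (Nat.modEq_zero_iff_dvd.1 h3)

/-- conjugate subgroups -/
lemma sX_conj (P K : Subgroup G) (x : G) (hx : ∀ k, k ∈ K ↔ x * k * x⁻¹ ∈ P) [Fintype (G ⧸ K)]
    [Fintype (G ⧸ P)] : sX A (G ⧸ K) = sX A (G ⧸ P) ∧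
      Fintype.card (G ⧸ K) = Fintype.card (G ⧸ P) := by
  let f : G ⧸ K → G ⧸ P := Quotient.map' (s₁ := QuotientGroup.leftRel K)
    (s₂ := QuotientGroup.leftRel P) (fun y => y * x⁻¹) (by
      intro y z hyz
      rw [QuotientGroup.leftRel_apply] at hyz ⊢
      have h1 := (hx _).1 hyz
      rw [mul_inv_rev, inv_inv]
      have h2 : x * y⁻¹ * (z * x⁻¹) = x * (y⁻¹ * z) * x⁻¹ := by group
      rw [h2]
      exact h1)
  have hf : ∀ y : G, f (y : G ⧸ K) = ((y * x⁻¹ : G) : G ⧸ P) := fun y => rfl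
  have hb : Function.Bijective f := by
    constructor
    · intro a b hab
      obtain ⟨y, rfl⟩ := QuotientGroup.mk_surjective a
      obtain ⟨z, rfl⟩ := QuotientGroup.mk_surjective b
      rw [hf, hf] at hab
      have h1 := QuotientGroup.eq.1 hab
      rw [QuotientGroup.eq, hx]
      have h2 : x * (y⁻¹ * z) * x⁻¹ = (y * x⁻¹)⁻¹ * (z * x⁻¹) := by group
      rw [h2]
      exact h1
    · intro b
      obtain ⟨z, rfl⟩ := QuotientGroup.mk_surjective b
      exact ⟨((z * x : G) : G ⧸ K), by rw [hf, mul_assoc, mul_inv_cancel, mul_one]⟩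
  refine ⟨sX_equiv A _ _ (Equiv.ofBijective f hb) ?_, Fintype.card_congr (Equiv.ofBijective f hb)⟩
  intro g a
  obtain ⟨y, rfl⟩ := QuotientGroup.mk_surjective a
  show ((g * y * x⁻¹ : G) : G ⧸ P) = ((g * (y * x⁻¹) : G) : G ⧸ P)
  rw [mul_assoc]

/-- all permutation representations with `2`-groups as stabilizers -/
theorem sX_two (hA : TorOK.{u, 0} A) : ∃ w : ℤ, (w = 1 ∨ w = -1) ∧
    ∀ (X : Type u) [Fintype X] [MulAction G X],
      (∀ (x : X) (g : G), g • x = x → ∃ s, g ^ 2 ^ s = 1) → sX A X = w ^ Fintype.card X := by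
  classical
  have : Fact (Nat.Prime 2) := ⟨Nat.prime_two⟩
  obtain ⟨P⟩ : Nonempty (Sylow 2 G) := inferInstance
  let _ : Fintype (G ⧸ (P : Subgroup G)) := Fintype.ofFinite _
  let w := sX A (G ⧸ (P : Subgroup G))
  have hw : w = 1 ∨ w = -1 := sX_pm hA _
  have hPodd : Odd (Fintype.card (G ⧸ (P : Subgroup G))) := by
    rw [← Nat.not_even_iff_odd, ← Nat.card_eq_fintype_card]
    intro he
    exact P.not_dvd_index he.two_dvd
  refine ⟨w, hw, fun X _ _ hX => ?_⟩
  refine orbit_ind hA (fun K => IsPGroup 2 K) w ?_ _ X rfl ?_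
  · intro K _ hK
    obtain ⟨Q, hQ⟩ := hK.exists_le_sylow
    by_cases hne : K = (Q : Subgroup G)
    · obtain ⟨x, hx⟩ := MulAction.exists_smul_eq G Q P
      have h1 := sX_conj (A := A) (P : Subgroup G) K x (by
        intro k
        rw [← hx, hne]
        have h2 : ((x • Q : Sylow 2 G) : Subgroup G) =
            (Q : Subgroup G).map (MulAut.conj x).toMonoidHom := rfl
        rw [h2]
        constructor
        · intro hk
          exact ⟨k, hk, rfl⟩
        · rintro ⟨k', hk', h3⟩
          have h4 : x * k' * x⁻¹ = x * k * x⁻¹ := h3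
          have h5 : k' = k := by
            have := congrArg (fun y => x⁻¹ * y * x) h4
            simpa [mul_assoc] using this
          exact h5 ▸ hk')
      rw [h1.1, h1.2]
      exact (pm_pow_odd hw hPodd).symm
    · obtain ⟨h1, h2⟩ := sX_proper hA (Q : Subgroup G) K Q.2 hQ hne
      rw [h1, pm_pow_even hw h2]
  · intro x
    rintro ⟨g, hg⟩
    obtain ⟨s, hs⟩ := hX x g hg
    exact ⟨s, Subtype.ext hs⟩

/-- all permutation representations with stabilizers in the class `Ep 2` -/
theorem sX_Ep (hA : TorOK.{u, 0} A) : ∃ w : ℤ, (w = 1 ∨ w = -1) ∧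
    ∀ (X : Type u) [Fintype X] [MulAction G X],
      (∀ x : X, Ep 2 (stabilizer G x)) → sX A X = w ^ Fintype.card X := by
  classical
  obtain ⟨w, hw, h2⟩ := sX_two hA
  refine ⟨w, hw, fun X _ _ hX => ?_⟩
  refine orbit_ind hA (fun K => Ep 2 K) w ?_ _ X rfl hX
  intro K _ hK
  obtain ⟨Y, i1, i2, hY, h3, m, hm, h4⟩ := exists_two hA K hK
  rw [← h3, h2 Y hY, h4, mul_comm, pow_mul, pm_pow_odd hw hm]

/-- shifting by multiples of a set -/
lemma sX_shift (A : Matrix n n (MonoidAlgebra ℤ G)) (Z : Type u) [Fintype Z] [MulAction G Z]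
    (m : ℕ) : ∀ (X Y : Type u) [Fintype X] [Fintype Y] [MulAction G X] [MulAction G Y],
      (∀ g : G, Nat.card (fixedBy X g) = m * Nat.card (fixedBy Z g) + Nat.card (fixedBy Y g)) →
      sX A X = sX A Z ^ m * sX A Y := by
  induction m with
  | zero =>
    intro X Y _ _ _ _ h
    rw [pow_zero, one_mul]
    exact sX_congr A X Y (fun g => by rw [h, zero_mul, zero_add])
  | succ m ih =>
    intro X Y _ _ _ _ h
    rw [ih X (Z ⊕ Y) (by
      intro g
      rw [h, card_fix_sum']
      ring), sX_sum, pow_succ]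
    ring

/-- the sign of the trivial representation -/
noncomputable def eps (A : Matrix n n (MonoidAlgebra ℤ G)) : ℤ := DD (trv G ℤ) A

lemma eps_pm (hA : TorOK.{u, 0} A) : eps A = 1 ∨ eps A = -1 := by
  have h1 := fin_main (L := ℂ) hA (chg (Int.castRingHom ℂ) (trv G ℤ))
  rw [DD_chg] at h1
  have h2 : Int.castRingHom ℂ (DD (trv G ℤ) A) = ((eps A : ℤ) : ℂ) := rfl
  rw [h2] at h1
  rcases h1 with h | h
  · left
    exact_mod_cast h
  · right
    have : ((eps A : ℤ) : ℂ) = ((-1 : ℤ) : ℂ) := by rw [h]; push_cast; rfl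
    exact_mod_cast this

/-- **the signs of all permutation representations** -/
theorem sX_all (hA : TorOK.{u, 0} A) (Z : Type u) [Fintype Z] [MulAction G Z] :
    sX A Z = eps A ^ Fintype.card Z := by
  classical
  have : Fact (Nat.Prime 2) := ⟨Nat.prime_two⟩
  obtain ⟨w, hw, hEp⟩ := sX_Ep hA
  obtain ⟨m, X, Y, i1, i2, i3, i4, hm, hX, hY, h⟩ := solomon (G := G) (p := 2)
  cases nonempty_fintype X
  cases nonempty_fintype Y
  have hmo : Odd m := Nat.not_even_iff_odd.1 (fun he => hm he.two_dvd)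
  have hcard : Fintype.card X = m + Fintype.card Y := by
    have h1 := h 1
    have h2 : ∀ (W : Type u) [Fintype W] [MulAction G W],
        Nat.card (fixedBy W (1 : G)) = Fintype.card W := by
      intro W _ _
      rw [← Nat.card_eq_fintype_card]
      exact Nat.card_congr (Equiv.subtypeUnivEquiv (fun x => one_smul G x))
    rw [h2, h2] at h1
    exact h1
  -- the sign of `w`
  have hwe : w = eps A := by
    have h1 := DD_tns_shift (trv G ℤ) A m X Y h
    rw [sX_dec, sX_dec, hEp X hX, hEp Y hY, hcard, pow_add] at h1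
    have h2 : w ^ Fintype.card Y ≠ 0 := pow_ne_zero _ (by rcases hw with h | h <;> rw [h] <;> norm_num)
    have h3 := mul_right_cancel₀ h2 h1
    rw [pm_pow_odd hw hmo] at h3
    have h4 : DD (trv G ℤ) A ^ m = eps A := pm_pow_odd (eps_pm hA) hmo
    rw [h4] at h3
    exact h3
  -- the general case
  have h1 := sX_shift A Z m (Z × X) (Z × Y) (by
    intro g
    rw [card_fix_prod, card_fix_prod, h]
    ring)
  have hZX : ∀ (W : Type u) [MulAction G W], (∀ x : W, Ep 2 (stabilizer G x)) →
      ∀ x : Z × W, Ep 2 (stabilizer G x) := by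
    intro W _ hW x
    apply (hW x.2).le
    intro g hg
    exact congrArg Prod.snd hg
  rw [hEp (Z × X) (hZX X hX), hEp (Z × Y) (hZX Y hY), Fintype.card_prod, Fintype.card_prod, hcard,
    mul_add, pow_add, hwe] at h1
  have h2 : eps A ^ (Fintype.card Z * Fintype.card Y) ≠ 0 :=
    pow_ne_zero _ (by rcases eps_pm hA with h | h <;> rw [h] <;> norm_num)
  have h3 := mul_right_cancel₀ h2 h1
  rw [pm_pow_odd (sX_pm hA Z) hmo, mul_comm, pow_mul, pm_pow_odd (eps_pm hA) hmo] at h3
  exact h3.symm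

end orb

end Pool.Agent.Y72.Dt
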