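import Pool.Agent.Y72.Dt.Sg5

/-!
# The exact determinants in all representations of finite groups
-/

set_option autoImplicit false
set_option linter.unusedSectionVars false

namespace Pool.Agent.Y72.Dt

open Pool.Agent.Y72.Log Module MulAction

universe u v

section act

variable {G : Type u} [Group G] {L : Type v} [Field L] {κ : Type u} [Fintype κ] [DecidableEq κ]
  {M : ℕ} [NeZero M]

/-- the permutation action of a monomial representation -/
@[reducible] def moAct (σ : G →* Matrix κ κ L) (nx : G → κ → κ)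
    (hm : ∀ g j, ∃ c : L, c ^ M = 1 ∧ ∀ k, σ g k j = if k = nx g j then c else 0) :
    MulAction G κ where
  smul g j := nx g j
  one_smul j := by
    show nx 1 j = j
    obtain ⟨c, hc, h⟩ := hm 1 j
    have h1 := h j
    rw [map_one, Matrix.one_apply_eq] at h1
    by_contra hne
    rw [if_neg (Ne.symm hne)] at h1
    exact one_ne_zero h1
  mul_smul g h j := by
    show nx (g * h) j = nx g (nx h j)
    obtain ⟨c, hc, h1⟩ := hm (g * h) j
    obtain ⟨d, hd, h2⟩ := hm h j
    obtain ⟨e, he, h3⟩ := hm g (nx h j)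
    have hne : ∀ x : L, x ^ M = 1 → x ≠ 0 := by
      rintro x hx rfl
      rw [zero_pow (NeZero.ne M)] at hx
      exact zero_ne_one hx
    have h4 := h1 (nx g (nx h j))
    rw [map_mul, Matrix.mul_apply, Finset.sum_eq_single (nx h j)] at h4
    · rw [h2, if_pos rfl, h3, if_pos rfl] at h4
      by_contra hcon
      have hcon' : ¬ nx g (nx h j) = nx (g * h) j := fun hh => hcon hh.symm
      rw [if_neg hcon'] at h4
      exact mul_ne_zero (hne e he) (hne d hd) h4
    · intro l _ hl
      rw [h2, if_neg hl, mul_zero]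
    · intro hh
      exact absurd (Finset.mem_univ _) hh

end act

section exact

variable {G : Type u} [Group G] [Finite G] {L : Type v} [Field L] {n : Type} [Fintype n]
  [DecidableEq n] {A : Matrix n n (MonoidAlgebra ℤ G)} {M : ℕ} [NeZero M]

/-- the determinant of a monomial representation -/
lemma DD_mono_sign (hA : TorOK.{u, v} A) (hA0 : TorOK.{u, 0} A) {κ : Type} [Fintype κ]
    [DecidableEq κ] (σ : G →* Matrix κ κ L)
    (hm : ∀ g j, ∃ i, ∃ c : L, c ^ M = 1 ∧ ∀ k, σ g k j = if k = i then c else 0) :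
    DD σ A = ((eps A ^ Fintype.card κ : ℤ) : L) := by
  let e : κ ≃ ULift.{u} κ := Equiv.ulift.symm
  have hm' : ∀ g j, ∃ i, ∃ c : L, c ^ M = 1 ∧ ∀ k, rei e σ g k j = if k = i then c else 0 := by
    intro g j
    obtain ⟨i, c, hc, h⟩ := hm g (e.symm j)
    refine ⟨e i, c, hc, fun k => ?_⟩
    rw [rei_apply, h]
    by_cases hk : e.symm k = i
    · rw [if_pos hk, if_pos (by rw [← hk, Equiv.apply_symm_apply])]
    · rw [if_neg hk, if_neg (fun h => hk (by rw [h, Equiv.symm_apply_apply]))]
  choose nx hnx using hm'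
  let _ : MulAction G (ULift.{u} κ) := moAct (rei e σ) nx hnx
  have h1 := DD_mono_set (M := M) hA (rei e σ) hnx
  rw [DD_rei, sX_all hA0] at h1
  rw [h1]
  congr 2
  exact Fintype.card_congr e.symm

/-- triangular representations with monomial blocks -/
theorem DD_Mt_sign [Nonempty n] (hA : TorOK.{u, v} A) (hA0 : TorOK.{u, 0} A) {ι : Type*}
    [Fintype ι] [DecidableEq ι] (ρ : G →* Matrix ι ι L) (h : Mt M (toEnd ρ)) :
    DD ρ A = ((eps A ^ Fintype.card ι : ℤ) : L) := by
  classical
  obtain ⟨m, σ, β, hmc, h1, h2⟩ := exists_tri' ρ h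
  rw [← h1]
  have hβ : ∀ g, (σ g).BlockTriangular β := by
    intro g k j hkj
    obtain ⟨i, hi, c, hc, h3⟩ := h2 g j
    rw [h3 k (not_lt.2 hkj.le), if_neg]
    rintro rfl
    omega
  have himg : (Finset.univ : Finset (n × Fin m)).image (fun x => β x.2) = Finset.univ.image β := by
    ext k
    rw [Finset.mem_image, Finset.mem_image]
    constructor
    · rintro ⟨x, _, hx⟩
      exact ⟨x.2, Finset.mem_univ _, hx⟩
    · rintro ⟨j, _, hj⟩
      exact ⟨(Classical.arbitrary n, j), Finset.mem_univ _, hj⟩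
  rw [DD_tri σ β hβ A, himg]
  have h4 : ∀ k ∈ Finset.univ.image β, DD (dgb σ β hβ k) A =
      ((eps A ^ (Fintype.card {i // β i = k}) : ℤ) : L) := by
    intro k _
    apply DD_mono_sign (M := M) hA hA0
    rintro g ⟨j, hj⟩
    obtain ⟨i, hi, c, hc, h3⟩ := h2 g j
    refine ⟨⟨i, hi.trans hj⟩, c, hc, ?_⟩
    rintro ⟨k', hk'⟩
    rw [dgb_apply, h3 k' (by rw [hk', hj]; exact lt_irrefl k)]
    by_cases h4 : k' = i
    · rw [if_pos h4, if_pos (Subtype.ext h4)]
    · rw [if_neg h4, if_neg (fun hc => h4 (congrArg Subtype.val hc))]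
  rw [Finset.prod_congr rfl h4, ← Int.cast_prod, Finset.prod_pow_eq_pow_sum]
  congr 2
  rw [← hmc]
  have h5 := Finset.card_eq_sum_card_image β (Finset.univ : Finset (Fin m))
  rw [Finset.card_univ, Fintype.card_fin] at h5
  refine Eq.trans ?_ h5.symm
  apply Finset.sum_congr rfl
  intro k _
  rw [Fintype.card_subtype]

/-- **the exact determinants in all representations of a finite group over an algebraically closed
field** -/
theorem fin_sign [Nonempty n] [IsAlgClosed L] (hA : TorOK.{u, v} A) (hA0 : TorOK.{u, 0} A)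
    {ι : Type} [Fintype ι] [DecidableEq ι] (ρ : G →* Matrix ι ι L) :
    DD ρ A = ((eps A ^ Fintype.card ι : ℤ) : L) := by
  classical
  have : Fact (Nat.Prime 2) := ⟨Nat.prime_two⟩
  have : NeZero (Nat.card G) := ⟨Nat.card_pos.ne'⟩
  obtain ⟨m, X, Y, i1, i2, i3, i4, hm, hX, hY, h⟩ := solomon (G := G) (p := 2)
  cases nonempty_fintype X
  cases nonempty_fintype Y
  have hmo : Odd m := Nat.not_even_iff_odd.1 (fun he => hm he.two_dvd)
  have hcard : Fintype.card X = m + Fintype.card Y := by
    have h1 := h 1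
    have h2 : ∀ (W : Type u) [Fintype W] [MulAction G W],
        Nat.card (fixedBy W (1 : G)) = Fintype.card W := by
      intro W _ _
      rw [← Nat.card_eq_fintype_card]
      exact Nat.card_congr (Equiv.subtypeUnivEquiv (fun x => one_smul G x))
    rw [h2, h2] at h1
    exact h1
  have h1 := DD_tns_shift ρ A m X Y h
  have h2 := DD_Mt_sign hA hA0 (tns X ρ) (tns_Mt X hX ρ)
  have h3 := DD_Mt_sign hA hA0 (tns Y ρ) (tns_Mt Y hY ρ)
  have h4 := fin_main hA ρ
  have h5 : DD ρ A ^ m = DD ρ A := by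
    obtain ⟨r, rfl⟩ := hmo
    rcases h4 with h | h
    · rw [h, one_pow]
    · rw [h, pow_succ, pow_mul, neg_one_sq, one_pow, one_mul]
  have hne : ((eps A ^ (Fintype.card ι * Fintype.card Y) : ℤ) : L) ≠ 0 := by
    rcases eps_pm hA0 with h | h
    · rw [h, one_pow, Int.cast_one]
      exact one_ne_zero
    · rw [h]
      push_cast
      exact pow_ne_zero _ (neg_ne_zero.2 one_ne_zero)
  rw [h2, h3, h5, Fintype.card_prod, Fintype.card_prod, hcard, mul_add, pow_add, Int.cast_mul] at h1
  have h6 := mul_right_cancel₀ hne h1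
  rw [← h6, mul_comm, pow_mul, pm_pow_odd (eps_pm hA0) hmo]

end exact

end Pool.Agent.Y72.Dt
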