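import Mathlib
import Pool.Agent.H23R2.Der

/-!
# Determinants are determined by traces of powers
-/

set_option autoImplicit false
set_option linter.unusedSectionVars false

namespace Pool.Agent.Y72.Dt

open PowerSeries Pool.Agent.H23R2

section gen

variable {R : Type*} [CommRing R] {ι κ : Type*} [Fintype ι] [DecidableEq ι] [Fintype κ]
  [DecidableEq κ]

/-- the geometric series of a matrix -/
noncomputable def geo (M : Matrix ι ι R) : Matrix ι ι R⟦X⟧ :=
  Matrix.of fun i j => PowerSeries.mk fun k => (M ^ k) i j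

/-- the matrix `1 - X M` -/
noncomputable def oxm (M : Matrix ι ι R) : Matrix ι ι R⟦X⟧ :=
  1 - (X : R⟦X⟧) • M.map (C : R →+* R⟦X⟧)

lemma oxm_geo (M : Matrix ι ι R) : oxm M * geo M = 1 := by
  unfold oxm
  rw [sub_mul, one_mul]
  ext i j k
  rw [Matrix.sub_apply, Matrix.smul_mul, Matrix.smul_apply, map_sub, smul_eq_mul]
  have h1 : coeff k (geo M i j) = (M ^ k) i j := by
    unfold geo
    rw [Matrix.of_apply, coeff_mk]
  have h2 : (M.map (C : R →+* R⟦X⟧) * geo M) i j = PowerSeries.mk fun k => (M ^ (k + 1)) i j := by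
    ext k
    rw [Matrix.mul_apply, map_sum, coeff_mk, pow_succ', Matrix.mul_apply]
    apply Finset.sum_congr rfl
    intro l _
    rw [Matrix.map_apply, coeff_C_mul]
    unfold geo
    rw [Matrix.of_apply, coeff_mk]
  rw [h1, h2]
  rcases k with _ | k
  · rw [coeff_zero_X_mul, sub_zero, pow_zero, Matrix.one_apply, Matrix.one_apply]
    split_ifs <;> simp
  · rw [coeff_succ_X_mul, coeff_mk, sub_self, Matrix.one_apply]
    split_ifs
    · rw [coeff_one, if_neg (Nat.succ_ne_zero k)]
    · rw [map_zero]

/-- the power sums -/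
noncomputable def psum (M : Matrix ι ι R) : R⟦X⟧ := PowerSeries.mk fun k => (M ^ (k + 1)).trace

/-- an additive map satisfying the product rule -/
def derOf {A : Type*} [CommRing A] (f : A →+ A) (hf : ∀ a b, f (a * b) = a • f b + b • f a) :
    Derivation ℤ A A := Derivation.mk' f.toIntLinearMap hf

lemma jacobi' {A : Type*} [CommRing A] {m : Type*} [Fintype m] [DecidableEq m] (f : A →+ A)
    (hf : ∀ a b, f (a * b) = a • f b + b • f a) (X Y : Matrix m m A) (hXY : X * Y = 1) :
    f X.det = X.det * (Y * X.map f).trace := jacobi (derOf f hf) X Y hXY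

/-- the derivative -/
noncomputable def dX : R⟦X⟧ →+ R⟦X⟧ := (PowerSeries.derivative R).toLinearMap.toAddMonoidHom

lemma dX_apply (f : R⟦X⟧) : dX f = PowerSeries.derivative R f := rfl

lemma dX_det (M : Matrix ι ι R) : dX (oxm M).det = - ((oxm M).det * psum M) := by
  rw [jacobi' dX (fun a b => Derivation.leibniz (PowerSeries.derivative R) a b) (oxm M) (geo M) (oxm_geo M)]
  have h1 : (oxm M).map dX = - M.map (C : R →+* R⟦X⟧) := by
    ext1 i j
    rw [Matrix.map_apply, Matrix.neg_apply, Matrix.map_apply, oxm, Matrix.sub_apply, map_sub,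
      Matrix.smul_apply, smul_eq_mul, Matrix.map_apply, dX_apply, dX_apply, Derivation.leibniz,
      derivative_C, smul_zero, zero_add, derivative_X, smul_eq_mul, mul_one, Matrix.one_apply]
    split_ifs
    · rw [derivative_one, zero_sub]
    · rw [map_zero, zero_sub]
  rw [h1, mul_neg, Matrix.trace_neg, mul_neg]
  congr 2
  ext k
  unfold psum
  rw [coeff_mk, Matrix.trace, Matrix.trace, map_sum]
  apply Finset.sum_congr rfl
  intro i _
  rw [Matrix.diag_apply, Matrix.diag_apply, Matrix.mul_apply, map_sum, pow_succ, Matrix.mul_apply]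
  apply Finset.sum_congr rfl
  intro l _
  rw [Matrix.map_apply, coeff_mul_C]
  unfold geo
  rw [Matrix.of_apply, coeff_mk]

lemma constCoeff_det (M : Matrix ι ι R) : constantCoeff (oxm M).det = 1 := by
  rw [RingHom.map_det]
  have : (constantCoeff : R⟦X⟧ →+* R).mapMatrix (oxm M) = 1 := by
    ext i j
    rw [RingHom.mapMatrix_apply, Matrix.map_apply, oxm, Matrix.sub_apply, map_sub,
      Matrix.smul_apply, smul_eq_mul, map_mul, constantCoeff_X, zero_mul, sub_zero,
      Matrix.one_apply, Matrix.one_apply]
    split_ifs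
    · rw [map_one]
    · rw [map_zero]
  rw [this, Matrix.det_one]

lemma ode_unique (hR : ∀ (n : ℕ) (r : R), n ≠ 0 → (n : R) * r = 0 → r = 0) (f s : R⟦X⟧)
    (h : dX f = - (f * s)) (h0 : constantCoeff f = 0) : f = 0 := by
  ext n
  rw [map_zero]
  induction n using Nat.strong_induction_on with
  | _ n ih =>
  rcases n with _ | n
  · rw [coeff_zero_eq_constantCoeff, h0]
  · have h1 := congrArg (coeff n) h
    rw [dX_apply, coeff_derivative, map_neg, coeff_mul, Finset.sum_eq_zero, neg_zero] at h1
    · apply hR (n + 1) _ (Nat.succ_ne_zero n)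
      rw [mul_comm]
      push_cast
      exact h1
    · intro y hy
      have := (Finset.HasAntidiagonal.mem_antidiagonal).1 hy
      rw [ih y.1 (by omega), zero_mul]

lemma coe_charpolyRev (M : Matrix ι ι R) :
    ((M.charpolyRev : Polynomial R) : R⟦X⟧) = (oxm M).det := by
  unfold Matrix.charpolyRev
  have e := RingHom.map_det (Polynomial.coeToPowerSeries.ringHom (R := R))
    (1 - (Polynomial.X : Polynomial R) • M.map Polynomial.C)
  rw [Polynomial.coeToPowerSeries.ringHom_apply] at e
  rw [e]
  congr 1
  ext1 i j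
  rw [RingHom.mapMatrix_apply, Matrix.map_apply, oxm, Matrix.sub_apply, Matrix.sub_apply,
    map_sub, Matrix.smul_apply, Matrix.smul_apply, smul_eq_mul, smul_eq_mul, map_mul,
    Matrix.map_apply, Matrix.map_apply, Polynomial.coeToPowerSeries.ringHom_apply,
    Polynomial.coeToPowerSeries.ringHom_apply, Polynomial.coeToPowerSeries.ringHom_apply,
    Polynomial.coe_X, Polynomial.coe_C, Matrix.one_apply, Matrix.one_apply]
  split_ifs
  · rw [Polynomial.coe_one]
  · rw [Polynomial.coe_zero]

lemma eval_charpolyRev_one (M : Matrix ι ι R) : (M.charpolyRev).eval 1 = (1 - M).det := by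
  rw [Matrix.charpolyRev, ← Polynomial.coe_evalRingHom, RingHom.map_det]
  congr 1
  ext i j
  rw [RingHom.mapMatrix_apply, Matrix.map_apply, Matrix.sub_apply, map_sub, Matrix.smul_apply,
    Matrix.map_apply, smul_eq_mul, map_mul, Polynomial.coe_evalRingHom, Polynomial.eval_X,
    Polynomial.eval_C, one_mul, Matrix.sub_apply, Matrix.one_apply, Matrix.one_apply]
  split_ifs <;> simp

/-- **Determinants are determined by the traces of powers** -/
theorem det_of_trace (hR : ∀ (n : ℕ) (r : R), n ≠ 0 → (n : R) * r = 0 → r = 0)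
    (M : Matrix ι ι R) (M' : Matrix κ κ R)
    (h : ∀ k, (M ^ (k + 1)).trace = (M' ^ (k + 1)).trace) : (1 - M).det = (1 - M').det := by
  have h1 : psum M = psum M' := by
    ext k
    unfold psum
    rw [coeff_mk, coeff_mk, h]
  have h2 : (oxm M).det = (oxm M').det := by
    rw [← sub_eq_zero]
    apply ode_unique hR _ (psum M)
    · rw [map_sub, dX_det, dX_det, h1]
      ring
    · rw [map_sub, constCoeff_det, constCoeff_det, sub_self]
  have h4 : M.charpolyRev = M'.charpolyRev := by
    apply Polynomial.coe_injective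
    rw [coe_charpolyRev, coe_charpolyRev, h2]
  rw [← eval_charpolyRev_one, ← eval_charpolyRev_one, h4]

/-- **Representations with the same character have the same determinants** -/
theorem det_lift_eq {F : Type*} [Monoid F] (hR : ∀ (n : ℕ) (r : R), n ≠ 0 → (n : R) * r = 0 → r = 0)
    (σ : F →* Matrix ι ι R) (σ' : F →* Matrix κ κ R) (h : ∀ w, (σ w).trace = (σ' w).trace)
    (x : MonoidAlgebra ℤ F) :
    (MonoidAlgebra.lift ℤ (Matrix ι ι R) F σ x).det =
      (MonoidAlgebra.lift ℤ (Matrix κ κ R) F σ' x).det := by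
  have htr : ∀ y : MonoidAlgebra ℤ F, (MonoidAlgebra.lift ℤ (Matrix ι ι R) F σ y).trace =
      (MonoidAlgebra.lift ℤ (Matrix κ κ R) F σ' y).trace := by
    intro y
    induction y using MonoidAlgebra.induction_linear with
    | zero => rw [map_zero, map_zero, Matrix.trace_zero, Matrix.trace_zero]
    | add a b ha hb => rw [map_add, map_add, Matrix.trace_add, Matrix.trace_add, ha, hb]
    | single w a =>
      rw [MonoidAlgebra.lift_single, MonoidAlgebra.lift_single, Matrix.trace_smul,
        Matrix.trace_smul, h]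
  have h1 := det_of_trace hR (MonoidAlgebra.lift ℤ (Matrix ι ι R) F σ (1 - x))
    (MonoidAlgebra.lift ℤ (Matrix κ κ R) F σ' (1 - x)) (by
      intro k
      rw [← map_pow, ← map_pow]
      exact htr _)
  rw [map_sub, map_sub, map_one, map_one, sub_sub_cancel, sub_sub_cancel] at h1
  exact h1

end gen

end Pool.Agent.Y72.Dt
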