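import Pool.Agent.Y72.Dt.Tp
import Pool.Agent.Y72.Log.Fg

/-!
# Tensor products with permutation representations
-/

set_option autoImplicit false
set_option linter.unusedSectionVars false

namespace Pool.Agent.Y72.Dt

open Pool.Agent.Y72.Log MulAction
open scoped Kronecker

section dd

variable {G : Type*} [Group G] {n : Type*} [Fintype n] [DecidableEq n] {R : Type*} [CommRing R]
  {ι : Type*} [Fintype ι] [DecidableEq ι]

/-- the determinant of a matrix over the group ring in a representation -/
noncomputable def DD (ρ : G →* Matrix ι ι R) (A : Matrix n n (MonoidAlgebra ℤ G)) : R :=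
  (blkR (lrG ρ) A).det

end dd

section tns

variable {G : Type*} [Group G] {R : Type*} [CommRing R] {ι : Type*} [Fintype ι] [DecidableEq ι]
  (X : Type*) [Fintype X] [DecidableEq X] [MulAction G X]

/-- permutation matrices -/
def pm (R : Type*) [CommRing R] (g : G) : Matrix X X R :=
  Matrix.of fun x y => if x = g • y then 1 else 0

lemma pm_apply (g : G) (x y : X) : pm X R g x y = if x = g • y then 1 else 0 := rfl

lemma pm_one : pm X R (1 : G) = 1 := by
  ext x y
  rw [pm_apply, one_smul, Matrix.one_apply]

lemma pm_mul (g h : G) : pm X R (g * h) = pm X R g * pm X R h := by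
  ext x y
  rw [Matrix.mul_apply, Finset.sum_eq_single (h • y), pm_apply, pm_apply, pm_apply, if_pos rfl,
    mul_one, mul_smul]
  · intro z _ hz
    rw [pm_apply X h, if_neg hz, mul_zero]
  · intro h
    exact absurd (Finset.mem_univ _) h

lemma trace_pm (g : G) : (pm X R g).trace = (Nat.card (fixedBy X g) : R) := by
  classical
  rw [Matrix.trace]
  simp only [Matrix.diag_apply, pm_apply]
  rw [Finset.sum_boole, Nat.card_eq_fintype_card, Fintype.card_subtype]
  congr 2
  ext x
  rw [Finset.mem_filter, Finset.mem_filter, mem_fixedBy, eq_comm]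

/-- the tensor product with a permutation representation -/
noncomputable def tns (ρ : G →* Matrix ι ι R) : G →* Matrix (ι × X) (ι × X) R where
  toFun g := ρ g ⊗ₖ pm X R g
  map_one' := by rw [map_one, pm_one, Matrix.one_kronecker_one]
  map_mul' g h := by rw [map_mul, pm_mul, Matrix.mul_kronecker_mul]

lemma tns_apply (ρ : G →* Matrix ι ι R) (g : G) (p q : ι × X) :
    tns X ρ g p q = ρ g p.1 q.1 * (if p.2 = g • q.2 then 1 else 0) := rfl

/-- the generic representation of the free monoid -/
noncomputable def gnr {S : Type*} (U : S → Matrix ι ι R) (f : S → G) :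
    FreeMonoid S →* Matrix (ι × X) (ι × X) R :=
  FreeMonoid.lift (fun s => U s ⊗ₖ pm X R (f s))

lemma gnr_apply {S : Type*} (U : S → Matrix ι ι R) (f : S → G) (w : FreeMonoid S) :
    gnr X U f w = (FreeMonoid.lift U w) ⊗ₖ pm X R (FreeMonoid.lift f w) := by
  induction w using FreeMonoid.inductionOn with
  | one => rw [map_one, map_one, map_one, pm_one, Matrix.one_kronecker_one]
  | of s =>
    unfold gnr
    rw [FreeMonoid.lift_eval_of, FreeMonoid.lift_eval_of, FreeMonoid.lift_eval_of]
  | mul x y hx hy =>
    rw [map_mul, map_mul, map_mul, pm_mul, Matrix.mul_kronecker_mul, hx, hy]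

end tns

section tp

variable {G : Type*} [Group G] {R : Type*} [CommRing R] {ι : Type*} [Fintype ι] [DecidableEq ι]
  (X Y : Type*) [Fintype X] [DecidableEq X] [MulAction G X] [Fintype Y] [DecidableEq Y]
  [MulAction G Y]

/-- permutation representations with the same character, generic case -/
lemma generic_eq (h : ∀ g : G, Nat.card (fixedBy X g) = Nat.card (fixedBy Y g)) {S : Type*}
    [Fintype S] (f : S → G) (hR : ∀ (n : ℕ) (r : R), n ≠ 0 → (n : R) * r = 0 → r = 0)
    (U : S → Matrix ι ι R) :
    (∑ s, U s ⊗ₖ pm X R (f s)).det = (∑ s, U s ⊗ₖ pm Y R (f s)).det := by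
  have h1 := det_lift_eq hR (gnr X U f) (gnr Y U f) (by
    intro w
    rw [gnr_apply, gnr_apply, Matrix.trace_kronecker, Matrix.trace_kronecker, trace_pm, trace_pm,
      h]) (∑ s, MonoidAlgebra.single (FreeMonoid.of s) 1)
  rw [map_sum, map_sum] at h1
  simp only [MonoidAlgebra.lift_single, one_smul] at h1
  exact h1

/-- permutation representations with the same character, general case -/
lemma family_eq (h : ∀ g : G, Nat.card (fixedBy X g) = Nat.card (fixedBy Y g)) {S : Type*}
    [Fintype S] (f : S → G) (Z : S → Matrix ι ι R) :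
    (∑ s, Z s ⊗ₖ pm X R (f s)).det = (∑ s, Z s ⊗ₖ pm Y R (f s)).det := by
  let R0 := MvPolynomial (S × ι × ι) ℤ
  let U : S → Matrix ι ι R0 := fun s => Matrix.of fun i j => MvPolynomial.X (s, i, j)
  let φ : R0 →+* R := MvPolynomial.eval₂Hom (Int.castRingHom R) (fun y => Z y.1 y.2.1 y.2.2)
  have h1 := generic_eq (R := R0) X Y h f (by
    intro n r hn hr
    rcases mul_eq_zero.1 hr with h | h
    · exact absurd (Nat.cast_eq_zero.1 h) hn
    · exact h) U
  have h2 := congrArg φ h1
  rw [RingHom.map_det, RingHom.map_det] at h2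
  have h3 : ∀ (X : Type _) [Fintype X] [DecidableEq X] [MulAction G X],
      φ.mapMatrix (∑ s, U s ⊗ₖ pm X R0 (f s)) = ∑ s, Z s ⊗ₖ pm X R (f s) := by
    intro X _ _ _
    rw [map_sum]
    apply Finset.sum_congr rfl
    intro s _
    ext p q
    rw [RingHom.mapMatrix_apply, Matrix.map_apply, Matrix.kroneckerMap_apply,
      Matrix.kroneckerMap_apply, map_mul, pm_apply, pm_apply]
    congr 1
    · show φ (MvPolynomial.X (s, p.1, q.1)) = _
      exact MvPolynomial.eval₂Hom_X' _ _ _
    · split_ifs
      · rw [map_one]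
      · rw [map_zero]
  have h4 : ∀ (X : Type _) [Fintype X] [DecidableEq X] [MulAction G X],
      φ.mapMatrix (∑ s, U s ⊗ₖ pm X R0 (f s)) = ∑ s, Z s ⊗ₖ pm X R (f s) := by
    intro X _ _ _
    rw [map_sum]
    apply Finset.sum_congr rfl
    intro s _
    ext p q
    rw [RingHom.mapMatrix_apply, Matrix.map_apply, Matrix.kroneckerMap_apply,
      Matrix.kroneckerMap_apply, map_mul, pm_apply, pm_apply]
    congr 1
    · show φ (MvPolynomial.X (s, p.1, q.1)) = _
      exact MvPolynomial.eval₂Hom_X' _ _ _
    · split_ifs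
      · rw [map_one]
      · rw [map_zero]
  rw [h3 X, h4 Y] at h2
  exact h2

/-- the block matrix of a tensor product -/
lemma DD_tns {n : Type*} [Fintype n] [DecidableEq n] [Fintype G] (ρ : G →* Matrix ι ι R)
    (A : Matrix n n (MonoidAlgebra ℤ G)) : DD (tns X ρ) A =
      (∑ g : G, (Matrix.of fun (p q : n × ι) => ((A p.1 q.1).coeff g : R) * ρ g p.2 q.2) ⊗ₖ
        pm X R g).det := by
  unfold DD
  rw [← Matrix.det_reindex_self (Equiv.prodAssoc n ι X)]
  congr 1
  ext p q
  rw [blkR_apply, lrG_apply, Matrix.reindex_apply, Matrix.submatrix_apply, Matrix.sum_apply,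
    Finsupp.sum_fintype]
  · apply Finset.sum_congr rfl
    intro g _
    rw [tns_apply, Matrix.kroneckerMap_apply, Matrix.of_apply, pm_apply, ← mul_assoc]
    rfl
  · intro g
    rw [Int.cast_zero, zero_mul]

/-- **Determinants only depend on the permutation character** -/
theorem DD_tns_eq {n : Type*} [Fintype n] [DecidableEq n] [Fintype G] (ρ : G →* Matrix ι ι R)
    (A : Matrix n n (MonoidAlgebra ℤ G))
    (h : ∀ g : G, Nat.card (fixedBy X g) = Nat.card (fixedBy Y g)) :
    DD (tns X ρ) A = DD (tns Y ρ) A := by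
  rw [DD_tns, DD_tns]
  exact family_eq X Y h (fun g => g) _

end tp

end Pool.Agent.Y72.Dt
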