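import Pool.Agent.Y72.Dt.Pos
import Pool.Agent.Y72.Log.Sum

/-!
# Vanishing of the Dennis trace off the identity
-/

set_option autoImplicit false
set_option linter.unusedSectionVars false

namespace Pool.Agent.Y72.Dt

open Finset H219.Wh Pool.Agent.Y72.Log
open Pool.Agent.H23R2 (InvPair IsCoc DsumZ cf supp invPair_units)
open scoped Classical

/-- unique roots for infinitely many primes -/
def UR (Γ : Type*) [Group Γ] : Prop :=
  {l : ℕ | l.Prime ∧ ∀ x y : Γ, x ^ l = y ^ l → x = y}.Infinite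

section ec

variable {I S : Type*} [Fintype I] [Fintype S] {Γ : Type*} [Group Γ] {gr : S → Γ}
  {A B : I → I → S → ℤ}

/-- the rational class coefficients vanish -/
theorem ec_eq_zero (h : IP gr A B) (hb : Cen Γ) (hu : UR Γ)
    (hA : ∀ l : ℕ, Odd l → ∀ i j a, A i j a ^ l = A i j a)
    (hB : ∀ l : ℕ, Odd l → ∀ i j a, B i j a ^ l = B i j a) {c : Γ} (hc : c ≠ 1) :
    ec gr A B hb c = 0 := by
  obtain ⟨K, hK⟩ : ∃ K : ℕ, ∀ s t : S, (ff hb (gr s * gr t) (gr s * gr t)).natAbs < K := by
    refine ⟨(∑ y : S × S, (ff hb (gr y.1 * gr y.2) (gr y.1 * gr y.2)).natAbs) + 1, ?_⟩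
    intro s t
    have h1 := Finset.single_le_sum (f := fun y : S × S =>
      (ff hb (gr y.1 * gr y.2) (gr y.1 * gr y.2)).natAbs) (fun y _ => Nat.zero_le _)
      (Finset.mem_univ (s, t))
    simp only at h1
    omega
  set x := ec gr A B hb c with hx
  obtain ⟨l, ⟨hl, hroot⟩, hlK⟩ := hu.exists_gt (K + x.num.natAbs + 2)
  haveI : Fact l.Prime := ⟨hl⟩
  have hodd : Odd l := hl.odd_of_ne_two (by omega)
  have hzero : ec gr A B hb (c ^ l) = 0 := by
    apply ec_zero
    intro s t hst
    have h1 : gr s * gr t ≠ 1 := by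
      intro h2
      rw [h2] at hst
      exact pow_ne hb hc hl.ne_zero (isConj_one_left.1 hst)
    exact large hb h1 (lt_of_lt_of_le (hK s t) (by omega)) c hst.symm
  set T : Finset (ConjClasses Γ) := insert (ConjClasses.mk c) (T0 gr) with hT
  have h1 := block_sum h hb hl (hA l hodd) (hB l hodd) hc hzero (T := T)
    (Finset.subset_insert _ _)
  have h2 : T.filter (fun C => ConjClasses.mk ((rep C) ^ l) = ConjClasses.mk (c ^ l)) =
      {ConjClasses.mk c} := by
    ext C
    rw [Finset.mem_filter, Finset.mem_singleton]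
    constructor
    · rintro ⟨_, h3⟩
      rw [ConjClasses.mk_eq_mk_iff_isConj] at h3
      obtain ⟨t, ht⟩ := isConj_iff.1 h3
      rw [← conj_pow] at ht
      have h4 := hroot _ _ ht
      rw [← mk_out C, ConjClasses.mk_eq_mk_iff_isConj]
      exact isConj_iff.2 ⟨t, h4⟩
    · rintro rfl
      refine ⟨Finset.mem_insert_self _ _, ?_⟩
      rw [ConjClasses.mk_eq_mk_iff_isConj]
      exact H219.Wh.conj_pow_conj (isConj_out c) l
  rw [h2, Finset.sum_singleton, ← ec_conj h hb hc (isConj_out c).symm, ← hx] at h1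
  by_contra hx0
  have h3 : padicNorm l ((x.num : ℤ) : ℚ) ≤ (l : ℚ) ^ (-((1 : ℕ) : ℤ)) := by
    have h2 : ((x.num : ℤ) : ℚ) = x * (x.den : ℚ) := (Rat.mul_den_eq_num x).symm
    rw [h2, padicNorm.mul]
    have h3 : padicNorm l ((x.den : ℕ) : ℚ) ≤ 1 := padicNorm.of_nat x.den
    calc padicNorm l x * padicNorm l (x.den : ℚ) ≤ (l : ℚ) ^ (-1 : ℤ) * 1 :=
          mul_le_mul h1 h3 (padicNorm.nonneg _) (by positivity)
      _ = _ := by rw [mul_one]; rfl
  have h4 := (padicNorm.dvd_iff_norm_le (p := l)).2 h3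
  rw [pow_one] at h4
  have h5 : l ∣ x.num.natAbs := Int.natCast_dvd.1 h4
  have h6 := Nat.le_of_dvd (Int.natAbs_pos.2 (Rat.num_ne_zero.2 hx0)) h5
  omega

/-- the restriction of a cocycle to a class -/
noncomputable def clF {M : Type*} [AddCommGroup M] (F : Γ → Γ → M) (C : ConjClasses Γ) :
    Γ → Γ → M := fun w x => if ConjClasses.mk w = C then F w x else 0

lemma mk_conj (w x : Γ) : ConjClasses.mk (x⁻¹ * w * x) = ConjClasses.mk w := by
  rw [ConjClasses.mk_eq_mk_iff_isConj]
  exact (isConj_iff.2 ⟨x⁻¹, by rw [inv_inv]⟩ : IsConj w (x⁻¹ * w * x)).symm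

lemma clF_coc {M : Type*} [AddCommGroup M] {F : Γ → Γ → M} (hF : IsCoc F) (C : ConjClasses Γ) :
    IsCoc (clF F C) := by
  intro w x y
  unfold clF
  rw [mk_conj]
  by_cases hw : ConjClasses.mk w = C
  · rw [if_pos hw, if_pos hw, if_pos hw]
    exact hF w x y
  · rw [if_neg hw, if_neg hw, if_neg hw, add_zero]

lemma Dsum_clF {M : Type*} [AddCommGroup M] (F : Γ → Γ → M) :
    Dsum gr A B F = ∑ C ∈ T0 gr, Dsum gr A B (clF F C) := by
  unfold Dsum
  rw [Finset.sum_comm]
  apply Finset.sum_congr rfl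
  intro y _
  rw [← Finset.smul_sum]
  congr 1
  unfold clF
  rw [Finset.sum_ite_eq, if_pos (mem_T0 _ _)]

/-- integral cocycles supported off the identity -/
theorem Dsum_int_zero (h : IP gr A B) (hb : Cen Γ) (hu : UR Γ)
    (hA : ∀ l : ℕ, Odd l → ∀ i j a, A i j a ^ l = A i j a)
    (hB : ∀ l : ℕ, Odd l → ∀ i j a, B i j a ^ l = B i j a)
    {F : Γ → Γ → ℤ} (hF : IsCoc F) (hF1 : ∀ x, F 1 x = 0) : Dsum gr A B F = 0 := by
  rw [Dsum_clF]
  apply Finset.sum_eq_zero
  intro C _
  by_cases hC : rep C = 1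
  · unfold Dsum
    apply Finset.sum_eq_zero
    intro y _
    unfold clF
    by_cases hw : ConjClasses.mk (gr y.2.2.1 * gr y.2.2.2) = C
    · rw [if_pos hw]
      have h1 : gr y.2.2.1 * gr y.2.2.2 = 1 := by
        have h2 := (isConj_out_iff C _).2 hw
        rw [hC] at h2
        exact isConj_one_right.1 h2
      rw [h1, hF1, smul_zero]
    · rw [if_neg hw, smul_zero]
  · have h1 : LC (rep C) (clF F C) (F (rep C) (rep C)) := by
      refine ⟨clF_coc hF C, ?_, ?_⟩
      · intro w hw
        have hw1 : ConjClasses.mk w = C := (isConj_out_iff C w).1 hw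
        unfold clF
        rw [if_pos hw1]
        exact coc_conj hF hw
      · intro w x hw
        exact if_neg (fun hc => hw ((isConj_out_iff C w).2 hc))
    have h2 := ec_spec h hb hC h1
    rw [ec_eq_zero h hb hu hA hB hC, zero_mul] at h2
    exact_mod_cast h2

end ec

section arith

lemma dvd_of_dvd_mul {p : ℕ} (hp : p.Prime) {N f : ℕ} {a b : ℤ} (hb : b ≠ 0)
    (hf : b.natAbs ≤ f) (h : ((p : ℤ) ^ (N + f)) ∣ a * b) : (p : ℤ) ^ N ∣ a := by
  haveI : Fact p.Prime := ⟨hp⟩
  by_cases ha : a = 0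
  · rw [ha]
    exact dvd_zero _
  have h1 : N + f ≤ padicValInt p (a * b) :=
    ((padicValInt_dvd_iff _ _).1 h).resolve_left (mul_ne_zero ha hb)
  rw [padicValInt.mul ha hb] at h1
  have h2 : padicValInt p b ≤ f := by
    have h3 : (p : ℤ) ^ padicValInt p b ∣ b := padicValInt_dvd b
    have h4 : p ^ padicValInt p b ∣ b.natAbs := by
      rw [← Int.natCast_dvd]
      exact_mod_cast h3
    have h5 := Nat.le_of_dvd (Int.natAbs_pos.2 hb) h4
    have h6 : padicValInt p b < p ^ padicValInt p b := Nat.lt_pow_self hp.one_lt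
    omega
  exact (padicValInt_dvd_iff _ _).2 (Or.inr (by omega))

end arith

section main

variable {Γ : Type*} [Group Γ] {n : ℕ}

lemma pow_coc {M : Type*} [AddCommGroup M] {F : Γ → Γ → M} (hF : IsCoc F) (m : ℕ) :
    IsCoc (fun w x => F (w ^ m) x) := by
  intro w x y
  show F (w ^ m) (x * y) = F (w ^ m) x + F ((x⁻¹ * w * x) ^ m) y
  have h1 : (x⁻¹ * w * x) ^ m = x⁻¹ * w ^ m * x := by
    have := conj_pow (i := m) (a := x⁻¹) (b := w)
    rwa [inv_inv] at this
  rw [h1]
  exact hF _ _ _

lemma coc_pow_pow {M : Type*} [AddCommGroup M] {F : Γ → Γ → M} (hF : IsCoc F) (v : Γ) (m k : ℕ) :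
    F (v ^ m) (v ^ k) = k • F (v ^ m) v := by
  induction k with
  | zero => rw [pow_zero, hF.one, zero_smul]
  | succ k ih =>
    have h1 : (v ^ k)⁻¹ * v ^ m * v ^ k = v ^ m := by
      rw [mul_assoc, ← pow_add, add_comm m k, pow_add]
      group
    rw [pow_succ, hF, ih, h1, succ_nsmul]

lemma PD_int_zero (A : (Matrix (Fin n) (Fin n) (MonoidAlgebra ℤ Γ))ˣ) (hb : Cen Γ) (hu : UR Γ)
    {F : Γ → Γ → ℤ} (hF : IsCoc F) (hF1 : ∀ x, F 1 x = 0) : PD A F = 0 := by
  have ha : ∀ i j g, (cf A.val i j g).natAbs ≤ Kb A :=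
    fun i j g => ((exists_bound A.val).choose_spec i j g).trans (le_max_left _ _)
  have hb' : ∀ i j g, (cf (A⁻¹).val i j g).natAbs ≤ Kb A :=
    fun i j g => ((exists_bound (A⁻¹).val).choose_spec i j g).trans (le_max_right _ _)
  unfold PD
  rw [← Dsum_lett _ _ _ _ ha hb']
  exact Dsum_int_zero (ip_of_invPair (invPair_units A) (Kb A) ha hb') hb hu
    (fun l hl => lett_pow hl _ _ _) (fun l hl => lett_pow hl _ _ _) hF hF1

lemma map_PD (A : (Matrix (Fin n) (Fin n) (MonoidAlgebra ℤ Γ))ˣ) {M M' : Type*} [AddCommGroup M]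
    [AddCommGroup M'] (q : M →+ M') (F : Γ → Γ → M) :
    q (PD A F) = PD A (fun w x => q (F w x)) := by
  unfold PD DsumZ
  rw [map_sum]
  apply Finset.sum_congr rfl
  intro y _
  rw [map_zsmul]

lemma PD_add (A : (Matrix (Fin n) (Fin n) (MonoidAlgebra ℤ Γ))ˣ) {M : Type*} [AddCommGroup M]
    (F G : Γ → Γ → M) : PD A (fun w x => F w x + G w x) = PD A F + PD A G := by
  unfold PD DsumZ
  rw [← Finset.sum_add_distrib]
  apply Finset.sum_congr rfl
  intro y _
  rw [smul_add]

/-- cocycles supported on one class -/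
theorem PD_class_zero (A : (Matrix (Fin n) (Fin n) (MonoidAlgebra ℤ Γ))ˣ) (hb : Cen Γ)
    (hu : UR Γ) {p : ℕ} (hp : p.Prime) {N : ℕ} {M : Type} [AddCommGroup M]
    (hM : ∀ x : M, (p ^ N) • x = 0) {c : Γ} (hc : c ≠ 1)
    {F : Γ → Γ → M} (hF : IsCoc F) (hs : ∀ w x, ¬ IsConj c w → F w x = 0) : PD A F = 0 := by
  set f0 : ℤ := ff hb c c with hf0
  have hf0' : f0 ≠ 0 := ff_ne hb hc
  have hLC : LC c (cocF c (ff hb c)) f0 := LC.of_addOn (ff_add hb hc)
  set F0 := cocF c (ff hb c) with hF0
  obtain ⟨Y, W, hYW⟩ := relA A hp (N + f0.natAbs)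
  have step : ∀ j : ℕ, PD A (fun w x => F (w ^ (p ^ j)) x) =
      PD A (fun w x => F (w ^ (p ^ (j + 1))) x) := by
    intro j
    have h1 := hYW M (by
      intro x
      rw [add_assoc, pow_add, mul_comm, mul_smul, hM, smul_zero]) _ (pow_coc hF (p ^ j))
    have h2 : (fun w x => F ((w ^ p) ^ (p ^ j)) x) = (fun w x => F (w ^ (p ^ (j + 1))) x) := by
      funext w x
      rw [← pow_mul, pow_succ']
    rw [h2] at h1
    rw [h1]
    have h3 : ∑ w ∈ W, Y w • F (w ^ (p ^ j)) w = 0 := by
      rw [← Finset.sum_fiberwise_of_maps_to (s := W) (t := W.image ConjClasses.mk)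
        (g := fun w => ConjClasses.mk w) (fun w hw => Finset.mem_image_of_mem _ hw)]
      apply Finset.sum_eq_zero
      intro C _
      have h4 : ∑ w ∈ W with ConjClasses.mk w = C, Y w • F (w ^ (p ^ j)) w =
          (∑ w ∈ W with ConjClasses.mk w = C, Y w) • F ((rep C) ^ (p ^ j)) (rep C) := by
        rw [Finset.sum_smul]
        apply Finset.sum_congr rfl
        intro w hw
        rw [Finset.mem_filter] at hw
        congr 1
        exact coc_conj (pow_coc hF (p ^ j)) ((isConj_out_iff C w).2 hw.2)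
      rw [h4]
      by_cases hC : IsConj c ((rep C) ^ (p ^ j))
      · -- the integral cocycle
        set G : Γ → Γ → ℤ := clF (fun w x => F0 (w ^ (p ^ j)) x) C with hG
        have hGc : IsCoc G := clF_coc (pow_coc hLC.coc (p ^ j)) C
        have hF01 : ∀ x, F0 1 x = 0 := by
          intro x
          apply hLC.off
          intro h5
          exact hc (isConj_one_left.1 h5)
        have hG1 : ∀ x, G 1 x = 0 := by
          intro x
          show (if ConjClasses.mk 1 = C then F0 (1 ^ (p ^ j)) x else 0) = 0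
          rw [one_pow, hF01, ite_self]
        have e1 : PD A G = 0 := PD_int_zero A hb hu hGc hG1
        have e2 : PD A (fun w x => G (w ^ p) x) = 0 := by
          apply PD_int_zero A hb hu (pow_coc hGc p)
          intro x
          show G (1 ^ p) x = 0
          rw [one_pow, hG1]
        let cst : ℤ →+ ZMod (p ^ (N + f0.natAbs + 1)) := Int.castAddHom _
        have hGm : IsCoc (fun w x => cst (G w x)) := by
          intro w x y
          show cst _ = cst _ + cst _
          rw [← map_add, hGc]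
        have e3 := hYW (ZMod (p ^ (N + f0.natAbs + 1))) (by
          intro x
          rw [nsmul_eq_mul, ZMod.natCast_self, zero_mul]) _ hGm
        rw [← map_PD A cst G, ← map_PD A cst (fun w x => G (w ^ p) x), e1, e2, map_zero,
          zero_add] at e3
        set lam : ℤ := F0 ((rep C) ^ (p ^ j)) (rep C) with hlam
        have e4 : ∑ w ∈ W, Y w • cst (G w w) =
            cst ((∑ w ∈ W with ConjClasses.mk w = C, Y w) * lam) := by
          rw [Finset.sum_mul, map_sum, Finset.sum_filter]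
          apply Finset.sum_congr rfl
          intro w _
          by_cases hw : ConjClasses.mk w = C
          · rw [if_pos hw, ← map_zsmul, smul_eq_mul]
            congr 2
            rw [hG]
            unfold clF
            rw [if_pos hw]
            exact coc_conj (pow_coc hLC.coc (p ^ j)) ((isConj_out_iff C w).2 hw)
          · rw [if_neg hw]
            have e5 : G w w = 0 := if_neg hw
            rw [e5, map_zero, smul_zero]
        rw [e4] at e3
        have e5 : ((p : ℤ) ^ (N + f0.natAbs + 1)) ∣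
            (∑ w ∈ W with ConjClasses.mk w = C, Y w) * lam := by
          have e6 := (ZMod.intCast_zmod_eq_zero_iff_dvd
            ((∑ w ∈ W with ConjClasses.mk w = C, Y w) * lam) (p ^ (N + f0.natAbs + 1))).1 e3.symm
          exact_mod_cast e6
        have e6 : ((p ^ j : ℕ) : ℤ) * lam = f0 := by
          have e7 := hLC.diag _ hC
          rw [coc_pow_pow hLC.coc, nsmul_eq_mul] at e7
          exact e7
        have hlam0 : lam ≠ 0 := by
          intro h0
          rw [h0, mul_zero] at e6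
          exact hf0' e6.symm
        have hlamle : lam.natAbs ≤ f0.natAbs := by
          apply Nat.le_of_dvd (Int.natAbs_pos.2 hf0')
          rw [Int.natAbs_dvd_natAbs]
          exact ⟨_, by rw [← e6]; ring⟩
        obtain ⟨z, hz⟩ := dvd_of_dvd_mul hp hlam0 (le_trans hlamle (Nat.le_succ _)) e5
        rw [hz, mul_comm, mul_smul]
        have e8 : ((p : ℤ) ^ N) • F (rep C ^ p ^ j) (rep C) = 0 := by
          have e9 : ((p : ℤ) ^ N) = ((p ^ N : ℕ) : ℤ) := by push_cast; rfl
          rw [e9, natCast_zsmul, hM]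
        rw [e8, smul_zero]
      · rw [hs _ _ hC, smul_zero]
    rw [h3, add_zero]
  have all : ∀ j : ℕ, PD A F = PD A (fun w x => F (w ^ (p ^ j)) x) := by
    intro j
    induction j with
    | zero => simp only [pow_zero, pow_one]
    | succ j ih => rw [ih, step]
  rw [all f0.natAbs]
  have h5 : (fun w x => F (w ^ (p ^ f0.natAbs)) x) = fun _ _ => 0 := by
    funext w x
    apply hs
    intro h6
    have h7 := pow_dvd_ff hb hc h6
    have h8 : p ^ f0.natAbs ∣ f0.natAbs := by
      rwa [← Int.natCast_dvd]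
    have h9 := Nat.le_of_dvd (Int.natAbs_pos.2 hf0') h8
    have h10 : f0.natAbs < p ^ f0.natAbs := Nat.lt_pow_self hp.one_lt
    omega
  rw [h5]
  unfold PD DsumZ
  simp

end main

end Pool.Agent.Y72.Dt
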